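import Pool.Agent.H850.OL.Arith

/-!
# An explicit criterion for a place to be regular
-/

set_option autoImplicit false
set_option linter.unusedSectionVars false

namespace Pool.Agent.H850.RG

open Pool.Agent.H850.TF MeasureTheory Topology Filter NumberField IsDedekindDomain Polynomial
open Pool.Agent.W401.Cheb (GK IsFrob IsInert dens)

section Count

variable {F : Type} [Field F] [DecidableEq F]

theorem npairs_le (s : Multiset F) (m : ℕ) : npairs s m ≤ s.card * (s.card - 1) := by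
  unfold npairs
  have h1 : ∀ x ∈ s.map (fun a => s.countP fun b => a ^ m ≠ b ^ m), x ≤ s.card - 1 := by
    intro x hx
    obtain ⟨a, ha, rfl⟩ := Multiset.mem_map.1 hx
    have h2 := Multiset.card_eq_countP_add_countP (fun b => a ^ m ≠ b ^ m) s
    have h3 : 0 < s.countP fun b => ¬ (a ^ m ≠ b ^ m) :=
      Multiset.countP_pos.2 ⟨a, ha, by simp⟩
    omega
  have h2 := Multiset.sum_le_card_nsmul _ _ h1
  rw [Multiset.card_map, smul_eq_mul] at h2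
  exact h2

theorem npairs_regular {s : Multiset F} (hs : s.Nodup) {m : ℕ}
    (h : ∀ a ∈ s, ∀ b ∈ s, a ^ m = b ^ m → a = b) : npairs s m = s.card * (s.card - 1) := by
  unfold npairs
  have h1 : s.map (fun a => s.countP fun b => a ^ m ≠ b ^ m) = s.map fun _ => s.card - 1 := by
    refine Multiset.map_congr rfl fun a ha => ?_
    have h2 := Multiset.card_eq_countP_add_countP (fun b => a ^ m ≠ b ^ m) s
    have h3 : (s.countP fun b => ¬ (a ^ m ≠ b ^ m)) = s.count a := by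
      unfold Multiset.count
      refine Multiset.countP_congr rfl fun b hb => propext ⟨?_, ?_⟩
      · intro h4
        exact h a ha b hb (not_not.1 h4)
      · rintro rfl
        simp
    rw [h3, Multiset.count_eq_one_of_mem hs ha] at h2
    omega
  rw [h1, Multiset.map_const', Multiset.sum_replicate, smul_eq_mul]

end Count

/-- The roots of `P` are distinct, and no quotient of two different roots is a root of unity. -/
def Regular (P : ℤ[X]) : Prop :=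
  (P.map (algebraMap ℤ (AlgebraicClosure ℚ))).roots.Nodup ∧
    ∀ a ∈ (P.map (algebraMap ℤ (AlgebraicClosure ℚ))).roots,
      ∀ b ∈ (P.map (algebraMap ℤ (AlgebraicClosure ℚ))).roots, ∀ m : ℕ, m ≠ 0 → a ^ m = b ^ m → a = b

theorem squarefree_of_nodup {P : ℤ[X]} (hP0 : P ≠ 0)
    (h : (P.map (algebraMap ℤ (AlgebraicClosure ℚ))).roots.Nodup) {K : Type} [Field K] [CharZero K] :
    Squarefree (P.map (algebraMap ℤ K)) := by
  have h1 : P.map (algebraMap ℤ (AlgebraicClosure ℚ)) ≠ 0 :=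
    (Polynomial.map_ne_zero_iff (algebraMap ℤ (AlgebraicClosure ℚ)).injective_int).2 hP0
  have h2 : (P.map (algebraMap ℤ (AlgebraicClosure ℚ))).Separable :=
    (Polynomial.nodup_roots_iff_of_splits h1 (IsAlgClosed.splits _)).1 h
  have h3 : (P.map (algebraMap ℤ ℚ)).Separable := by
    have e : algebraMap ℤ (AlgebraicClosure ℚ) =
        (algebraMap ℚ (AlgebraicClosure ℚ)).comp (algebraMap ℤ ℚ) := RingHom.ext_int _ _
    rw [e, ← Polynomial.map_map, Polynomial.separable_map] at h2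
    exact h2
  have h4 : (P.map (algebraMap ℤ K)).Separable := by
    have e : algebraMap ℤ K = (algebraMap ℚ K).comp (algebraMap ℤ ℚ) := RingHom.ext_int _ _
    rw [e, ← Polynomial.map_map, Polynomial.separable_map]
    exact h3
  exact h4.squarefree

section Compat

variable {K : Type} [Field K] [NumberField K] {n : ℕ}
variable (ρ : ∀ ℓ : ℕ, [Fact ℓ.Prime] → GK K →* GL (Fin n) ℤ_[ℓ])

theorem CR_inv (ℓ : ℕ) [Fact ℓ.Prime] (σ : GK K)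
    (h : CR ({TF.rat (ρ ℓ) σ} : Set (Matrix (Fin n) (Fin n) ℚ_[ℓ]))) :
    CR ({TF.rat (ρ ℓ) σ⁻¹} : Set (Matrix (Fin n) (Fin n) ℚ_[ℓ])) := by
  apply CR_of_isSemisimple
  refine Pool.Agent.X320.FS.ss_inv (M := TF.rat (ρ ℓ) σ) ?_ (isSemisimple_of_CR h)
  rw [← map_mul, mul_inv_cancel, map_one]

/-- the rank at a place -/
theorem rk_at {P : ℤ[X]} (ℓ : ℕ) [Fact ℓ.Prime] {σ : GK K}
    (hP : (TF.rat (ρ ℓ) σ⁻¹).charpoly = P.map (algebraMap ℤ ℚ_[ℓ]))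
    (h : CR ({TF.rat (ρ ℓ) σ} : Set (Matrix (Fin n) (Fin n) ℚ_[ℓ]))) (m : ℕ)
    [DecidableEq (AlgebraicClosure ℚ)] : rk (TF.rat (ρ ℓ) (σ ^ m)) =
      npairs (P.map (algebraMap ℤ (AlgebraicClosure ℚ))).roots m := by
  rw [← rk_inv, ← inv_pow, map_pow]
  exact rk_pow_eq_npairs (CR_inv ρ ℓ σ h) P hP m

theorem card_roots (ℓ : ℕ) [Fact ℓ.Prime] {P : ℤ[X]} {M : Matrix (Fin n) (Fin n) ℚ_[ℓ]}
    (hP : M.charpoly = P.map (algebraMap ℤ ℚ_[ℓ])) :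
    (P.map (algebraMap ℤ (AlgebraicClosure ℚ))).roots.card = n := by
  rw [← (IsAlgClosed.splits (P.map (algebraMap ℤ (AlgebraicClosure ℚ)))).natDegree_eq_card_roots,
    Polynomial.natDegree_map_eq_of_injective (algebraMap ℤ (AlgebraicClosure ℚ)).injective_int,
    ← Polynomial.natDegree_map_eq_of_injective (algebraMap ℤ ℚ_[ℓ]).injective_int, ← hP,
    Matrix.charpoly_natDegree_eq_dim]
  simp

/-- the rank of `ad` is at most `n (n - 1)` -/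
theorem rk_le_compat [MeasurableSpace (GK K)] [BorelSpace (GK K)] (μ : Measure (GK K))
    [μ.IsHaarMeasure] [μ.OuterRegular] {S : Set (HeightOneSpectrum (𝓞 K))} (hS : S.Finite)
    (P : HeightOneSpectrum (𝓞 K) → ℤ[X])
    (hρ : ∀ (ℓ : ℕ) [Fact ℓ.Prime], Continuous fun σ => (ρ ℓ σ : Matrix (Fin n) (Fin n) ℤ_[ℓ]))
    (hI : ∀ (ℓ : ℕ) [Fact ℓ.Prime], ∀ v ∉ S, (ℓ : 𝓞 K) ∉ v.asIdeal → ∀ σ, IsInert v σ → ρ ℓ σ = 1)
    (hP : ∀ (ℓ : ℕ) [Fact ℓ.Prime], ∀ v ∉ S, (ℓ : 𝓞 K) ∉ v.asIdeal → ∀ σ, IsFrob v σ →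
      (TF.rat (ρ ℓ) σ⁻¹).charpoly = (P v).map (algebraMap ℤ ℚ_[ℓ])) (ℓ : ℕ) [hℓ : Fact ℓ.Prime]
    (hss : CR (Set.range (TF.rat (ρ ℓ)))) (hc : ∀ σ, σ ∈ conn (ρ ℓ)) (g : GK K) :
    rk (TF.rat (ρ ℓ) g) ≤ n * (n - 1) := by
  classical
  obtain ⟨R, B, hBc, hB, hmax, hRB⟩ := (connOn_conn (ρ ℓ)).rk_ae μ (hρ ℓ) (isOpen_conn (ρ ℓ))
  have hA := dens_null μ hBc hB
  have hfinℓ : {v : HeightOneSpectrum (𝓞 K) | (ℓ : 𝓞 K) ∈ v.asIdeal}.Finite :=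
    Pool.Agent.X320.DS.finite_above hℓ.out.ne_zero
  have hD := compat_regular ρ μ hS P hρ hI hP
  obtain ⟨v, hv1, hv2, hv3, hv4⟩ : ∃ v : HeightOneSpectrum (𝓞 K),
      (∀ (ℓ : ℕ) [Fact ℓ.Prime], (ℓ : 𝓞 K) ∉ v.asIdeal →
        CR (Set.range (TF.rat (ρ ℓ))) → (∀ σ, σ ∈ conn (ρ ℓ)) → ∀ σ, IsFrob v σ →
          CR ({TF.rat (ρ ℓ) σ} : Set (Matrix (Fin n) (Fin n) ℚ_[ℓ])) ∧
          ∀ m : ℕ, m ≠ 0 → ∀ g, rk (TF.rat (ρ ℓ) g) ≤ rk (TF.rat (ρ ℓ) (σ ^ m))) ∧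
      (¬ ∀ σ, IsFrob v σ → σ ∈ B) ∧ (ℓ : 𝓞 K) ∉ v.asIdeal ∧ v ∉ S := by
    by_contra hcon
    push Not at hcon
    have h1 := ((hD.add hA).add (Pool.Agent.X320.DS.dens_finite _ hfinℓ)).add
      (Pool.Agent.X320.DS.dens_finite _ hS)
    simp only [add_zero] at h1
    have h2 : Tendsto (dens fun _ : HeightOneSpectrum (𝓞 K) => True) atTop (𝓝 0) := by
      refine squeeze_zero (fun N => dens_nonneg _ N) (fun N => ?_) h1
      refine le_trans (dens_mono (fun v _ => ?_) N) (le_trans (dens_or _ _ N)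
        (add_le_add (le_trans (dens_or _ _ N) (add_le_add (dens_or _ _ N) le_rfl)) le_rfl))
      by_cases e1 : (∀ (ℓ : ℕ) [Fact ℓ.Prime], (ℓ : 𝓞 K) ∉ v.asIdeal →
        CR (Set.range (TF.rat (ρ ℓ))) → (∀ σ, σ ∈ conn (ρ ℓ)) → ∀ σ, IsFrob v σ →
          CR ({TF.rat (ρ ℓ) σ} : Set (Matrix (Fin n) (Fin n) ℚ_[ℓ])) ∧
          ∀ m : ℕ, m ≠ 0 → ∀ g, rk (TF.rat (ρ ℓ) g) ≤ rk (TF.rat (ρ ℓ) (σ ^ m)))
      · by_cases e2 : ∀ σ, IsFrob v σ → σ ∈ B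
        · exact Or.inl (Or.inl (Or.inr e2))
        · by_cases e3 : (ℓ : 𝓞 K) ∈ v.asIdeal
          · exact Or.inl (Or.inr e3)
          · by_cases e4 : v ∈ S
            · exact Or.inr e4
            · exfalso
              push Not at e2
              exact e4 (hcon v e1 e2 e3)
      · exact Or.inl (Or.inl (Or.inl e1))
    have h3 := tendsto_nhds_unique h2 (dens_all (K := K))
    norm_num at h3
  push Not at hv2
  obtain ⟨σ, hσ, hσB⟩ := hv2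
  have h1 := hv1 ℓ hv3 hss hc σ hσ
  have h2 := rk_at ρ ℓ (hP ℓ v hv4 hv3 σ hσ) h1.1 1
  have h3 := h1.2 1 one_ne_zero g
  rw [h2] at h3
  refine h3.trans ((npairs_le _ 1).trans ?_)
  rw [card_roots ℓ (hP ℓ v hv4 hv3 σ hσ)]

/-- **The explicit criterion.** -/
theorem regular_of_poly [MeasurableSpace (GK K)] [BorelSpace (GK K)] (μ : Measure (GK K))
    [μ.IsHaarMeasure] [μ.OuterRegular] {S : Set (HeightOneSpectrum (𝓞 K))} (hS : S.Finite)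
    (P : HeightOneSpectrum (𝓞 K) → ℤ[X])
    (hρ : ∀ (ℓ : ℕ) [Fact ℓ.Prime], Continuous fun σ => (ρ ℓ σ : Matrix (Fin n) (Fin n) ℤ_[ℓ]))
    (hI : ∀ (ℓ : ℕ) [Fact ℓ.Prime], ∀ v ∉ S, (ℓ : 𝓞 K) ∉ v.asIdeal → ∀ σ, IsInert v σ → ρ ℓ σ = 1)
    (hP : ∀ (ℓ : ℕ) [Fact ℓ.Prime], ∀ v ∉ S, (ℓ : 𝓞 K) ∉ v.asIdeal → ∀ σ, IsFrob v σ →
      (TF.rat (ρ ℓ) σ⁻¹).charpoly = (P v).map (algebraMap ℤ ℚ_[ℓ])) {v : HeightOneSpectrum (𝓞 K)}
    (hv : v ∉ S) (hreg : Regular (P v)) (ℓ : ℕ) [hℓ : Fact ℓ.Prime] (hvℓ : (ℓ : 𝓞 K) ∉ v.asIdeal)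
    (hss : CR (Set.range (TF.rat (ρ ℓ)))) (hc : ∀ σ, σ ∈ conn (ρ ℓ)) {σ : GK K}
    (hσ : IsFrob v σ) :
    CR ({TF.rat (ρ ℓ) σ} : Set (Matrix (Fin n) (Fin n) ℚ_[ℓ])) ∧
      ∀ m : ℕ, m ≠ 0 → ∀ g, rk (TF.rat (ρ ℓ) g) ≤ rk (TF.rat (ρ ℓ) (σ ^ m)) := by
  classical
  have hch := hP ℓ v hv hvℓ σ hσ
  have hP0 : P v ≠ 0 := by
    intro h0
    rw [h0, Polynomial.map_zero] at hch
    exact (Matrix.charpoly_monic _).ne_zero hch
  have h1 : CR ({TF.rat (ρ ℓ) σ⁻¹} : Set (Matrix (Fin n) (Fin n) ℚ_[ℓ])) := by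
    apply CR_of_isSemisimple
    refine Module.End.isSemisimple_of_squarefree_aeval_eq_zero
      (squarefree_of_nodup hP0 hreg.1 (K := ℚ_[ℓ])) ?_
    rw [← hch, ← Matrix.charpoly_toLin']
    exact LinearMap.aeval_self_charpoly _
  have h2 : CR ({TF.rat (ρ ℓ) σ} : Set (Matrix (Fin n) (Fin n) ℚ_[ℓ])) := by
    have h3 := CR_inv ρ ℓ σ⁻¹ h1
    rwa [inv_inv] at h3
  refine ⟨h2, fun m hm g => ?_⟩
  rw [rk_at ρ ℓ hch h2 m, npairs_regular hreg.1 fun a ha b hb h => hreg.2 a ha b hb m hm h,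
    card_roots ℓ hch]
  exact rk_le_compat ρ μ hS P hρ hI hP ℓ hss hc g

end Compat

section Sub

variable {N N' : ℕ} {p : ℕ} [Fact p.Prime] {Γ : Type} [Group Γ]

theorem Pol_le_dsm (ρ : Γ →* GL (Fin N) ℤ_[p]) (ρ' : Γ →* GL (Fin N') ℤ_[p]) :
    Pol ρ ≤ Pol (dsm ρ ρ') := by
  apply Algebra.adjoin_le
  have key : ∀ (σ : Γ) (i j : Fin N), TF.rat ρ σ i j = TF.rat (dsm ρ ρ') σ
      (finSumFinEquiv (Sum.inl i)) (finSumFinEquiv (Sum.inl j)) := by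
    intro σ i j
    rw [rat_dsm, blk, Matrix.submatrix_apply, Equiv.symm_apply_apply, Equiv.symm_apply_apply,
      Matrix.fromBlocks_apply₁₁]
  rintro f (⟨i, j, rfl⟩ | ⟨i, j, rfl⟩)
  · have h := entry_mem (dsm ρ ρ') (finSumFinEquiv (Sum.inl i)) (finSumFinEquiv (Sum.inl j))
    have h2 : (fun σ => TF.rat ρ σ i j) = fun σ => TF.rat (dsm ρ ρ') σ
        (finSumFinEquiv (Sum.inl i)) (finSumFinEquiv (Sum.inl j)) := funext fun σ => key σ i j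
    rw [h2]
    exact h
  · have h := entry_inv_mem (dsm ρ ρ') (finSumFinEquiv (Sum.inl i)) (finSumFinEquiv (Sum.inl j))
    have h2 : (fun σ => TF.rat ρ σ⁻¹ i j) = fun σ => TF.rat (dsm ρ ρ') σ⁻¹
        (finSumFinEquiv (Sum.inl i)) (finSumFinEquiv (Sum.inl j)) := funext fun σ => key σ⁻¹ i j
    rw [h2]
    exact h

theorem conn_dsm_le [TopologicalSpace Γ] [IsTopologicalGroup Γ] [CompactSpace Γ]
    (ρ : Γ →* GL (Fin N) ℤ_[p]) (ρ' : Γ →* GL (Fin N') ℤ_[p]) :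
    conn (dsm ρ ρ') ≤ conn ρ := by
  have h : ConnOn ρ (conn (dsm ρ ρ')) := fun D hD V hV h0 u hu =>
    connOn_conn (dsm ρ ρ') D (Pol_le_dsm ρ ρ' hD) V hV h0 u hu
  exact h.le

end Sub

end Pool.Agent.H850.RG
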