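import Pool.Agent.H850.OL.Reg

/-!
# Regular semisimple elements of small `p`-adic groups generate with a conjugate
-/

set_option autoImplicit false
set_option linter.unusedSectionVars false

namespace Pool.Agent.H850.TF

open LieAlgebra LieModule

variable {N : ℕ}

section Rk

variable {K : Type} [Field K]

/-- the rank of `X ↦ Z X - X Z` -/
noncomputable def rk (Z : Matrix (Fin N) (Fin N) K) : ℕ :=
  Module.finrank K (LinearMap.range (adE K Z))

/-- the matrix units -/
def mun (q : Fin N × Fin N) {R : Type} [Zero R] [One R] : Matrix (Fin N) (Fin N) R :=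
  Matrix.single q.1 q.2 1

/-- the minors of `ad` -/
def mad {R : Type} [CommRing R] {D : ℕ} (w e : Fin D → Fin N × Fin N)
    (Z : Matrix (Fin N) (Fin N) R) : R :=
  (Matrix.of fun i j => ent (Z * mun (w i) - mun (w i) * Z) (e j)).det

theorem mun_map {R S : Type} [CommRing R] [CommRing S] (f : R →+* S) (q : Fin N × Fin N) :
    f.mapMatrix (mun q) = (mun q : Matrix (Fin N) (Fin N) S) := by
  ext i j
  simp only [mun, RingHom.mapMatrix_apply, Matrix.map_apply, Matrix.single_apply]
  split_ifs <;> simp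

theorem mad_map {R S : Type} [CommRing R] [CommRing S] (f : R →+* S) {D : ℕ}
    (w e : Fin D → Fin N × Fin N) (Z : Matrix (Fin N) (Fin N) R) :
    f (mad w e Z) = mad w e (f.mapMatrix Z) := by
  unfold mad
  rw [RingHom.map_det]
  congr 1
  ext i j
  have h : f.mapMatrix (Z * mun (w i) - mun (w i) * Z) =
      f.mapMatrix Z * mun (w i) - mun (w i) * f.mapMatrix Z := by
    rw [map_sub, map_mul, map_mul, mun_map]
  have h2 := congrArg (fun A : Matrix (Fin N) (Fin N) S => A (e j).1 (e j).2) h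
  exact h2

theorem span_mun : Submodule.span K (Set.range fun q : Fin N × Fin N =>
    (mun q : Matrix (Fin N) (Fin N) K)) = ⊤ := by
  rw [eq_top_iff]
  intro X _
  rw [Matrix.matrix_eq_sum_single X]
  refine Submodule.sum_mem _ fun i _ => Submodule.sum_mem _ fun j _ => ?_
  have h : Matrix.single i j (X i j) = X i j • (mun (i, j) : Matrix (Fin N) (Fin N) K) := by
    unfold mun
    rw [Matrix.smul_single, smul_eq_mul, mul_one]
  rw [h]
  exact Submodule.smul_mem _ _ (Submodule.subset_span ⟨(i, j), rfl⟩)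

theorem range_adE (Z : Matrix (Fin N) (Fin N) K) : LinearMap.range (adE K Z) =
    Submodule.span K (Set.range fun q => Z * mun q - mun q * Z) := by
  rw [← Submodule.map_top, ← span_mun, Submodule.map_span, ← Set.range_comp]
  rfl

/-- the entries as a linear map -/
def entL (K : Type) [Field K] : Matrix (Fin N) (Fin N) K →ₗ[K] (Fin N × Fin N → K) :=
  { toFun := ent, map_add' := fun _ _ => rfl, map_smul' := fun _ _ => rfl }

theorem entL_ker : LinearMap.ker (entL (N := N) K) = ⊥ := by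
  rw [LinearMap.ker_eq_bot]
  intro A B h
  ext i j
  exact congrFun h (i, j)

theorem exists_mad (Z : Matrix (Fin N) (Fin N) K) (D : ℕ) (hD : D ≤ rk Z) :
    ∃ w e : Fin D → Fin N × Fin N, mad w e Z ≠ 0 := by
  classical
  obtain ⟨κ, a, -, ha, hli⟩ := exists_linearIndependent' K fun q : Fin N × Fin N =>
    Z * mun q - mun q * Z
  have hfin : Finite κ := hli.finite
  have : Fintype κ := Fintype.ofFinite κ
  have hcard : D ≤ Fintype.card κ := by
    have h1 := finrank_span_eq_card hli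
    rw [ha, ← range_adE] at h1
    rw [← h1]
    exact hD
  obtain ⟨g⟩ : Nonempty (Fin D ↪ κ) := by
    rw [Function.Embedding.nonempty_iff_card_le, Fintype.card_fin]
    exact hcard
  have hli2 := hli.comp g g.injective
  have hli3 : LinearIndependent K fun i : Fin D => ent (Z * mun (a (g i)) - mun (a (g i)) * Z) :=
    hli2.map' (entL K) entL_ker
  obtain ⟨e, he⟩ := exists_positions _ hli3
  exact ⟨fun i => a (g i), e, he⟩

theorem le_rk (Z : Matrix (Fin N) (Fin N) K) {D : ℕ} (w e : Fin D → Fin N × Fin N)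
    (h : mad w e Z ≠ 0) : D ≤ rk Z := by
  have h1 := linearIndependent_of_minor (fun i => ent (Z * mun (w i) - mun (w i) * Z)) e h
  have hli : LinearIndependent K fun i : Fin D => Z * mun (w i) - mun (w i) * Z :=
    LinearIndependent.of_comp (entL K) h1
  have h2 : LinearIndependent K fun i : Fin D =>
      (⟨Z * mun (w i) - mun (w i) * Z, mun (w i), rfl⟩ : LinearMap.range (adE K Z)) :=
    LinearIndependent.of_comp (Submodule.subtype _) hli
  have := h2.fintype_card_le_finrank
  rw [Fintype.card_fin] at this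
  exact this

/-- the rank only depends on the commutant -/
theorem rk_le_of_comm (Z Z' : Matrix (Fin N) (Fin N) K)
    (h : ∀ X, Commute Z X → Commute Z' X) : rk Z' ≤ rk Z := by
  have h1 := LinearMap.finrank_range_add_finrank_ker (adE K Z)
  have h2 := LinearMap.finrank_range_add_finrank_ker (adE K Z')
  have h3 : LinearMap.ker (adE K Z) ≤ LinearMap.ker (adE K Z') := by
    intro X hX
    rw [LinearMap.mem_ker, adE_apply, sub_eq_zero] at hX ⊢
    exact h X hX
  have h4 := Submodule.finrank_mono h3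
  unfold rk
  omega

theorem rk_le_of_adjoin {Z Z' : Matrix (Fin N) (Fin N) K} (h : Z' ∈ Algebra.adjoin K {Z}) :
    rk Z' ≤ rk Z := by
  refine rk_le_of_comm Z Z' fun X hX => ?_
  have h1 : Algebra.adjoin K {Z} ≤ Subalgebra.centralizer K {X} := by
    apply Algebra.adjoin_le
    intro Y hY
    rw [Set.mem_singleton_iff] at hY
    rw [hY, SetLike.mem_coe, Subalgebra.mem_centralizer_iff]
    rintro _ rfl
    exact hX.eq.symm
  have h2 := h1 h
  rw [Subalgebra.mem_centralizer_iff] at h2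
  exact (h2 X rfl).symm

/-- the rank of `ad` is invariant under extensions of the field -/
theorem rk_bc {F : Type} [Field F] [Algebra K F] [CharZero K] (Z : Matrix (Fin N) (Fin N) K) :
    rk (bc Z : Matrix (Fin N) (Fin N) F) = rk Z := by
  apply le_antisymm
  · -- via generic linear algebra: spanning vectors
    by_contra hlt
    push Not at hlt
    obtain ⟨w, e, h⟩ := exists_mad (bc Z : Matrix (Fin N) (Fin N) F) (rk Z + 1) hlt
    have h1 : mad w e Z ≠ 0 := by
      intro h0
      apply h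
      have h2 := mad_map (algebraMap K F) w e Z
      rw [h0, map_zero] at h2
      exact h2.symm
    have := le_rk Z w e h1
    omega
  · obtain ⟨w, e, h⟩ := exists_mad Z (rk Z) le_rfl
    apply le_rk _ w e
    have h2 := mad_map (algebraMap K F) w e Z
    intro h0
    apply h
    have h3 : algebraMap K F (mad w e Z) = 0 := by rw [h2]; exact h0
    exact (map_eq_zero _).1 h3

end Rk

section Pairs

theorem isSemisimple_of_CR {F : Type} [Field F] {z : Matrix (Fin N) (Fin N) F}
    (h : CR ({z} : Set (Matrix (Fin N) (Fin N) F))) :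
    Module.End.IsSemisimple (Matrix.toLin' z) := by
  rw [Module.End.isSemisimple_iff]
  intro W hW
  obtain ⟨W', hW', hc⟩ := h W (by
    rintro _ rfl x hx
    have h1 := hW hx
    rw [Submodule.mem_comap, Matrix.toLin'_apply] at h1
    exact h1)
  refine ⟨W', ?_, hc⟩
  intro x hx
  rw [Submodule.mem_comap, Matrix.toLin'_apply]
  exact hW' z rfl x hx

attribute [local instance 100] LieRing.ofAssociativeRing

/-- **regular semisimple elements**: a bracket completes them to generators -/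
theorem lie_pair_of_regular {F : Type} [Field F] [IsAlgClosed F] [CharZero F]
    (𝔥 : Submodule F (Matrix (Fin N) (Fin N) F)) (hbr : ∀ X ∈ 𝔥, ∀ Y ∈ 𝔥, X * Y - Y * X ∈ 𝔥)
    (hCR : CR (𝔥 : Set (Matrix (Fin N) (Fin N) F))) {z : Matrix (Fin N) (Fin N) F} (hz : z ∈ 𝔥)
    (hzs : CR ({z} : Set (Matrix (Fin N) (Fin N) F))) (hmax : ∀ z' ∈ 𝔥, rk z' ≤ rk z) :
    ∃ W ∈ 𝔥, ∀ Z ∈ 𝔥, Z ∈ Algebra.adjoin F {z, W * z - z * W} := by
  have hsq : Squarefree (minpoly F z) := by
    rw [← Matrix.minpoly_toLin']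
    exact (isSemisimple_of_CR hzs).minpoly_squarefree
  let L : LieSubalgebra F (Module.End F (Fin N → F)) :=
    { carrier := {φ | LinearMap.toMatrix' φ ∈ 𝔥}
      add_mem' := by
        intro φ ψ h h'
        change LinearMap.toMatrix' (φ + ψ) ∈ 𝔥
        rw [map_add]
        exact 𝔥.add_mem h h'
      zero_mem' := by
        change LinearMap.toMatrix' 0 ∈ 𝔥
        rw [map_zero]
        exact 𝔥.zero_mem
      smul_mem' := by
        intro c φ h
        change LinearMap.toMatrix' (c • φ) ∈ 𝔥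
        rw [map_smul]
        exact 𝔥.smul_mem c h
      lie_mem' := by
        intro φ ψ h h'
        change LinearMap.toMatrix' (φ * ψ - ψ * φ) ∈ 𝔥
        rw [map_sub, Module.End.mul_eq_comp, Module.End.mul_eq_comp, LinearMap.toMatrix'_comp,
          LinearMap.toMatrix'_comp]
        exact hbr _ h _ h' }
  have hL : ∀ X ∈ 𝔥, Matrix.toLin' X ∈ L := by
    intro X hX
    change LinearMap.toMatrix' (Matrix.toLin' X) ∈ 𝔥
    rwa [LinearMap.toMatrix'_toLin']
  have hcomp : ComplementedLattice (LieSubmodule F L (Fin N → F)) := by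
    refine ⟨fun W => ?_⟩
    obtain ⟨W', hW', hc⟩ := hCR W.toSubmodule (by
      intro X hX x hx
      exact W.lie_mem (x := (⟨Matrix.toLin' X, hL X hX⟩ : L)) hx)
    refine ⟨{ toSubmodule := W'
              lie_mem := fun {φ x} hx => by
                have h1 : ⁅φ, x⁆ = (LinearMap.toMatrix' (φ : Module.End F (Fin N → F))).mulVec x := by
                  rw [← Matrix.toLin'_apply, Matrix.toLin'_toMatrix']
                  rfl
                change ⁅φ, x⁆ ∈ W'
                rw [h1]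
                exact hW' _ φ.2 x hx }, ?_⟩
    rw [← LieSubmodule.isCompl_toSubmodule]
    exact hc
  have hfaith : IsFaithful F L (Fin N → F) := by
    rw [isFaithful_iff]
    intro φ ψ h
    apply Subtype.ext
    exact h
  set zL : L := ⟨Matrix.toLin' z, hL z hz⟩ with hzL
  obtain ⟨Y, hXY⟩ := regular_generates F L (Fin N → F) zL (by
    intro h hh
    have h1 : (Matrix.toLin' z : Module.End F (Fin N → F)) * h.1 =
        h.1 * (Matrix.toLin' z : Module.End F (Fin N → F)) := by
      have h2 : (⁅zL, h⁆ : L).1 = 0 := congrArg Subtype.val hh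
      have h3 : (⁅zL, h⁆ : L).1 = (Matrix.toLin' z : Module.End F (Fin N → F)) * h.1 -
        h.1 * (Matrix.toLin' z : Module.End F (Fin N → F)) := rfl
      rw [h3, sub_eq_zero] at h2
      exact h2
    set h' := LinearMap.toMatrix' h.1 with hh'
    have hzh : Commute z h' := by
      have h2 := congrArg LinearMap.toMatrix' h1
      rw [Module.End.mul_eq_comp, Module.End.mul_eq_comp, LinearMap.toMatrix'_comp,
        LinearMap.toMatrix'_comp, LinearMap.toMatrix'_toLin'] at h2
      exact h2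
    have h4 : h' ∈ Algebra.adjoin F {z} := by
      refine double_centralizer hzs fun X hX => ?_
      exact (comm_of_max F 𝔥 hz hsq (minpoly.aeval F z) hmax h.2 hzh (hX z rfl)).symm
    have h5 : LinearMap.toMatrixAlgEquiv'.symm h' ∈
        (Algebra.adjoin F {z}).map
          (LinearMap.toMatrixAlgEquiv' (R := F) (n := Fin N)).symm.toAlgHom := ⟨_, h4, rfl⟩
    rw [AlgHom.map_adjoin, Set.image_singleton] at h5
    have h6 : (LinearMap.toMatrixAlgEquiv' (R := F) (n := Fin N)).symm h' = h.1 :=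
      (LinearMap.toMatrixAlgEquiv' (R := F) (n := Fin N)).symm_apply_apply h.1
    rw [h6] at h5
    exact h5) (by
    intro x hx
    apply Subtype.ext
    have h2 : (⁅zL, ⁅zL, x⁆⁆ : L).1 = 0 := congrArg Subtype.val hx
    have hsq' : Squarefree (minpoly F (Matrix.toLin' z : Module.End F (Fin N → F))) :=
      (isSemisimple_of_CR hzs).minpoly_squarefree
    exact ker_sq_of_semisimple (semisimple_adE F hsq' (minpoly.aeval F _)) h2)
  refine ⟨LinearMap.toMatrix' Y.1, Y.2, ?_⟩
  have hbrk : LinearMap.toMatrix' Y.1 * z - z * LinearMap.toMatrix' Y.1 =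
      LinearMap.toMatrix' (⁅Y, zL⁆ : L).1 := by
    have h0 : (⁅Y, zL⁆ : L).1 = Y.1 * (Matrix.toLin' z : Module.End F (Fin N → F)) -
      (Matrix.toLin' z : Module.End F (Fin N → F)) * Y.1 := rfl
    rw [h0, map_sub, Module.End.mul_eq_comp, Module.End.mul_eq_comp, LinearMap.toMatrix'_comp,
      LinearMap.toMatrix'_comp, LinearMap.toMatrix'_toLin']
  rw [hbrk]
  intro Z hZ
  have h1 := hXY ⟨Matrix.toLin' Z, hL Z hZ⟩
  have h2 : (Matrix.toLin' Z : Module.End F (Fin N → F)) ∈
      Algebra.adjoin F {(zL : Module.End F (Fin N → F)),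
        ((⁅Y, zL⁆ : L) : Module.End F (Fin N → F))} := h1
  have h3 : LinearMap.toMatrixAlgEquiv' (Matrix.toLin' Z : Module.End F (Fin N → F)) ∈
      (Algebra.adjoin F {(zL : Module.End F (Fin N → F)),
        ((⁅Y, zL⁆ : L) : Module.End F (Fin N → F))}).map
        (LinearMap.toMatrixAlgEquiv' (R := F) (n := Fin N)).toAlgHom := ⟨_, h2, rfl⟩
  rw [AlgHom.map_adjoin] at h3
  have h4 : LinearMap.toMatrixAlgEquiv' (Matrix.toLin' Z : Module.End F (Fin N → F)) = Z :=
    LinearMap.toMatrix'_toLin' Z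
  rw [h4] at h3
  have h5 : (LinearMap.toMatrixAlgEquiv' (R := F) (n := Fin N)).toAlgHom ''
      {(zL : Module.End F (Fin N → F)), ((⁅Y, zL⁆ : L) : Module.End F (Fin N → F))} =
      {z, LinearMap.toMatrix' (⁅Y, zL⁆ : L).1} := by
    rw [Set.image_pair]
    congr 1
    exact LinearMap.toMatrix'_toLin' z
  rw [h5] at h3
  exact h3

end Pairs

section Conj

theorem CR_of_adjoin {F : Type} [Field F] {M M' : Matrix (Fin N) (Fin N) F}
    (h : CR ({M} : Set (Matrix (Fin N) (Fin N) F))) (h1 : M ∈ Algebra.adjoin F {M'})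
    (h2 : M' ∈ Algebra.adjoin F {M}) : CR ({M'} : Set (Matrix (Fin N) (Fin N) F)) := by
  intro W hW
  obtain ⟨W', hW', hc⟩ := h W (by
    rintro _ rfl
    exact stable_adjoin hW _ h1)
  refine ⟨W', ?_, hc⟩
  rintro _ rfl
  exact stable_adjoin hW' _ h2

theorem CR_bc {K F : Type} [Field K] [CharZero K] [Field F] [Algebra K F]
    {M : Matrix (Fin N) (Fin N) K} (h : CR ({M} : Set (Matrix (Fin N) (Fin N) K))) :
    CR ({(bc M : Matrix (Fin N) (Fin N) F)} : Set (Matrix (Fin N) (Fin N) F)) := by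
  have hss := semisimple_of_nondeg _ (nondeg_bc (F := F) _ (nondeg_of_CR h))
  have h1 := CR_of_semisimple _ hss
  intro W hW
  obtain ⟨W', hW', hc⟩ := h1 W (by
    refine stable_adjoin ?_
    rintro _ ⟨x, hx, rfl⟩
    have h2 := bc_mem_adjoin (F := F) hx
    refine stable_adjoin ?_ _ h2
    rintro _ ⟨y, rfl, rfl⟩
    exact hW _ rfl)
  refine ⟨W', ?_, hc⟩
  rintro _ rfl
  exact hW' _ (Algebra.subset_adjoin ⟨M, Algebra.self_mem_adjoin_singleton _ _, rfl⟩)

variable {p : ℕ} [Fact p.Prime]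

/-- the generic minor of `ad` -/
noncomputable def genMad (K : Type) [CommRing K] {D : ℕ} (w e : Fin D → Fin N × Fin N) :
    MvPolynomial (Fin 2 × Fin N × Fin N) K :=
  mad w e (Matrix.of fun i j => MvPolynomial.X ((0 : Fin 2), i, j))

theorem aeval_genMad {K F : Type} [CommRing K] [CommRing F] [Algebra K F] {D : ℕ}
    (w e : Fin D → Fin N × Fin N) (A B : Matrix (Fin N) (Fin N) F) :
    MvPolynomial.aeval (coords A B) (genMad K w e) = mad w e A := by
  unfold genMad
  let φ : MvPolynomial (Fin 2 × Fin N × Fin N) K →ₐ[K] F := MvPolynomial.aeval (coords A B)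
  have h := mad_map (φ : MvPolynomial (Fin 2 × Fin N × Fin N) K →+* F) w e
    (Matrix.of fun i j => MvPolynomial.X ((0 : Fin 2), i, j))
  refine h.trans ?_
  congr 1
  ext i j
  simp [φ, coords]

/-- **A regular semisimple element and one of its conjugates generate.** -/
theorem two_elements_regular {G : Set (Matrix (Fin N) (Fin N) ℤ_[p])} (hG : Small G)
    (hCR : CR (toQ '' G)) {g : Matrix (Fin N) (Fin N) ℤ_[p]} (hg : g ∈ G)
    (hgs : CR ({toQ g} : Set (Matrix (Fin N) (Fin N) ℚ_[p])))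
    (hmax : ∀ h ∈ G, rk (toQ h) ≤ rk (toQ g)) :
    ∃ h ∈ G, ∃ h' ∈ G, h * h' = 1 ∧
      ∀ γ ∈ G, toQ γ ∈ Algebra.adjoin ℚ_[p] {toQ g, toQ (h * g * h')} := by
  classical
  let F := AlgebraicClosure ℚ_[p]
  have hchar : CharZero F := charZero_of_injective_algebraMap (algebraMap ℚ_[p] F).injective
  set 𝔤 := lieSpan G with h𝔤
  have hCR𝔤 := hG.CR_lieSpan hCR
  set A := Algebra.adjoin ℚ_[p] (𝔤 : Set (Matrix (Fin N) (Fin N) ℚ_[p])) with hA
  have hss := semisimple_of_nondeg _ (nondeg_bc (F := F) A (nondeg_of_CR hCR𝔤))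
  have hCRF := CR_of_semisimple _ hss
  -- the Lie algebra over the algebraic closure
  set S : Set (Matrix (Fin N) (Fin N) F) := img F (toQ '' LogSet G) with hS
  set 𝔥 := Submodule.span F S with h𝔥
  have hS𝔤 : S ⊆ img F (𝔤 : Set (Matrix (Fin N) (Fin N) ℚ_[p])) := by
    rintro _ ⟨X, hX, rfl⟩
    exact ⟨X, Submodule.subset_span hX, rfl⟩
  have h𝔤𝔥 : ∀ X ∈ 𝔤, (bc X : Matrix (Fin N) (Fin N) F) ∈ 𝔥 := by
    intro X hX
    induction hX using Submodule.span_induction with
    | mem X hX => exact Submodule.subset_span ⟨X, hX, rfl⟩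
    | zero => rw [map_zero]; exact 𝔥.zero_mem
    | add X Y _ _ hX hY => rw [map_add]; exact 𝔥.add_mem hX hY
    | smul c X _ hX => rw [bc_smul]; exact 𝔥.smul_mem _ hX
  have hbr : ∀ X ∈ 𝔥, ∀ Y ∈ 𝔥, X * Y - Y * X ∈ 𝔥 := by
    intro X hX Y hY
    induction hX using Submodule.span_induction with
    | mem X hX =>
      induction hY using Submodule.span_induction with
      | mem Y hY =>
        obtain ⟨_, ⟨X', hX', rfl⟩, rfl⟩ := hX
        obtain ⟨_, ⟨Y', hY', rfl⟩, rfl⟩ := hY
        have h7 := h𝔤𝔥 _ (hG.bracket_log hX' hY')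
        rw [map_sub, map_mul (bc (K := ℚ_[p]) (F := F)), map_mul (bc (K := ℚ_[p]) (F := F))] at h7
        exact h7
      | zero => simp
      | add Y Y' _ _ h h' =>
        have : X * (Y + Y') - (Y + Y') * X = (X * Y - Y * X) + (X * Y' - Y' * X) := by
          rw [mul_add, add_mul]; abel
        rw [this]
        exact 𝔥.add_mem h h'
      | smul c Y _ h =>
        have : X * (c • Y) - (c • Y) * X = c • (X * Y - Y * X) := by
          rw [mul_smul_comm, smul_mul_assoc, smul_sub]
        rw [this]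
        exact 𝔥.smul_mem _ h
    | zero => simp
    | add X X' _ _ h h' =>
      have : (X + X') * Y - Y * (X + X') = (X * Y - Y * X) + (X' * Y - Y * X') := by
        rw [mul_add, add_mul]; abel
      rw [this]
      exact 𝔥.add_mem h h'
    | smul c X _ h =>
      have : (c • X) * Y - Y * (c • X) = c • (X * Y - Y * X) := by
        rw [mul_smul_comm, smul_mul_assoc, smul_sub]
      rw [this]
      exact 𝔥.smul_mem _ h
  have hAimg : img F (A : Set (Matrix (Fin N) (Fin N) ℚ_[p])) ⊆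
      (Algebra.adjoin F (img F (𝔤 : Set (Matrix (Fin N) (Fin N) ℚ_[p]))) : Set _) := by
    rintro _ ⟨x, hx, rfl⟩
    exact bc_mem_adjoin hx
  have h𝔤img : (img F (𝔤 : Set (Matrix (Fin N) (Fin N) ℚ_[p]))) ⊆ (𝔥 : Set _) := by
    rintro _ ⟨x, hx, rfl⟩
    exact h𝔤𝔥 x hx
  have hCR𝔥 : CR (𝔥 : Set (Matrix (Fin N) (Fin N) F)) := by
    intro W hW
    obtain ⟨W', hW', hc⟩ := hCRF W (by
      refine stable_adjoin ?_
      intro X hX
      exact stable_adjoin (fun Y hY => hW Y (h𝔤img hY)) X (hAimg hX))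
    refine ⟨W', ?_, hc⟩
    refine stable_span ?_
    intro X hX
    obtain ⟨Y, hY, rfl⟩ := hS𝔤 hX
    exact hW' _ (Algebra.subset_adjoin ⟨Y, Algebra.subset_adjoin hY, rfl⟩)
  -- the logarithm of `g`
  obtain ⟨Xl, hgl, hXg, hgX⟩ := hG.exists_log hg
  have hXlmem : Xl ∈ LogSet G := ⟨g, hg, hgl⟩
  set z : Matrix (Fin N) (Fin N) F := bc (toQ Xl) with hz
  have hz𝔥 : z ∈ 𝔥 := Submodule.subset_span ⟨toQ Xl, ⟨Xl, hXlmem, rfl⟩, rfl⟩
  have hzs : CR ({z} : Set (Matrix (Fin N) (Fin N) F)) := CR_bc (CR_of_adjoin hgs hgX hXg)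
  have hzmax : ∀ z' ∈ 𝔥, rk z' ≤ rk z := by
    intro z' hz'
    rw [hz, rk_bc]
    by_contra hlt
    push Not at hlt
    obtain ⟨w, e, hwe⟩ := exists_mad z' (rk (toQ Xl) + 1) hlt
    apply hwe
    have h1 := vanish_span hG.approx hG.zero_mem_pairSet (genMad ℚ_[p] w e) (by
      rintro _ ⟨Xl', ⟨g', hg', hgl'⟩, Yl, hYl, rfl⟩
      have h2 := aeval_genMad (K := ℚ_[p]) w e (toQ Xl') (toQ Yl)
      refine h2.trans ?_
      by_contra h3
      have h4 := le_rk (toQ Xl') w e h3
      have h5 := rk_le_of_adjoin (hG.log_adjoin hg' hgl').1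
      have h6 := hmax g' hg'
      have h7 := rk_le_of_adjoin hgX
      omega) (coords z' z') (coords_mem_span hG hz' hz')
    exact (aeval_genMad (K := ℚ_[p]) w e z' z').symm.trans h1
  obtain ⟨W, hW, hXY⟩ := lie_pair_of_regular 𝔥 hbr hCR𝔥 hz𝔥 hzs hzmax
  set Y := W * z - z * W with hYdef
  -- dimensions
  set D := Module.finrank ℚ_[p] A with hD
  have hDle : D ≤ Module.finrank F (Submodule.span F (Set.range (wd z Y))) := by
    rw [← adjoin_pair_eq_span]
    set b := Module.finBasis ℚ_[p] A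
    have h1 : LinearIndependent ℚ_[p] fun i => (b i : Matrix (Fin N) (Fin N) ℚ_[p]) :=
      b.linearIndependent.map' A.val.toLinearMap (LinearMap.ker_eq_bot.2 Subtype.val_injective)
    have h2 := bc_linearIndependent (F := F) _ h1
    have h3 : ∀ i, (bc (b i : Matrix (Fin N) (Fin N) ℚ_[p]) : Matrix (Fin N) (Fin N) F) ∈
        Algebra.adjoin F {z, Y} := by
      intro i
      have h4 := bc_mem_adjoin (F := F) (b i).2
      have h5 : Algebra.adjoin F (img F (𝔤 : Set (Matrix (Fin N) (Fin N) ℚ_[p]))) ≤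
          Algebra.adjoin F {z, Y} := by
        apply Algebra.adjoin_le
        intro Z hZ
        exact hXY Z (h𝔤img hZ)
      exact h5 h4
    have h6 : LinearIndependent F fun i =>
        (⟨bc (b i : Matrix (Fin N) (Fin N) ℚ_[p]), h3 i⟩ :
          Subalgebra.toSubmodule (Algebra.adjoin F {z, Y})) :=
      LinearIndependent.of_comp (Submodule.subtype _) h2
    have := h6.fintype_card_le_finrank
    simpa using this
  obtain ⟨w, e, hwe⟩ := exists_minor z Y D hDle
  -- descend to logarithms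
  set brk : Fin 2 × Fin N × Fin N → MvPolynomial (Fin 2 × Fin N × Fin N) ℚ_[p] := fun q =>
    if q.1 = 0 then MvPolynomial.C (toQ Xl q.2.1 q.2.2) else
      (∑ k, MvPolynomial.X (1, q.2.1, k) * MvPolynomial.C (toQ Xl k q.2.2)) -
        ∑ k, MvPolynomial.C (toQ Xl q.2.1 k) * MvPolynomial.X (1, k, q.2.2) with hbrk
  have hcomp : ∀ (R : Type) [Field R] [Algebra ℚ_[p] R] (X W : Matrix (Fin N) (Fin N) R),
      MvPolynomial.aeval (coords X W) (MvPolynomial.aeval brk (genMinor ℚ_[p] w e)) =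
        minor w e (bc (toQ Xl)) (W * bc (toQ Xl) - bc (toQ Xl) * W) := by
    intro R _ _ X W
    rw [← aeval_genMinor (K := ℚ_[p]) w e (bc (toQ Xl)) (W * bc (toQ Xl) - bc (toQ Xl) * W)]
    rw [← AlgHom.comp_apply, MvPolynomial.comp_aeval]
    congr 2
    funext q
    rw [hbrk]
    by_cases hq : q.1 = 0
    · simp only [hq, if_true, MvPolynomial.aeval_C, bc_apply]
    · simp only [hq, if_false, map_sub, map_sum, map_mul, MvPolynomial.aeval_X, coords,
        MvPolynomial.aeval_C, Matrix.sub_apply, Matrix.mul_apply, bc_apply]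
      simp
  have hbcid : (bc (toQ Xl) : Matrix (Fin N) (Fin N) ℚ_[p]) = toQ Xl := by
    ext i j
    rw [bc_apply]
    rfl
  obtain ⟨Wl, hWl, hminor0⟩ : ∃ Wl ∈ LogSet G,
      minor w e (toQ Xl) (toQ Wl * toQ Xl - toQ Xl * toQ Wl) ≠ 0 := by
    by_contra hc
    push Not at hc
    apply hwe
    have h1 := vanish_span hG.approx hG.zero_mem_pairSet
      (MvPolynomial.aeval brk (genMinor ℚ_[p] w e)) (by
      rintro _ ⟨Xl', hXl', Yl, hYl, rfl⟩
      have h2 := hcomp ℚ_[p] (toQ Xl') (toQ Yl)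
      rw [hbcid, hc Yl hYl] at h2
      exact h2) (coords z W) (coords_mem_span hG hz𝔥 hW)
    exact (hcomp F z W).symm.trans h1
  obtain ⟨h, hh, hhl⟩ := hWl
  obtain ⟨h', hh', hhh'⟩ := hG.inv h hh
  obtain ⟨y, b, hy, hb, hlim⟩ := hhl.tendsto_bracket (h := g) (Y := Xl) ⟨h', hhh'⟩
  have hp0 : (p : ℚ_[p]) ≠ 0 := by exact_mod_cast (Fact.out : p.Prime).ne_zero
  obtain ⟨n, hn⟩ : ∃ n, minor w e (toQ Xl) (toQ (b n)) ≠ 0 := by
    have hc1 : Continuous fun Z : Matrix (Fin N) (Fin N) ℤ_[p] => minor w e (toQ Xl) (toQ Z) :=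
      continuous_minor' _ _ continuous_const continuous_toQ w e
    have h1 : minor w e (toQ Xl) (toQ (Wl * Xl - Xl * Wl)) ≠ 0 := by
      rw [map_sub, map_mul, map_mul]
      exact hminor0
    have h2 := (hc1.tendsto _).comp hlim
    have h3 := h2.eventually_ne h1
    exact h3.exists
  obtain ⟨k, hk, hyn⟩ := hy n
  have hkG : k ∈ G := by
    obtain ⟨k', hk', hkk'⟩ := hG.inv _ (hG.pow hh (p ^ n))
    have hkeq : k = k' := by
      have h3 : k * h ^ p ^ n = 1 := mul_eq_one_comm.1 hk
      calc k = k * (h ^ p ^ n * k') := by rw [hkk', mul_one]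
        _ = k' := by rw [← mul_assoc, h3, one_mul]
    rw [hkeq]
    exact hk'
  set h₁ := h ^ p ^ n with hh₁
  have hh₁G : h₁ ∈ G := hG.pow hh _
  have hgk : h₁ * g * k ∈ G := hG.mul _ (hG.mul _ hh₁G _ hg) _ hkG
  have hYlog : IsLog (h₁ * g * k) (y n) := by
    rw [hyn]
    exact hgl.conj hk
  have hbq : toQ (b n) = ((p : ℚ_[p]) ^ n)⁻¹ • (toQ (y n) - toQ Xl) := by
    rw [← map_sub, hb n, toQ_smul, smul_smul]
    have : algebraMap ℤ_[p] ℚ_[p] ((p : ℤ_[p]) ^ n) = (p : ℚ_[p]) ^ n := by simp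
    rw [this, inv_mul_cancel₀ (pow_ne_zero _ hp0), one_smul]
  have hXA : toQ Xl ∈ A := Algebra.subset_adjoin (Submodule.subset_span ⟨Xl, ⟨g, hg, hgl⟩, rfl⟩)
  have hYA : toQ (y n) ∈ A :=
    Algebra.subset_adjoin (Submodule.subset_span ⟨y n, ⟨_, hgk, hYlog⟩, rfl⟩)
  have hle : Algebra.adjoin ℚ_[p] {toQ Xl, toQ (b n)} ≤ A := by
    apply Algebra.adjoin_le
    intro Z hZ
    rcases hZ with rfl | hZ
    · exact hXA
    · rw [Set.mem_singleton_iff] at hZ
      rw [hZ, hbq]
      exact Subalgebra.smul_mem _ (Subalgebra.sub_mem _ hYA hXA) _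
  have hfr := le_finrank_of_minor _ _ w e hn
  have heq : Subalgebra.toSubmodule (Algebra.adjoin ℚ_[p] {toQ Xl, toQ (b n)}) =
      Subalgebra.toSubmodule A := by
    apply Submodule.eq_of_le_of_finrank_le hle
    exact hfr
  refine ⟨h₁, hh₁G, k, hkG, hk, ?_⟩
  have hX2 : toQ Xl ∈ Algebra.adjoin ℚ_[p] {toQ g, toQ (h₁ * g * k)} :=
    Algebra.adjoin_mono (by simp) (hG.log_adjoin hg hgl).1
  have hY2 : toQ (y n) ∈ Algebra.adjoin ℚ_[p] {toQ g, toQ (h₁ * g * k)} :=
    Algebra.adjoin_mono (by simp) (hG.log_adjoin hgk hYlog).1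
  have hA2 : A ≤ Algebra.adjoin ℚ_[p] {toQ g, toQ (h₁ * g * k)} := by
    intro Z hZ
    have h1 : Z ∈ Algebra.adjoin ℚ_[p] {toQ Xl, toQ (b n)} := by
      rw [← Subalgebra.mem_toSubmodule, heq]
      exact hZ
    have h2 : Algebra.adjoin ℚ_[p] {toQ Xl, toQ (b n)} ≤
        Algebra.adjoin ℚ_[p] {toQ g, toQ (h₁ * g * k)} := by
      apply Algebra.adjoin_le
      intro Z hZ
      rcases hZ with rfl | hZ
      · exact hX2
      · rw [Set.mem_singleton_iff] at hZ
        rw [hZ, hbq]
        exact Subalgebra.smul_mem _ (Subalgebra.sub_mem _ hY2 hX2) _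
    exact h2 h1
  intro γ hγ
  apply hA2
  obtain ⟨Z, hZ, -, h2⟩ := hG.exists_log hγ
  have h3 : Algebra.adjoin ℚ_[p] {toQ Z} ≤ A := by
    apply Algebra.adjoin_le
    intro W hW
    rw [Set.mem_singleton_iff] at hW
    rw [hW]
    exact Algebra.subset_adjoin (Submodule.subset_span ⟨Z, ⟨γ, hγ, hZ⟩, rfl⟩)
  exact h3 h2

end Conj

end Pool.Agent.H850.TF
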