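import Pool.Agent.H850.RG.ChebNull

/-!
# Countably many sets of primes of density zero
-/

set_option autoImplicit false

namespace Pool.Agent.H850.RG

open NumberField Filter Topology IsDedekindDomain
open Pool.Agent.W401.Cheb Pool.Agent.W352.ChAbs

variable {K : Type} [Field K] [NumberField K]

/-- the set of all primes has density one -/
theorem dens_all : Tendsto (dens fun _ : HeightOneSpectrum (𝓞 K) => True) atTop (𝓝 1) := by
  have h1 := chebK K (⊤ : Subgroup (GK K)) (by
    rw [Subgroup.coe_top]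
    exact isOpen_univ) Set.univ (fun _ _ _ => trivial) (fun _ _ _ _ => trivial)
  have h2 : (fun v : HeightOneSpectrum (𝓞 K) => ∃ σ ∈ (Set.univ : Set (GK K)), IsFrob v σ) =
      fun _ => True := by
    funext v
    apply propext
    refine ⟨fun _ => trivial, fun _ => ?_⟩
    obtain ⟨σ, hσ⟩ := exists_isFrob v
    exact ⟨σ, trivial, hσ⟩
  rw [h2] at h1
  have h3 : Subsingleton (GK K ⧸ (⊤ : Subgroup (GK K))) :=
    QuotientGroup.subsingleton_quotient_top
  have h4 : Nat.card (GK K ⧸ (⊤ : Subgroup (GK K))) = 1 :=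
    Nat.card_eq_one_iff_unique.2 ⟨h3, ⟨QuotientGroup.mk 1⟩⟩
  have h5 : ((QuotientGroup.mk : GK K → GK K ⧸ (⊤ : Subgroup (GK K))) '' Set.univ).ncard = 1 := by
    rw [Set.ncard_eq_one]
    refine ⟨QuotientGroup.mk 1, ?_⟩
    ext x
    simp only [Set.image_univ, Set.mem_range, Set.mem_singleton_iff]
    exact ⟨fun _ => Subsingleton.elim _ _, fun h => ⟨1, h.symm⟩⟩
  rw [h4, h5] at h1
  simpa using h1

theorem dens_add_not (P : HeightOneSpectrum (𝓞 K) → Prop) (N : ℕ) :
    dens P N + dens (fun v => ¬ P v) N = dens (fun _ : HeightOneSpectrum (𝓞 K) => True) N := by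
  classical
  unfold dens
  rw [← add_div]
  congr 1
  have hfin : Finite {v : HeightOneSpectrum (𝓞 K) // Ideal.absNorm v.asIdeal ≤ N ∧ True} :=
    ((finite_le (K := K) N).subset fun v hv => hv.1).to_subtype
  have h1 : Finite {v : HeightOneSpectrum (𝓞 K) // Ideal.absNorm v.asIdeal ≤ N ∧ P v} :=
    ((finite_le (K := K) N).subset fun v hv => hv.1).to_subtype
  have h2 : Finite {v : HeightOneSpectrum (𝓞 K) // Ideal.absNorm v.asIdeal ≤ N ∧ ¬ P v} :=
    ((finite_le (K := K) N).subset fun v hv => hv.1).to_subtype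
  have h3 : Nat.card {v : HeightOneSpectrum (𝓞 K) // Ideal.absNorm v.asIdeal ≤ N ∧ P v} +
      Nat.card {v : HeightOneSpectrum (𝓞 K) // Ideal.absNorm v.asIdeal ≤ N ∧ ¬ P v} =
      Nat.card {v : HeightOneSpectrum (𝓞 K) // Ideal.absNorm v.asIdeal ≤ N ∧ True} := by
    rw [← Nat.card_sum]
    refine Nat.card_congr
      { toFun := fun x => Sum.elim (fun v => ⟨v.1, v.2.1, trivial⟩)
          (fun v => ⟨v.1, v.2.1, trivial⟩) x
        invFun := fun v => if h : P v.1 then Sum.inl ⟨v.1, v.2.1, h⟩ else Sum.inr ⟨v.1, v.2.1, h⟩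
        left_inv := ?_
        right_inv := ?_ }
    · rintro (⟨v, hv⟩ | ⟨v, hv⟩)
      · simp [hv.2]
      · simp [hv.2]
    · rintro ⟨v, hv⟩
      by_cases h : P v <;> simp [h]
  exact_mod_cast h3

/-- the complement of a set of density zero has density one -/
theorem dens_compl {P : HeightOneSpectrum (𝓞 K) → Prop} (h : Tendsto (dens P) atTop (𝓝 0)) :
    Tendsto (dens fun v => ¬ P v) atTop (𝓝 1) := by
  have h1 : (dens fun v => ¬ P v) = fun N =>
      dens (fun _ : HeightOneSpectrum (𝓞 K) => True) N - dens P N := by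
    funext N
    rw [← dens_add_not P N]
    ring
  rw [h1]
  have h2 := (dens_all (K := K)).sub h
  rwa [sub_zero] at h2

theorem dens_or (P Q : HeightOneSpectrum (𝓞 K) → Prop) (N : ℕ) :
    dens (fun v => P v ∨ Q v) N ≤ dens P N + dens Q N := by
  classical
  unfold dens
  rw [← add_div]
  have h1 : Finite {v : HeightOneSpectrum (𝓞 K) // Ideal.absNorm v.asIdeal ≤ N ∧ P v} :=
    ((finite_le (K := K) N).subset fun v hv => hv.1).to_subtype
  have h2 : Finite {v : HeightOneSpectrum (𝓞 K) // Ideal.absNorm v.asIdeal ≤ N ∧ Q v} :=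
    ((finite_le (K := K) N).subset fun v hv => hv.1).to_subtype
  have h3 : Nat.card {v : HeightOneSpectrum (𝓞 K) // Ideal.absNorm v.asIdeal ≤ N ∧ (P v ∨ Q v)} ≤
      Nat.card {v : HeightOneSpectrum (𝓞 K) // Ideal.absNorm v.asIdeal ≤ N ∧ P v} +
      Nat.card {v : HeightOneSpectrum (𝓞 K) // Ideal.absNorm v.asIdeal ≤ N ∧ Q v} := by
    rw [← Nat.card_sum]
    refine Nat.card_le_card_of_injective (fun v => if h : P v.1 then Sum.inl ⟨v.1, v.2.1, h⟩
      else Sum.inr ⟨v.1, v.2.1, v.2.2.resolve_left h⟩) ?_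
    rintro ⟨a, ha⟩ ⟨b, hb⟩ hab
    by_cases h : P a <;> by_cases h' : P b <;> simp [h, h'] at hab <;> exact Subtype.ext hab
  have h4 : (Nat.card {v : HeightOneSpectrum (𝓞 K) //
      Ideal.absNorm v.asIdeal ≤ N ∧ (P v ∨ Q v)} : ℝ) ≤
      (Nat.card {v : HeightOneSpectrum (𝓞 K) // Ideal.absNorm v.asIdeal ≤ N ∧ P v} : ℝ) +
      Nat.card {v : HeightOneSpectrum (𝓞 K) // Ideal.absNorm v.asIdeal ≤ N ∧ Q v} := by
    exact_mod_cast h3
  gcongr

/-- **Pseudo-union.** For countably many sets of primes of density zero there is one set of density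
zero which contains each of them up to finitely many primes. -/
theorem exists_pseudo (Q : ℕ → HeightOneSpectrum (𝓞 K) → Prop)
    (hQ : ∀ n, Tendsto (dens (Q n)) atTop (𝓝 0)) :
    ∃ B : HeightOneSpectrum (𝓞 K) → Prop, Tendsto (dens B) atTop (𝓝 0) ∧
      ∀ n, {v | Q n v ∧ ¬ B v}.Finite := by
  classical
  -- increasing unions
  let Q' : ℕ → HeightOneSpectrum (𝓞 K) → Prop := fun n v => ∃ m ≤ n, Q m v
  have hQ' : ∀ n, Tendsto (dens (Q' n)) atTop (𝓝 0) := by
    intro n
    induction n with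
    | zero =>
      have h1 : Q' 0 = Q 0 := by
        funext v
        apply propext
        constructor
        · rintro ⟨m, hm, h⟩
          obtain rfl : m = 0 := by omega
          exact h
        · intro h
          exact ⟨0, le_rfl, h⟩
      rw [h1]
      exact hQ 0
    | succ n ih =>
      have h1 : Q' (n + 1) = fun v => Q' n v ∨ Q (n + 1) v := by
        funext v
        apply propext
        constructor
        · rintro ⟨m, hm, h⟩
          by_cases hmn : m ≤ n
          · exact Or.inl ⟨m, hmn, h⟩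
          · obtain rfl : m = n + 1 := by omega
            exact Or.inr h
        · rintro (⟨m, hm, h⟩ | h)
          · exact ⟨m, by omega, h⟩
          · exact ⟨n + 1, le_rfl, h⟩
      rw [h1]
      have h2 := ih.add (hQ (n + 1))
      rw [add_zero] at h2
      exact squeeze_zero (fun N => dens_nonneg _ N) (fun N => dens_or _ _ N) h2
  have hth : ∀ n, ∃ N₀, ∀ N, N₀ ≤ N → dens (Q' n) N < 1 / ((n : ℝ) + 1) := by
    intro n
    have h1 := (tendsto_order.1 (hQ' n)).2 (1 / ((n : ℝ) + 1)) (by positivity)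
    exact eventually_atTop.1 h1
  choose N₀ hN₀ using hth
  let T : ℕ → ℕ := fun n => (∑ k ∈ Finset.range (n + 1), N₀ k) + n
  have hTN : ∀ n, N₀ n ≤ T n := by
    intro n
    have h1 : N₀ n ≤ ∑ k ∈ Finset.range (n + 1), N₀ k :=
      Finset.single_le_sum (f := N₀) (fun _ _ => Nat.zero_le _) (Finset.self_mem_range_succ n)
    exact h1.trans (Nat.le_add_right _ _)
  have hTmono : ∀ m n, m ≤ n → T m ≤ T n := by
    intro m n hmn
    have h1 : ∑ k ∈ Finset.range (m + 1), N₀ k ≤ ∑ k ∈ Finset.range (n + 1), N₀ k :=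
      Finset.sum_le_sum_of_subset (Finset.range_mono (by omega))
    exact Nat.add_le_add h1 hmn
  have hTge : ∀ n, n ≤ T n := fun n => Nat.le_add_left _ _
  refine ⟨fun v => ∃ n, Q' n v ∧ T n < Ideal.absNorm v.asIdeal, ?_, ?_⟩
  · rw [Metric.tendsto_atTop]
    intro ε hε
    obtain ⟨n₀, hn₀⟩ := exists_nat_one_div_lt hε
    refine ⟨T n₀, fun N hN => ?_⟩
    rw [Real.dist_eq, sub_zero, abs_of_nonneg (dens_nonneg _ N)]
    -- the largest threshold below `N`
    set n := Nat.findGreatest (fun n => T n ≤ N) N with hn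
    have hnT : T n ≤ N := Nat.findGreatest_spec (P := fun n => T n ≤ N)
      ((hTge n₀).trans hN) hN
    have hn0n : n₀ ≤ n := Nat.le_findGreatest ((hTge n₀).trans hN) hN
    have hmax : ∀ m, T m ≤ N → m ≤ n := fun m hm =>
      Nat.le_findGreatest ((hTge m).trans hm) hm
    have h2 : dens (fun v => ∃ n, Q' n v ∧ T n < Ideal.absNorm v.asIdeal) N ≤
        dens (Q' n) N := by
      unfold dens
      have hfin : Finite {v : HeightOneSpectrum (𝓞 K) //
          Ideal.absNorm v.asIdeal ≤ N ∧ Q' n v} :=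
        ((finite_le (K := K) N).subset fun v hv => hv.1).to_subtype
      have h3 : Nat.card {v : HeightOneSpectrum (𝓞 K) // Ideal.absNorm v.asIdeal ≤ N ∧
          ∃ n, Q' n v ∧ T n < Ideal.absNorm v.asIdeal} ≤
          Nat.card {v : HeightOneSpectrum (𝓞 K) // Ideal.absNorm v.asIdeal ≤ N ∧ Q' n v} := by
        refine Nat.card_le_card_of_injective (fun v => ⟨v.1, v.2.1, ?_⟩) ?_
        · obtain ⟨m, ⟨j, hj, hjv⟩, hm⟩ := v.2.2
          exact ⟨j, hj.trans (hmax m (hm.le.trans v.2.1)), hjv⟩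
        · intro a b hab
          exact Subtype.ext (congrArg (fun x => x.1) hab)
      have h4 : (Nat.card {v : HeightOneSpectrum (𝓞 K) // Ideal.absNorm v.asIdeal ≤ N ∧
          ∃ n, Q' n v ∧ T n < Ideal.absNorm v.asIdeal} : ℝ) ≤
          Nat.card {v : HeightOneSpectrum (𝓞 K) // Ideal.absNorm v.asIdeal ≤ N ∧ Q' n v} := by
        exact_mod_cast h3
      gcongr
    have h5 : dens (Q' n) N < 1 / ((n : ℝ) + 1) := hN₀ n N ((hTN n).trans hnT)
    have h6 : 1 / ((n : ℝ) + 1) ≤ 1 / ((n₀ : ℝ) + 1) := by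
      have : (n₀ : ℝ) ≤ n := by exact_mod_cast hn0n
      gcongr
    linarith
  · intro n
    refine (finite_le (K := K) (T n)).subset ?_
    rintro v ⟨hv, hB⟩
    by_contra hlt
    have h7 : ¬ Ideal.absNorm v.asIdeal ≤ T n := hlt
    exact hB ⟨n, ⟨n, le_rfl, hv⟩, by omega⟩

end Pool.Agent.H850.RG
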