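import Pool.Agent.H850.OL.Reg4
import Pool.Agent.H850.OL.Dens
import Pool.Graph.R_pool_sql_team_seeded_64922ed1.X320.FS.Final

/-!
# Regular semisimple Frobenius elements for all primes at once
-/

set_option autoImplicit false
set_option linter.unusedSectionVars false

namespace Pool.Agent.H850.RG

open Pool.Agent.H850.TF MeasureTheory Topology Filter NumberField IsDedekindDomain Polynomial
open Pool.Agent.W401.Cheb (GK IsFrob IsInert dens)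

section Rank

variable {N : ℕ} {p : ℕ} [Fact p.Prime] {Γ : Type} [Group Γ]

theorem PM.sub {ρ : Γ →* GL (Fin N) ℤ_[p]} {M M' : Γ → Matrix (Fin N) (Fin N) ℚ_[p]}
    (h : PM ρ M) (h' : PM ρ M') : PM ρ (fun σ => M σ - M' σ) :=
  fun i j => (Pol ρ).sub_mem (h i j) (h' i j)

theorem PM.mad {ρ : Γ →* GL (Fin N) ℤ_[p]} {M : Γ → Matrix (Fin N) (Fin N) ℚ_[p]}
    (h : PM ρ M) {D : ℕ} (w e : Fin D → Fin N × Fin N) : (fun σ => mad w e (M σ)) ∈ Pol ρ :=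
  det_mem (fun σ => Matrix.of fun i j => ent (M σ * mun (w i) - mun (w i) * M σ) (e j))
    fun i _ => ((h.mul (PM.const ρ (mun (w i)))).sub ((PM.const ρ (mun (w i))).mul h)) _ _

theorem rk_inv (ρ : Γ →* GL (Fin N) ℤ_[p]) (σ : Γ) : rk (TF.rat ρ σ⁻¹) = rk (TF.rat ρ σ) := by
  have key : ∀ σ : Γ, rk (TF.rat ρ σ) ≤ rk (TF.rat ρ σ⁻¹) := by
    intro σ
    refine rk_le_of_comm _ _ fun X hX => ?_
    have h1 : TF.rat ρ σ * TF.rat ρ σ⁻¹ = 1 := by rw [← map_mul, mul_inv_cancel, map_one]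
    have h2 : TF.rat ρ σ⁻¹ * TF.rat ρ σ = 1 := by rw [← map_mul, inv_mul_cancel, map_one]
    change TF.rat ρ σ * X = X * TF.rat ρ σ
    calc TF.rat ρ σ * X = TF.rat ρ σ * X * (TF.rat ρ σ⁻¹ * TF.rat ρ σ) := by rw [h2, mul_one]
      _ = TF.rat ρ σ * (X * TF.rat ρ σ⁻¹) * TF.rat ρ σ := by simp only [mul_assoc]
      _ = TF.rat ρ σ * (TF.rat ρ σ⁻¹ * X) * TF.rat ρ σ := by rw [hX.eq]
      _ = (TF.rat ρ σ * TF.rat ρ σ⁻¹) * X * TF.rat ρ σ := by simp only [mul_assoc]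
      _ = X * TF.rat ρ σ := by rw [h1, one_mul]
  apply le_antisymm
  · have h1 := key σ⁻¹
    rwa [inv_inv] at h1
  · exact key σ

variable [TopologicalSpace Γ] [IsTopologicalGroup Γ] [CompactSpace Γ] [MeasurableSpace Γ]
  [BorelSpace Γ]

/-- outside a closed null set, the rank of `ad` of all powers is maximal -/
theorem ConnOn.rk_ae (μ : Measure Γ) [μ.IsHaarMeasure] {ρ : Γ →* GL (Fin N) ℤ_[p]}
    (hρ : Continuous fun σ => (ρ σ : Matrix (Fin N) (Fin N) ℤ_[p])) {U : Subgroup Γ}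
    (hU : IsOpen (U : Set Γ)) (h : ConnOn ρ U) :
    ∃ (R : ℕ) (B : Set Γ), IsClosed B ∧ μ B = 0 ∧ (∀ g ∈ U, rk (TF.rat ρ g) ≤ R) ∧
      ∀ σ ∈ U, σ ∉ B → ∀ m : ℕ, m ≠ 0 → rk (TF.rat ρ (σ ^ m)) = R := by
  classical
  have hfin1 : Finite (Γ ⧸ U1 ρ) := Subgroup.quotient_finite_of_isOpen _ (isOpen_U1 ρ hρ)
  have hfi1 : (U1 ρ).FiniteIndex := Subgroup.finiteIndex_of_finite_quotient
  set m₁ := (U1 ρ).index with hm
  have hm0 : m₁ ≠ 0 := hfi1.index_ne_zero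
  have hpow : ∀ σ : Γ, σ ^ m₁ ∈ U1 ρ := fun σ => Subgroup.pow_index_mem (U1 ρ) σ
  -- the maximal rank
  have hbdd : ∀ g : Γ, rk (TF.rat ρ g) ≤ Module.finrank ℚ_[p] (Matrix (Fin N) (Fin N) ℚ_[p]) :=
    fun g => Submodule.finrank_le _
  obtain ⟨g₀, hg₀, hmax⟩ : ∃ g₀ ∈ U, ∀ g ∈ U, rk (TF.rat ρ g) ≤ rk (TF.rat ρ g₀) := by
    have hne : ∃ R, ∃ g ∈ U, rk (TF.rat ρ g) = R := ⟨_, 1, U.one_mem, rfl⟩
    have hb : ∀ R, (∃ g ∈ U, rk (TF.rat ρ g) = R) →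
        R ≤ Module.finrank ℚ_[p] (Matrix (Fin N) (Fin N) ℚ_[p]) := by
      rintro R ⟨g, -, rfl⟩
      exact hbdd g
    obtain ⟨g₀, hg₀, hR⟩ := Nat.findGreatest_spec
      (P := fun R => ∃ g ∈ U, rk (TF.rat ρ g) = R) (hb _ hne.choose_spec) hne.choose_spec
    refine ⟨g₀, hg₀, fun g hg => ?_⟩
    rw [hR]
    exact Nat.le_findGreatest (hbdd g) ⟨g, hg, rfl⟩
  set R := rk (TF.rat ρ g₀) with hR
  obtain ⟨w, e, hwe⟩ := exists_mad (TF.rat ρ g₀) R le_rfl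
  -- a small element of maximal rank
  obtain ⟨v, hv, hvne⟩ : ∃ v ∈ U1 ρ ⊓ U, mad w e (TF.rat ρ v) ≠ 0 := by
    by_contra hc
    push Not at hc
    exact hwe (h _ ((PM.rat ρ).mad w e) (U1 ρ ⊓ U) (by
      rw [Subgroup.coe_inf]
      exact (isOpen_U1 ρ hρ).inter hU) hc g₀ hg₀)
  have h1 : R ≤ rk (TF.rat ρ (v ^ m₁)) :=
    (le_rk _ w e hvne).trans (rk_le_of_adjoin (mem_adjoin_pow ρ hv.1 hm0))
  obtain ⟨w', e', hwe'⟩ := exists_mad (TF.rat ρ (v ^ m₁)) R h1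
  have hf : (fun σ => mad w' e' (TF.rat ρ (σ ^ m₁))) ∈ Pol ρ := (PM.rat_pow ρ m₁).mad w' e'
  refine ⟨R, (U : Set Γ) ∩ {σ | mad w' e' (TF.rat ρ (σ ^ m₁)) = 0}, ?_, ?_, hmax, ?_⟩
  · exact (Subgroup.isClosed_of_isOpen U hU).inter
      (isClosed_eq (continuous_of_mem ρ hρ hf) continuous_const)
  · have hae := h.ae_ne μ hρ hU hf hv.2 hwe'
    refine measure_mono_null (fun σ hσ => ?_) (ae_iff.1 hae)
    simp only [Set.mem_ofPred_eq]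
    intro h2
    exact h2 hσ.1 hσ.2
  · intro σ hσ hσB m hm
    have h2 : mad w' e' (TF.rat ρ (σ ^ m₁)) ≠ 0 := fun h0 => hσB ⟨hσ, h0⟩
    apply le_antisymm (hmax _ (U.pow_mem hσ m))
    have h3 := le_rk _ w' e' h2
    have h4 := rk_le_of_adjoin (mem_adjoin_pow ρ (hpow σ) hm)
    have h5 : rk (TF.rat ρ ((σ ^ m₁) ^ m)) ≤ rk (TF.rat ρ (σ ^ m)) := by
      apply rk_le_of_adjoin
      rw [← pow_mul, mul_comm, pow_mul, map_pow (TF.rat ρ) (σ ^ m) m₁]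
      exact Subalgebra.pow_mem _ (Algebra.self_mem_adjoin_singleton ℚ_[p] (TF.rat ρ (σ ^ m))) _
    omega

end Rank

section Compat

variable {K : Type} [Field K] [NumberField K] {n : ℕ}

/-- the associated representations over `ℚ_ℓ` -/
noncomputable def overQ (ρ : ∀ ℓ : ℕ, [Fact ℓ.Prime] → GK K →* GL (Fin n) ℤ_[ℓ]) (ℓ : ℕ)
    [Fact ℓ.Prime] : GK K →* GL (Fin n) ℚ_[ℓ] :=
  (Matrix.GeneralLinearGroup.map (algebraMap ℤ_[ℓ] ℚ_[ℓ])).comp (ρ ℓ)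

variable (ρ : ∀ ℓ : ℕ, [Fact ℓ.Prime] → GK K →* GL (Fin n) ℤ_[ℓ])

theorem overQ_val (ℓ : ℕ) [Fact ℓ.Prime] (σ : GK K) :
    (overQ ρ ℓ σ : Matrix (Fin n) (Fin n) ℚ_[ℓ]) = TF.rat (ρ ℓ) σ := rfl

theorem overQ_continuous (hρ : ∀ (ℓ : ℕ) [Fact ℓ.Prime],
    Continuous fun σ => (ρ ℓ σ : Matrix (Fin n) (Fin n) ℤ_[ℓ])) (ℓ : ℕ) [Fact ℓ.Prime] :
    Continuous (overQ ρ ℓ) := by
  rw [Units.continuous_iff]
  constructor
  · exact continuous_toQ.comp (hρ ℓ)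
  · have h1 : (fun σ : GK K => ((overQ ρ ℓ σ)⁻¹ : GL (Fin n) ℚ_[ℓ]).val) =
        fun σ => TF.rat (ρ ℓ) σ⁻¹ := by
      funext σ
      rw [← map_inv]
      rfl
    have h2 : Continuous fun σ : GK K => TF.rat (ρ ℓ) σ⁻¹ :=
      (continuous_toQ.comp (hρ ℓ)).comp continuous_inv
    rw [← h1] at h2
    exact h2

theorem overQ_semisimple (ℓ : ℕ) [Fact ℓ.Prime] (h : CR (Set.range (TF.rat (ρ ℓ)))) :
    Pool.Agent.X320.DS.Semisimple (overQ ρ ℓ) := by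
  intro W hW
  obtain ⟨W', hW', hc⟩ := h W (by
    rintro _ ⟨σ, rfl⟩
    exact hW σ)
  exact ⟨W', fun g => hW' _ ⟨g, rfl⟩, hc⟩

/-- **Regular semisimple Frobenius elements.** For a compatible system the following holds at the
places `v` outside a set of density zero: for all primes `ℓ` prime to `v` for which the
representation is semisimple with connected monodromy group, all Frobenius elements at `v` are
semisimple, and the rank of `ad` of their powers is maximal. -/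
theorem compat_regular [MeasurableSpace (GK K)] [BorelSpace (GK K)] (μ : Measure (GK K))
    [μ.IsHaarMeasure] [μ.OuterRegular] {S : Set (HeightOneSpectrum (𝓞 K))} (hS : S.Finite)
    (P : HeightOneSpectrum (𝓞 K) → ℤ[X])
    (hρ : ∀ (ℓ : ℕ) [Fact ℓ.Prime], Continuous fun σ => (ρ ℓ σ : Matrix (Fin n) (Fin n) ℤ_[ℓ]))
    (hI : ∀ (ℓ : ℕ) [Fact ℓ.Prime], ∀ v ∉ S, (ℓ : 𝓞 K) ∉ v.asIdeal → ∀ σ, IsInert v σ → ρ ℓ σ = 1)
    (hP : ∀ (ℓ : ℕ) [Fact ℓ.Prime], ∀ v ∉ S, (ℓ : 𝓞 K) ∉ v.asIdeal → ∀ σ, IsFrob v σ →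
      (TF.rat (ρ ℓ) σ⁻¹).charpoly = (P v).map (algebraMap ℤ ℚ_[ℓ])) :
    Tendsto (dens fun v => ¬ ∀ (ℓ : ℕ) [Fact ℓ.Prime], (ℓ : 𝓞 K) ∉ v.asIdeal →
      CR (Set.range (TF.rat (ρ ℓ))) → (∀ σ, σ ∈ conn (ρ ℓ)) → ∀ σ, IsFrob v σ →
        CR ({TF.rat (ρ ℓ) σ} : Set (Matrix (Fin n) (Fin n) ℚ_[ℓ])) ∧
        ∀ m : ℕ, m ≠ 0 → ∀ g, rk (TF.rat (ρ ℓ) g) ≤ rk (TF.rat (ρ ℓ) (σ ^ m))) atTop (𝓝 0) := by
  classical
  by_cases hex : ∃ (ℓ : ℕ) (_ : Fact ℓ.Prime), CR (Set.range (TF.rat (ρ ℓ))) ∧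
      ∀ σ, σ ∈ conn (ρ ℓ)
  swap
  · have h1 : (dens fun v : HeightOneSpectrum (𝓞 K) => ¬ ∀ (ℓ : ℕ) [Fact ℓ.Prime],
        (ℓ : 𝓞 K) ∉ v.asIdeal →
        CR (Set.range (TF.rat (ρ ℓ))) → (∀ σ, σ ∈ conn (ρ ℓ)) → ∀ σ, IsFrob v σ →
          CR ({TF.rat (ρ ℓ) σ} : Set (Matrix (Fin n) (Fin n) ℚ_[ℓ])) ∧
          ∀ m : ℕ, m ≠ 0 → ∀ g, rk (TF.rat (ρ ℓ) g) ≤ rk (TF.rat (ρ ℓ) (σ ^ m))) = fun _ => 0 := by
      funext N
      unfold dens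
      have : IsEmpty {v : HeightOneSpectrum (𝓞 K) // Ideal.absNorm v.asIdeal ≤ N ∧
          ¬ ∀ (ℓ : ℕ) [Fact ℓ.Prime], (ℓ : 𝓞 K) ∉ v.asIdeal →
          CR (Set.range (TF.rat (ρ ℓ))) → (∀ σ, σ ∈ conn (ρ ℓ)) → ∀ σ, IsFrob v σ →
            CR ({TF.rat (ρ ℓ) σ} : Set (Matrix (Fin n) (Fin n) ℚ_[ℓ])) ∧
            ∀ m : ℕ, m ≠ 0 → ∀ g, rk (TF.rat (ρ ℓ) g) ≤ rk (TF.rat (ρ ℓ) (σ ^ m))} :=
        ⟨fun v => v.2.2 fun ℓ hℓ _ hss hc => (hex ⟨ℓ, hℓ, hss, hc⟩).elim⟩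
      rw [Nat.card_of_isEmpty]
      simp
    rw [h1]
    exact tendsto_const_nhds
  obtain ⟨q, hq, hssq, hcq⟩ := hex
  -- semisimplicity
  have hC : Tendsto (dens fun v : HeightOneSpectrum (𝓞 K) => ¬ (v ∉ S ∧
      ∀ (ℓ : ℕ) [Fact ℓ.Prime], (ℓ : 𝓞 K) ∉ v.asIdeal →
      Pool.Agent.X320.DS.Semisimple (overQ ρ ℓ) → ∀ σ, IsFrob v σ →
        Module.End.IsSemisimple (Matrix.toLin' (overQ ρ ℓ σ : Matrix (Fin n) (Fin n) ℚ_[ℓ]))))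
      atTop (𝓝 0) := by
    have h1 := Pool.Agent.X320.FS.compat_ss hS P (overQ ρ) (overQ_continuous ρ hρ)
      (fun ℓ hℓ v hv hvℓ σ hσ => by
        have h2 := hI ℓ v hv hvℓ σ hσ
        change (Matrix.GeneralLinearGroup.map (algebraMap ℤ_[ℓ] ℚ_[ℓ])) (ρ ℓ σ) = 1
        rw [h2, map_one]) (fun ℓ hℓ v hv hvℓ σ hσ => hP ℓ v hv hvℓ σ hσ)
    have h3 := (dens_all (K := K)).sub h1
    rw [sub_self] at h3
    refine h3.congr fun N => ?_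
    rw [← dens_add_not _ N]
    ring
  have hfinq : {v : HeightOneSpectrum (𝓞 K) | (q : 𝓞 K) ∈ v.asIdeal}.Finite :=
    Pool.Agent.X320.DS.finite_above hq.out.ne_zero
  -- the rank at a place
  have hval : ∀ (ℓ : ℕ) [Fact ℓ.Prime] (v : HeightOneSpectrum (𝓞 K)), (v ∉ S ∧
      ∀ (ℓ : ℕ) [Fact ℓ.Prime], (ℓ : 𝓞 K) ∉ v.asIdeal →
      Pool.Agent.X320.DS.Semisimple (overQ ρ ℓ) → ∀ σ, IsFrob v σ →
        Module.End.IsSemisimple (Matrix.toLin' (overQ ρ ℓ σ : Matrix (Fin n) (Fin n) ℚ_[ℓ]))) →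
      (ℓ : 𝓞 K) ∉ v.asIdeal → CR (Set.range (TF.rat (ρ ℓ))) → ∀ σ, IsFrob v σ → ∀ m : ℕ,
        CR ({TF.rat (ρ ℓ) σ} : Set (Matrix (Fin n) (Fin n) ℚ_[ℓ])) ∧
        rk (TF.rat (ρ ℓ) (σ ^ m)) =
          npairs ((P v).map (algebraMap ℤ (AlgebraicClosure ℚ))).roots m := by
    intro ℓ hℓ v hv hvℓ hss σ hσ m
    have h1 := hv.2 ℓ hvℓ (overQ_semisimple ρ ℓ hss) σ hσ
    have h2 : CR ({TF.rat (ρ ℓ) σ} : Set (Matrix (Fin n) (Fin n) ℚ_[ℓ])) := CR_of_isSemisimple h1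
    have h3 : CR ({TF.rat (ρ ℓ) σ⁻¹} : Set (Matrix (Fin n) (Fin n) ℚ_[ℓ])) := by
      apply CR_of_isSemisimple
      refine Pool.Agent.X320.FS.ss_inv (M := TF.rat (ρ ℓ) σ) ?_ h1
      rw [← map_mul, mul_inv_cancel, map_one]
    refine ⟨h2, ?_⟩
    rw [← rk_inv, ← inv_pow, map_pow]
    exact rk_pow_eq_npairs h3 (P v) (hP ℓ v hv.1 hvℓ σ hσ) m
  obtain ⟨R₀, B₀, hB₀c, hB₀, hmax₀, hR₀⟩ := (connOn_conn (ρ q)).rk_ae μ (hρ q) (isOpen_conn (ρ q))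
  have hA₀ := dens_null μ hB₀c hB₀
  -- the maximal rank does not depend on the prime
  have hR : ∀ (ℓ : ℕ) [Fact ℓ.Prime], CR (Set.range (TF.rat (ρ ℓ))) → (∀ σ, σ ∈ conn (ρ ℓ)) →
      ∀ g, rk (TF.rat (ρ ℓ) g) ≤ R₀ := by
    intro ℓ hℓ hss hc g
    obtain ⟨R, B, hBc, hB, hmax, hRB⟩ := (connOn_conn (ρ ℓ)).rk_ae μ (hρ ℓ) (isOpen_conn (ρ ℓ))
    have hA := dens_null μ hBc hB
    have hfinℓ : {v : HeightOneSpectrum (𝓞 K) | (ℓ : 𝓞 K) ∈ v.asIdeal}.Finite :=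
      Pool.Agent.X320.DS.finite_above hℓ.out.ne_zero
    obtain ⟨v, hv⟩ : ∃ v : HeightOneSpectrum (𝓞 K), (v ∉ S ∧
        ∀ (ℓ : ℕ) [Fact ℓ.Prime], (ℓ : 𝓞 K) ∉ v.asIdeal →
        Pool.Agent.X320.DS.Semisimple (overQ ρ ℓ) → ∀ σ, IsFrob v σ →
          Module.End.IsSemisimple (Matrix.toLin' (overQ ρ ℓ σ : Matrix (Fin n) (Fin n) ℚ_[ℓ]))) ∧
        (¬ ∀ σ, IsFrob v σ → σ ∈ B₀) ∧ (¬ ∀ σ, IsFrob v σ → σ ∈ B) ∧ (q : 𝓞 K) ∉ v.asIdeal ∧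
        (ℓ : 𝓞 K) ∉ v.asIdeal := by
      by_contra hcon
      push Not at hcon
      have h1 := (((hC.add hA₀).add hA).add (Pool.Agent.X320.DS.dens_finite _ hfinq)).add (Pool.Agent.X320.DS.dens_finite _ hfinℓ)
      simp only [add_zero] at h1
      have h2 : Tendsto (dens fun _ : HeightOneSpectrum (𝓞 K) => True) atTop (𝓝 0) := by
        refine squeeze_zero (fun N => dens_nonneg _ N) (fun N => ?_) h1
        refine le_trans (dens_mono (fun v _ => ?_) N) (le_trans (dens_or _ _ N)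
          (add_le_add (le_trans (dens_or _ _ N) (add_le_add (le_trans (dens_or _ _ N)
            (add_le_add (dens_or _ _ N) le_rfl)) le_rfl)) le_rfl))
        by_cases e1 : (v ∉ S ∧ ∀ (ℓ : ℕ) [Fact ℓ.Prime], (ℓ : 𝓞 K) ∉ v.asIdeal →
            Pool.Agent.X320.DS.Semisimple (overQ ρ ℓ) → ∀ σ, IsFrob v σ →
            Module.End.IsSemisimple (Matrix.toLin' (overQ ρ ℓ σ : Matrix (Fin n) (Fin n) ℚ_[ℓ])))
        · by_cases e2 : ∀ σ, IsFrob v σ → σ ∈ B₀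
          · exact Or.inl (Or.inl (Or.inl (Or.inr e2)))
          · by_cases e3 : ∀ σ, IsFrob v σ → σ ∈ B
            · exact Or.inl (Or.inl (Or.inr e3))
            · by_cases e4 : (q : 𝓞 K) ∈ v.asIdeal
              · exact Or.inl (Or.inr e4)
              · by_cases e5 : (ℓ : 𝓞 K) ∈ v.asIdeal
                · exact Or.inr e5
                · exfalso
                  push Not at e2 e3
                  exact e5 (hcon v e1 e2 e3 e4)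
        · exact Or.inl (Or.inl (Or.inl (Or.inl e1)))
      have h3 := tendsto_nhds_unique h2 (dens_all (K := K))
      norm_num at h3
    obtain ⟨hv1, hv2, hv3, hv4, hv5⟩ := hv
    push Not at hv2 hv3
    obtain ⟨σ₀, hσ₀, hσ₀B⟩ := hv2
    obtain ⟨σ, hσ, hσB⟩ := hv3
    have h1 := (hval q v hv1 hv4 hssq σ₀ hσ₀ 1).2
    have h2 := (hval ℓ v hv1 hv5 hss σ hσ 1).2
    rw [hR₀ σ₀ (hcq σ₀) hσ₀B 1 one_ne_zero] at h1
    rw [hRB σ (hc σ) hσB 1 one_ne_zero, ← h1] at h2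
    rw [← h2]
    exact hmax g (hc g)
  have h1 := (hC.add hA₀).add (Pool.Agent.X320.DS.dens_finite _ hfinq)
  simp only [add_zero] at h1
  refine squeeze_zero (fun N => dens_nonneg _ N) (fun N => ?_) h1
  refine le_trans (dens_mono (fun v hv => ?_) N) (le_trans (dens_or _ _ N)
    (add_le_add (dens_or _ _ N) le_rfl))
  by_contra hcon
  apply hv
  rw [not_or, not_or] at hcon
  obtain ⟨⟨e1, e2⟩, e3⟩ := hcon
  rw [not_not] at e1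
  push Not at e2
  obtain ⟨σ₀, hσ₀, hσ₀B⟩ := e2
  intro ℓ hℓ hvℓ hss hc σ hσ
  refine ⟨(hval ℓ v e1 hvℓ hss σ hσ 1).1, fun m hm g => ?_⟩
  have h2 := (hval q v e1 e3 hssq σ₀ hσ₀ m).2
  have h3 := (hval ℓ v e1 hvℓ hss σ hσ m).2
  rw [hR₀ σ₀ (hcq σ₀) hσ₀B m hm] at h2
  rw [h3, ← h2]
  exact hR ℓ hss hc g

end Compat

end Pool.Agent.H850.RG
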