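import Pool.Agent.H850.OL.Pair
import Pool.Agent.H850.RG.Hom

/-!
# Two conjugate elements and the homomorphisms between two representations
-/

set_option autoImplicit false
set_option linter.unusedSectionVars false

namespace Pool.Agent.H850.RG

open Pool.Agent.H850.TF MeasureTheory Topology

section Dsum

variable {N N' : ℕ} {p : ℕ} [Fact p.Prime] {Γ : Type} [Group Γ]

/-- the two components of a vector -/
noncomputable def spl (N N' p : ℕ) [Fact p.Prime] :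
    (Fin (N + N') → ℚ_[p]) ≃ₗ[ℚ_[p]] (Fin N → ℚ_[p]) × (Fin N' → ℚ_[p]) :=
  (LinearEquiv.funCongrLeft ℚ_[p] ℚ_[p] finSumFinEquiv).trans
    (LinearEquiv.sumArrowLequivProdArrow _ _ ℚ_[p] ℚ_[p])

theorem spl_fst (x : Fin (N + N') → ℚ_[p]) (i : Fin N) :
    (spl N N' p x).1 i = x (finSumFinEquiv (Sum.inl i)) := rfl

theorem spl_snd (x : Fin (N + N') → ℚ_[p]) (i : Fin N') :
    (spl N N' p x).2 i = x (finSumFinEquiv (Sum.inr i)) := rfl

theorem blk_mulVec (X : Matrix (Fin N) (Fin N) ℚ_[p]) (Y : Matrix (Fin N') (Fin N') ℚ_[p])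
    (x : Fin (N + N') → ℚ_[p]) :
    spl N N' p ((blk X Y).mulVec x) = (X.mulVec (spl N N' p x).1, Y.mulVec (spl N N' p x).2) := by
  have h0 : ∀ k : Fin (N + N'), (blk X Y).mulVec x k =
      (Matrix.fromBlocks X 0 0 Y).mulVec (x ∘ finSumFinEquiv) (finSumFinEquiv.symm k) := by
    intro k
    unfold blk
    simp only [Matrix.mulVec, dotProduct, Matrix.submatrix_apply]
    rw [← finSumFinEquiv.sum_comp]
    simp
  apply Prod.ext
  · funext i
    rw [spl_fst, h0, Equiv.symm_apply_apply, Matrix.fromBlocks_mulVec]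
    simp only [Sum.elim_inl, Matrix.zero_mulVec, add_zero]
    rfl
  · funext i
    rw [spl_snd, h0, Equiv.symm_apply_apply, Matrix.fromBlocks_mulVec]
    simp only [Sum.elim_inr, Matrix.zero_mulVec, zero_add]
    rfl

theorem CR_dsm {ρ : Γ →* GL (Fin N) ℤ_[p]} {ρ' : Γ →* GL (Fin N') ℤ_[p]}
    (h : CR (Set.range (TF.rat ρ))) (h' : CR (Set.range (TF.rat ρ'))) :
    CR (Set.range (TF.rat (dsm ρ ρ'))) := by
  have s1 : SS (stdr ρ) Set.univ := by
    intro W hW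
    obtain ⟨W', hW', hc⟩ := h W (by
      rintro _ ⟨σ, rfl⟩ x hx
      exact hW σ trivial x hx)
    exact ⟨W', fun σ _ x hx => hW' _ ⟨σ, rfl⟩ x hx, hc⟩
  have s2 : SS (stdr ρ') Set.univ := by
    intro W hW
    obtain ⟨W', hW', hc⟩ := h' W (by
      rintro _ ⟨σ, rfl⟩ x hx
      exact hW σ trivial x hx)
    exact ⟨W', fun σ _ x hx => hW' _ ⟨σ, rfl⟩ x hx, hc⟩
  have s3 := s1.prod s2
  have heq : ∀ σ x, spl N N' p ((TF.rat (dsm ρ ρ') σ).mulVec x) =
      dprod (stdr ρ) (stdr ρ') σ (spl N N' p x) := by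
    intro σ x
    rw [rat_dsm, blk_mulVec]
    rfl
  intro W hW
  obtain ⟨C, hC, hc⟩ := s3 (W.map (spl N N' p).toLinearMap) (by
    rintro σ - _ ⟨x, hx, rfl⟩
    exact ⟨_, hW _ ⟨σ, rfl⟩ x hx, heq σ x⟩)
  refine ⟨C.comap (spl N N' p).toLinearMap, ?_, ?_⟩
  · rintro _ ⟨σ, rfl⟩ x hx
    change spl N N' p ((TF.rat (dsm ρ ρ') σ).mulVec x) ∈ C
    rw [heq]
    exact hC σ trivial _ hx
  · constructor
    · rw [Submodule.disjoint_def]
      intro x hx hx'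
      have h1 := (Submodule.disjoint_def.1 hc.disjoint) _ ⟨x, hx, rfl⟩ hx'
      exact (spl N N' p).map_eq_zero_iff.1 h1
    · rw [codisjoint_iff, eq_top_iff]
      intro x _
      have h1 : spl N N' p x ∈ W.map (spl N N' p).toLinearMap ⊔ C := by
        rw [codisjoint_iff.1 hc.codisjoint]
        trivial
      obtain ⟨_, ⟨y, hy, rfl⟩, z, hz, hyz⟩ := Submodule.mem_sup.1 h1
      have h2 : x = y + (spl N N' p).symm z := by
        apply (spl N N' p).injective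
        rw [map_add, LinearEquiv.apply_symm_apply]
        exact hyz.symm
      rw [h2]
      refine Submodule.add_mem_sup hy ?_
      change spl N N' p ((spl N N' p).symm z) ∈ C
      rw [LinearEquiv.apply_symm_apply]
      exact hz

/-- the block matrix of a map between the two summands -/
noncomputable def offm (φ : Matrix (Fin N') (Fin N) ℚ_[p]) : Matrix (Fin (N + N')) (Fin (N + N')) ℚ_[p] :=
  (Matrix.fromBlocks 0 0 φ 0).submatrix finSumFinEquiv.symm finSumFinEquiv.symm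

theorem comm_offm (φ : Matrix (Fin N') (Fin N) ℚ_[p]) (X : Matrix (Fin N) (Fin N) ℚ_[p])
    (Y : Matrix (Fin N') (Fin N') ℚ_[p]) :
    Commute (blk X Y) (offm φ) ↔ φ * X = Y * φ := by
  unfold Commute SemiconjBy offm blk
  rw [Matrix.submatrix_mul_equiv, Matrix.submatrix_mul_equiv, Matrix.fromBlocks_multiply,
    Matrix.fromBlocks_multiply]
  simp only [Matrix.mul_zero, Matrix.zero_mul, add_zero, zero_add]
  constructor
  · intro h
    ext i j
    have h1 := congrFun (congrFun h (finSumFinEquiv (Sum.inr i))) (finSumFinEquiv (Sum.inl j))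
    simp only [Matrix.submatrix_apply, Equiv.symm_apply_apply, Matrix.fromBlocks_apply₂₁] at h1
    exact h1.symm
  · intro h
    rw [h]

theorem comm_dsm (ρ : Γ →* GL (Fin N) ℤ_[p]) (ρ' : Γ →* GL (Fin N') ℤ_[p])
    (φ : Matrix (Fin N') (Fin N) ℚ_[p]) (σ : Γ) :
    Commute (TF.rat (dsm ρ ρ') σ) (offm φ) ↔ φ * TF.rat ρ σ = TF.rat ρ' σ * φ := by
  rw [rat_dsm, comm_offm]

theorem mem_U1_dsm (ρ : Γ →* GL (Fin N) ℤ_[p]) (ρ' : Γ →* GL (Fin N') ℤ_[p]) (σ : Γ) :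
    σ ∈ U1 (dsm ρ ρ') ↔ σ ∈ U1 ρ ∧ σ ∈ U1 ρ' := by
  rw [mem_U1, mem_U1, mem_U1]
  constructor
  · rintro ⟨a, ha⟩
    rw [dsm_val] at ha
    constructor
    · refine ⟨fun i j => a (finSumFinEquiv (Sum.inl i)) (finSumFinEquiv (Sum.inl j)), ?_⟩
      ext i j
      have h1 := congrFun (congrFun ha (finSumFinEquiv (Sum.inl i))) (finSumFinEquiv (Sum.inl j))
      rw [blk, Matrix.submatrix_apply, Equiv.symm_apply_apply, Equiv.symm_apply_apply,
        Matrix.fromBlocks_apply₁₁] at h1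
      rw [h1]
      simp only [Matrix.add_apply, Matrix.smul_apply, Matrix.one_apply,
        EmbeddingLike.apply_eq_iff_eq, Sum.inl.injEq]
      try rfl
    · refine ⟨fun i j => a (finSumFinEquiv (Sum.inr i)) (finSumFinEquiv (Sum.inr j)), ?_⟩
      ext i j
      have h1 := congrFun (congrFun ha (finSumFinEquiv (Sum.inr i))) (finSumFinEquiv (Sum.inr j))
      rw [blk, Matrix.submatrix_apply, Equiv.symm_apply_apply, Equiv.symm_apply_apply,
        Matrix.fromBlocks_apply₂₂] at h1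
      rw [h1]
      simp only [Matrix.add_apply, Matrix.smul_apply, Matrix.one_apply,
        EmbeddingLike.apply_eq_iff_eq, Sum.inr.injEq]
      try rfl
  · rintro ⟨⟨a, ha⟩, ⟨b, hb⟩⟩
    refine ⟨blk a b, ?_⟩
    rw [dsm_val, ha, hb]
    have h1 : blk (1 + (p : ℤ_[p]) ^ 2 • a) (1 + (p : ℤ_[p]) ^ 2 • b) =
        blk (1 : Matrix (Fin N) (Fin N) ℤ_[p]) (1 : Matrix (Fin N') (Fin N') ℤ_[p]) +
          (p : ℤ_[p]) ^ 2 • blk a b := by
      ext i j
      obtain ⟨i, rfl⟩ := finSumFinEquiv.surjective i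
      obtain ⟨j, rfl⟩ := finSumFinEquiv.surjective j
      unfold blk
      simp only [Matrix.submatrix_apply, Matrix.add_apply, Matrix.smul_apply,
        Equiv.symm_apply_apply]
      rcases i with i | i <;> rcases j with j | j <;> simp
    rw [h1, blk_one]

end Dsum

section Desc

variable {N N' : ℕ} {p : ℕ} [Fact p.Prime] {Γ : Type} [Group Γ] [TopologicalSpace Γ]
  [IsTopologicalGroup Γ] [CompactSpace Γ]

/-- descent of combinations of morphisms -/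
theorem descent_gen (ρ : Γ →* GL (Fin N) ℤ_[p]) (ρ' : Γ →* GL (Fin N') ℤ_[p]) {H : Type}
    [AddCommGroup H] [DistribMulAction Γ H]
    (hst : ∀ h : H, IsOpen (MulAction.stabilizer Γ h : Set Γ))
    (real : H →+ Matrix (Fin N') (Fin N) ℚ_[p])
    (heq : ∀ (σ : Γ) (h : H), real (σ • h) * TF.rat ρ σ = TF.rat ρ' σ * real h)
    {φ : Matrix (Fin N') (Fin N) ℚ_[p]} (hv : φ ∈ Submodule.span ℚ_[p] (Set.range real))
    (G : Subgroup Γ) (hL : ∀ σ ∈ G, φ * TF.rat ρ σ = TF.rat ρ' σ * φ) :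
    φ ∈ Submodule.span ℚ_[p] (real '' {h | ∀ σ ∈ G, σ • h = h}) := by
  classical
  rw [Finsupp.mem_span_range_iff_exists_finsupp] at hv
  obtain ⟨c, hc⟩ := hv
  set U : Subgroup Γ := ⨅ e : c.support, MulAction.stabilizer Γ (e : H) with hU
  have hUopen : IsOpen (U : Set Γ) := by
    rw [hU, Subgroup.coe_iInf]
    exact isOpen_iInter_of_finite fun e => hst e
  have hUfix : ∀ e ∈ c.support, ∀ u ∈ U, u • e = e := by
    intro e he u hu
    rw [hU, Subgroup.mem_iInf] at hu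
    exact hu ⟨e, he⟩
  have hfin : Finite (Γ ⧸ U) := Subgroup.quotient_finite_of_isOpen U hUopen
  have hidx : U.FiniteIndex := Subgroup.finiteIndex_of_finite_quotient
  have hfinQ : Finite (G ⧸ U.subgroupOf G) := inferInstance
  have : Fintype (G ⧸ U.subgroupOf G) := Fintype.ofFinite _
  set n : ℕ := Fintype.card (G ⧸ U.subgroupOf G) with hn
  have hn0 : n ≠ 0 := Fintype.card_ne_zero
  let av : H → H := fun e => ∑ q : G ⧸ U.subgroupOf G, (q.out : Γ) • e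
  have hav : ∀ e ∈ c.support, ∀ σ ∈ G, σ • av e = av e := by
    intro e he σ hσ
    change σ • (∑ q : G ⧸ U.subgroupOf G, (q.out : Γ) • e) =
      ∑ q : G ⧸ U.subgroupOf G, (q.out : Γ) • e
    rw [Finset.smul_sum]
    have h2 : ∀ q : G ⧸ U.subgroupOf G, σ • (q.out : Γ) • e =
        (((⟨σ, hσ⟩ : G) • q).out : Γ) • e := by
      intro q
      have h3 : ((⟨σ, hσ⟩ : G) * q.out : G)⁻¹ * ((⟨σ, hσ⟩ : G) • q).out ∈ U.subgroupOf G := by
        rw [← QuotientGroup.eq, QuotientGroup.out_eq']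
        have h4 : (q : G ⧸ U.subgroupOf G) = QuotientGroup.mk q.out := (QuotientGroup.out_eq' q).symm
        conv_rhs => rw [h4]
        rfl
      have h5 := hUfix e he _ (Subgroup.mem_subgroupOf.1 h3)
      have h6 : (((⟨σ, hσ⟩ : G) • q).out : Γ) = (σ * (q.out : Γ)) *
          ((((⟨σ, hσ⟩ : G) * q.out : G)⁻¹ * ((⟨σ, hσ⟩ : G) • q).out : G) : Γ) := by
        push_cast
        group
      rw [h6, mul_smul, h5, mul_smul]
    simp_rw [h2]
    exact Equiv.sum_comp (MulAction.toPerm (⟨σ, hσ⟩ : G)) fun q : G ⧸ U.subgroupOf G =>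
      (q.out : Γ) • e
  have hinv : ∀ σ : Γ, TF.rat ρ σ * TF.rat ρ σ⁻¹ = 1 := by
    intro σ
    rw [← map_mul, mul_inv_cancel, map_one]
  have hconj : ∀ σ ∈ G, φ = c.sum fun e a => a • real (σ • e) := by
    intro σ hσ
    have h1 : TF.rat ρ' σ * φ * TF.rat ρ σ⁻¹ = c.sum fun e a => a • real (σ • e) := by
      rw [← hc, Finsupp.sum, Matrix.mul_sum, Matrix.sum_mul, Finsupp.sum]
      refine Finset.sum_congr rfl fun e _ => ?_
      have h2 : real (σ • e) * TF.rat ρ σ = TF.rat ρ' σ * real e := heq σ e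
      rw [Matrix.mul_smul, Matrix.smul_mul, ← h2, Matrix.mul_assoc, hinv, Matrix.mul_one]
    have h3 : φ * TF.rat ρ σ = TF.rat ρ' σ * φ := hL σ hσ
    rw [← h1, ← h3, Matrix.mul_assoc, hinv, Matrix.mul_one]
  have hn0' : (n : ℚ_[p]) ≠ 0 := by exact_mod_cast hn0
  have hX2 : φ = (n : ℚ_[p])⁻¹ • ∑ q : G ⧸ U.subgroupOf G, φ := by
    rw [Finset.sum_const, Finset.card_univ, ← hn, ← Nat.cast_smul_eq_nsmul ℚ_[p], smul_smul,
      inv_mul_cancel₀ hn0', one_smul]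
  have hX3 : φ = ∑ e ∈ c.support, ((n : ℚ_[p])⁻¹ * c e) • real (av e) := by
    rw [hX2]
    have h4 : ∑ q : G ⧸ U.subgroupOf G, φ =
        ∑ q : G ⧸ U.subgroupOf G, c.sum fun e a => a • real ((q.out : Γ) • e) :=
      Finset.sum_congr rfl fun q _ => hconj _ q.out.2
    rw [h4]
    simp only [Finsupp.sum]
    rw [Finset.sum_comm, Finset.smul_sum]
    refine Finset.sum_congr rfl fun e _ => ?_
    rw [← Finset.smul_sum, smul_smul, ← map_sum]
  rw [hX3]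
  refine Submodule.sum_mem _ fun e he => Submodule.smul_mem _ _ (Submodule.subset_span ?_)
  exact ⟨av e, hav e he, rfl⟩

end Desc

section Pairs

variable {N N' : ℕ} {p : ℕ} [Fact p.Prime] {Γ : Type} [Group Γ] [TopologicalSpace Γ]
  [IsTopologicalGroup Γ] [CompactSpace Γ] [TotallyDisconnectedSpace Γ]

theorem off_of_adjoin (ρ : Γ →* GL (Fin N) ℤ_[p]) (ρ' : Γ →* GL (Fin N') ℤ_[p])
    (φ : Matrix (Fin N') (Fin N) ℚ_[p]) {σ τ u : Γ}
    (h : TF.rat (dsm ρ ρ') u ∈ Algebra.adjoin ℚ_[p] {TF.rat (dsm ρ ρ') σ, TF.rat (dsm ρ ρ') τ})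
    (h1 : φ * TF.rat ρ σ = TF.rat ρ' σ * φ) (h2 : φ * TF.rat ρ τ = TF.rat ρ' τ * φ) :
    φ * TF.rat ρ u = TF.rat ρ' u * φ := by
  rw [← comm_dsm]
  refine commute_of_adjoin ?_ h
  rintro A (rfl | hA)
  · exact (comm_dsm ρ ρ' φ σ).2 h1
  · rw [Set.mem_singleton_iff] at hA
    rw [hA]
    exact (comm_dsm ρ ρ' φ τ).2 h2

/-- a map which commutes with an open subgroup commutes with the elements of `conn` -/
theorem off_of_open (ρ : Γ →* GL (Fin N) ℤ_[p]) (ρ' : Γ →* GL (Fin N') ℤ_[p])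
    (φ : Matrix (Fin N') (Fin N) ℚ_[p]) {V : Subgroup Γ} (hV : IsOpen (V : Set Γ))
    (h : ∀ v ∈ V, φ * TF.rat ρ v = TF.rat ρ' v * φ) :
    ∀ u ∈ conn (dsm ρ ρ'), φ * TF.rat ρ u = TF.rat ρ' u * φ := by
  intro u hu
  rw [← comm_dsm]
  have h1 := (connOn_conn (dsm ρ ρ')).mem_adjoin hV hu
    (Subalgebra.centralizer ℚ_[p] {offm φ}) (fun v hv => by
      rw [Subalgebra.mem_centralizer_iff]
      rintro _ rfl
      exact ((comm_dsm ρ ρ' φ v).2 (h v hv)).eq.symm)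
  rw [Subalgebra.mem_centralizer_iff] at h1
  exact (h1 _ rfl).symm

theorem off_of_open' (ρ : Γ →* GL (Fin N) ℤ_[p]) (ρ' : Γ →* GL (Fin N') ℤ_[p])
    (φ : Matrix (Fin N') (Fin N) ℚ_[p]) {V : Subgroup Γ} (hV : IsOpen (V : Set Γ))
    (h : ∀ v ∈ V, φ * TF.rat ρ v = TF.rat ρ' v * φ) {u : Γ} (hu : u ∈ U1 ρ) (hu' : u ∈ U1 ρ') :
    φ * TF.rat ρ u = TF.rat ρ' u * φ := by
  rw [← comm_dsm]
  exact commute_of_open (dsm ρ ρ') V hV (fun σ hσ => (comm_dsm ρ ρ' φ σ).2 (h σ hσ))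
    ((mem_U1_dsm ρ ρ' u).2 ⟨hu, hu'⟩)

variable [MeasurableSpace Γ] [BorelSpace Γ]

/-- **Pairs of representations**: outside a closed null set, the maps commuting with a power of an
element and with the same power of almost every conjugate commute with the whole group. -/
theorem hom_conj_ae (μ : Measure Γ) [μ.IsHaarMeasure] {ρ : Γ →* GL (Fin N) ℤ_[p]}
    {ρ' : Γ →* GL (Fin N') ℤ_[p]}
    (hρ : Continuous fun σ => (ρ σ : Matrix (Fin N) (Fin N) ℤ_[p]))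
    (hρ' : Continuous fun σ => (ρ' σ : Matrix (Fin N') (Fin N') ℤ_[p]))
    (h : CR (Set.range (TF.rat ρ))) (h' : CR (Set.range (TF.rat ρ'))) :
    ∃ B : Set Γ, IsClosed B ∧ μ B = 0 ∧ ∀ σ ∈ conn (dsm ρ ρ'), σ ∉ B → ∀ᵐ y ∂μ,
      y ∈ conn (dsm ρ ρ') → ∀ k : ℕ, k ≠ 0 → ∀ φ : Matrix (Fin N') (Fin N) ℚ_[p],
        φ * TF.rat ρ (σ ^ k) = TF.rat ρ' (σ ^ k) * φ →
        φ * TF.rat ρ (y * σ ^ k * y⁻¹) = TF.rat ρ' (y * σ ^ k * y⁻¹) * φ →
          ∀ u ∈ conn (dsm ρ ρ'), φ * TF.rat ρ u = TF.rat ρ' u * φ := by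
  obtain ⟨B, hB, hB0, hgen⟩ := (connOn_conn (dsm ρ ρ')).conj_ae μ (continuous_dsm hρ hρ')
    (isOpen_conn (dsm ρ ρ')) (CR_dsm h h')
  refine ⟨B, hB, hB0, fun σ hσ hσB => ?_⟩
  filter_upwards [hgen σ hσ hσB] with y hy hyU k hk φ h1 h2 u hu
  exact off_of_adjoin ρ ρ' φ (hy hyU k hk u hu) h1 h2

omit [MeasurableSpace Γ] [BorelSpace Γ] in
/-- positive density version -/
theorem hom_conj_coset {ρ : Γ →* GL (Fin N) ℤ_[p]} {ρ' : Γ →* GL (Fin N') ℤ_[p]}
    (hρ : Continuous fun σ => (ρ σ : Matrix (Fin N) (Fin N) ℤ_[p]))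
    (hρ' : Continuous fun σ => (ρ' σ : Matrix (Fin N') (Fin N') ℤ_[p]))
    (h : CR (Set.range (TF.rat ρ))) (h' : CR (Set.range (TF.rat ρ'))) :
    ∃ (V : Subgroup Γ) (σ₀ η : Γ), V.Normal ∧ IsOpen (V : Set Γ) ∧
      (∀ u ∈ V, σ₀ * u ∈ U1 ρ ∧ σ₀ * u ∈ U1 ρ') ∧ ∀ u ∈ V, ∀ φ : Matrix (Fin N') (Fin N) ℚ_[p],
        φ * TF.rat ρ (σ₀ * u) = TF.rat ρ' (σ₀ * u) * φ →
        φ * TF.rat ρ (η * (σ₀ * u) * η⁻¹) = TF.rat ρ' (η * (σ₀ * u) * η⁻¹) * φ →
          ∀ γ, γ ∈ U1 ρ → γ ∈ U1 ρ' → φ * TF.rat ρ γ = TF.rat ρ' γ * φ := by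
  obtain ⟨V, σ₀, η, hVn, hVo, h1, h2⟩ := conj_coset (continuous_dsm hρ hρ') (CR_dsm h h')
  refine ⟨V, σ₀, η, hVn, hVo, fun u hu => (mem_U1_dsm ρ ρ' _).1 (h1 u hu), ?_⟩
  intro u hu φ h3 h4 γ hγ hγ'
  exact off_of_adjoin ρ ρ' φ (h2 u hu γ ((mem_U1_dsm ρ ρ' γ).2 ⟨hγ, hγ'⟩)) h3 h4

end Pairs

end Pool.Agent.H850.RG
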