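import Pool.Agent.H850.OL.Red
import Pool.Agent.H850.RG.Pair

/-!
# An element and almost every conjugate of it generate the algebra of a `p`-adic representation
-/

set_option autoImplicit false
set_option linter.unusedSectionVars false

namespace Pool.Agent.H850.RG

open Pool.Agent.H850.TF MeasureTheory Topology

variable {N : ℕ} {p : ℕ} [Fact p.Prime] {Γ : Type} [Group Γ]

theorem PM.rat_inv (ρ : Γ →* GL (Fin N) ℤ_[p]) : PM ρ (fun σ => TF.rat ρ σ⁻¹) :=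
  fun i j => entry_inv_mem ρ i j

theorem PM.conj_left (ρ : Γ →* GL (Fin N) ℤ_[p]) (σ : Γ) :
    PM ρ (fun y => TF.rat ρ (y * σ * y⁻¹)) := by
  have h := ((PM.rat ρ).mul (PM.const ρ (TF.rat ρ σ))).mul (PM.rat_inv ρ)
  have h2 : (fun y => TF.rat ρ (y * σ * y⁻¹)) =
      fun y => TF.rat ρ y * TF.rat ρ σ * TF.rat ρ y⁻¹ := by
    funext y
    rw [map_mul, map_mul]
  rw [h2]
  exact h

theorem PM.conj_right (ρ : Γ →* GL (Fin N) ℤ_[p]) (y : Γ) (k : ℕ) :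
    PM ρ (fun σ => TF.rat ρ (y * σ ^ k * y⁻¹)) := by
  have h := ((PM.const ρ (TF.rat ρ y)).mul (PM.rat_pow ρ k)).mul (PM.const ρ (TF.rat ρ y⁻¹))
  have h2 : (fun σ => TF.rat ρ (y * σ ^ k * y⁻¹)) =
      fun σ => TF.rat ρ y * TF.rat ρ (σ ^ k) * TF.rat ρ y⁻¹ := by
    funext σ
    rw [map_mul, map_mul]
  rw [h2]
  exact h

theorem conj_mem_adjoin (ρ : Γ →* GL (Fin N) ℤ_[p]) {σ : Γ} (y : Γ) {k m : ℕ} (hk : k ≠ 0)
    (hσ : σ ^ m ∈ U1 ρ) :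
    TF.rat ρ (y * σ ^ m * y⁻¹) ∈ Algebra.adjoin ℚ_[p] {TF.rat ρ (y * σ ^ k * y⁻¹)} := by
  have h1 : y * σ ^ m * y⁻¹ ∈ U1 ρ := (inferInstance : (U1 ρ).Normal).conj_mem _ hσ y
  have h2 := mem_adjoin_pow ρ h1 hk
  have h3 : (y * σ ^ m * y⁻¹) ^ k = (y * σ ^ k * y⁻¹) ^ m := by
    rw [conj_pow, conj_pow, ← pow_mul, ← pow_mul, mul_comm m k]
  rw [h3, map_pow] at h2
  have h4 : Algebra.adjoin ℚ_[p] {TF.rat ρ (y * σ ^ k * y⁻¹) ^ m} ≤
      Algebra.adjoin ℚ_[p] {TF.rat ρ (y * σ ^ k * y⁻¹)} := by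
    apply Algebra.adjoin_le
    intro Z hZ
    rw [Set.mem_singleton_iff] at hZ
    rw [hZ]
    exact Subalgebra.pow_mem _ (Algebra.self_mem_adjoin_singleton _ _) _
  exact h4 h2

variable [TopologicalSpace Γ] [IsTopologicalGroup Γ] [CompactSpace Γ]

/-- an element of an open subgroup and a conjugate generate -/
theorem exists_conj [TotallyDisconnectedSpace Γ] {ρ : Γ →* GL (Fin N) ℤ_[p]}
    (hρ : Continuous fun σ => (ρ σ : Matrix (Fin N) (Fin N) ℤ_[p])) {U : Subgroup Γ}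
    (hU : IsOpen (U : Set Γ)) (hss : CR (Set.range (TF.rat ρ))) :
    ∃ V : Subgroup Γ, V.Normal ∧ IsOpen (V : Set Γ) ∧ V ≤ U ∧ V ≤ U1 ρ ∧ ∃ σ ∈ V, ∃ η ∈ V,
      ∀ γ ∈ V, TF.rat ρ γ ∈ Algebra.adjoin ℚ_[p] {TF.rat ρ σ, TF.rat ρ (η * σ * η⁻¹)} := by
  obtain ⟨V, hV⟩ := ProfiniteGrp.exist_openNormalSubgroup_sub_open_nhds_of_one
    (U := (U : Set Γ) ∩ (U1 ρ : Set Γ)) (hU.inter (isOpen_U1 ρ hρ)) ⟨U.one_mem, (U1 ρ).one_mem⟩
  refine ⟨V.toSubgroup, V.isNormal', V.isOpen', fun x hx => (hV hx).1, fun x hx => (hV hx).2, ?_⟩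
  have hn : V.toSubgroup.Normal := V.isNormal'
  have hG := small_imag ρ V.toSubgroup (fun x hx => (hV hx).2)
  have hCR : CR (toQ '' imag ρ V.toSubgroup) := by
    rw [toQ_imag]
    exact clifford (TF.rat ρ) V.toSubgroup hss
  obtain ⟨_, ⟨σ, hσ, rfl⟩, _, ⟨η, hη, rfl⟩, h', -, hh', hgen⟩ := two_elements_conj hG hCR
  refine ⟨σ, hσ, η, hη, fun γ hγ => ?_⟩
  have h1 : h' = ((ρ η⁻¹ : GL (Fin N) ℤ_[p]) : Matrix (Fin N) (Fin N) ℤ_[p]) := by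
    have h2 : ((ρ η⁻¹ : GL (Fin N) ℤ_[p]) : Matrix (Fin N) (Fin N) ℤ_[p]) *
        (ρ η : Matrix (Fin N) (Fin N) ℤ_[p]) = 1 := by
      rw [← Units.val_mul, ← map_mul, inv_mul_cancel, map_one, Units.val_one]
    calc h' = (((ρ η⁻¹ : GL (Fin N) ℤ_[p]) : Matrix (Fin N) (Fin N) ℤ_[p]) *
        (ρ η : Matrix (Fin N) (Fin N) ℤ_[p])) * h' := by rw [h2, one_mul]
      _ = _ := by rw [mul_assoc, hh', mul_one]
  have h3 := hgen _ ⟨γ, hγ, rfl⟩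
  have h4 : toQ ((ρ η : Matrix (Fin N) (Fin N) ℤ_[p]) * (ρ σ : Matrix (Fin N) (Fin N) ℤ_[p]) * h') =
      TF.rat ρ (η * σ * η⁻¹) := by
    rw [h1, map_mul, map_mul, map_mul, map_mul]
    rfl
  rw [h4] at h3
  exact h3

/-- **Positive density version**: an open set of elements which generate together with a conjugate -/
theorem conj_coset [TotallyDisconnectedSpace Γ] {ρ : Γ →* GL (Fin N) ℤ_[p]}
    (hρ : Continuous fun σ => (ρ σ : Matrix (Fin N) (Fin N) ℤ_[p]))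
    (hss : CR (Set.range (TF.rat ρ))) :
    ∃ (V : Subgroup Γ) (σ₀ η : Γ), V.Normal ∧ IsOpen (V : Set Γ) ∧
      (∀ u ∈ V, σ₀ * u ∈ U1 ρ) ∧ ∀ u ∈ V, ∀ γ ∈ U1 ρ,
        TF.rat ρ γ ∈ Algebra.adjoin ℚ_[p] {TF.rat ρ (σ₀ * u), TF.rat ρ (η * (σ₀ * u) * η⁻¹)} := by
  classical
  obtain ⟨V₀, hVn, hVo, -, hV1, σ₀, hσ₀, η, hη, hgen0⟩ := exists_conj hρ (isOpen_U1 ρ hρ) hss
  -- all the small elements are in the algebra
  have hgen : ∀ γ ∈ U1 ρ, TF.rat ρ γ ∈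
      Algebra.adjoin ℚ_[p] {TF.rat ρ σ₀, TF.rat ρ (η * σ₀ * η⁻¹)} := by
    intro γ hγ
    have hfin : Finite (Γ ⧸ V₀) := Subgroup.quotient_finite_of_isOpen V₀ hVo
    have hidx : V₀.index ≠ 0 := by
      have : V₀.FiniteIndex := Subgroup.finiteIndex_of_finite_quotient
      exact this.index_ne_zero
    obtain ⟨m, hm, -, hγm⟩ := Subgroup.exists_pow_mem_of_index_ne_zero hidx γ
    have h1 := mem_adjoin_pow ρ hγ (k := m) (by omega)
    have h2 : Algebra.adjoin ℚ_[p] {TF.rat ρ (γ ^ m)} ≤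
        Algebra.adjoin ℚ_[p] {TF.rat ρ σ₀, TF.rat ρ (η * σ₀ * η⁻¹)} := by
      apply Algebra.adjoin_le
      intro Z hZ
      rw [Set.mem_singleton_iff] at hZ
      rw [hZ]
      exact hgen0 _ hγm
    exact h2 h1
  set A := Algebra.adjoin ℚ_[p] (TF.rat ρ '' (U1 ρ : Set Γ)) with hA
  have hle : ∀ σ ∈ U1 ρ, Algebra.adjoin ℚ_[p] {TF.rat ρ σ, TF.rat ρ (η * σ * η⁻¹)} ≤ A := by
    intro σ hσ
    apply Algebra.adjoin_mono
    intro X hX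
    rcases hX with rfl | hX
    · exact ⟨σ, hσ, rfl⟩
    · rw [Set.mem_singleton_iff] at hX
      rw [hX]
      exact ⟨_, (inferInstance : (U1 ρ).Normal).conj_mem _ hσ η, rfl⟩
  have hA0 : A = Algebra.adjoin ℚ_[p] {TF.rat ρ σ₀, TF.rat ρ (η * σ₀ * η⁻¹)} := by
    apply le_antisymm
    · apply Algebra.adjoin_le
      rintro _ ⟨σ, hσ, rfl⟩
      exact hgen _ hσ
    · exact hle _ (hV1 hσ₀)
  set D := Module.finrank ℚ_[p] (Subalgebra.toSubmodule A) with hD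
  obtain ⟨w, e, hwe⟩ := exists_minor (TF.rat ρ σ₀) (TF.rat ρ (η * σ₀ * η⁻¹)) D (by
    rw [← adjoin_pair_eq_span, ← hA0])
  have hcr : Continuous fun σ : Γ => TF.rat ρ σ := continuous_toQ.comp hρ
  have hcm : Continuous fun x : Γ => minor w e (TF.rat ρ (σ₀ * x))
      (TF.rat ρ (η * (σ₀ * x) * η⁻¹)) :=
    continuous_minor _ _ (hcr.comp (continuous_const.mul continuous_id))
      (hcr.comp ((continuous_const.mul (continuous_const.mul continuous_id)).mul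
        continuous_const)) w e
  have hopen : IsOpen {x : Γ | minor w e (TF.rat ρ (σ₀ * x))
      (TF.rat ρ (η * (σ₀ * x) * η⁻¹)) ≠ 0} :=
    isOpen_ne_fun hcm continuous_const
  have h11 : (1 : Γ) ∈ {x : Γ | minor w e (TF.rat ρ (σ₀ * x))
      (TF.rat ρ (η * (σ₀ * x) * η⁻¹)) ≠ 0} := by
    change minor w e (TF.rat ρ (σ₀ * 1)) (TF.rat ρ (η * (σ₀ * 1) * η⁻¹)) ≠ 0
    rw [mul_one]
    exact hwe
  obtain ⟨V, hV⟩ := ProfiniteGrp.exist_openNormalSubgroup_sub_open_nhds_of_one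
    (U := {x : Γ | minor w e (TF.rat ρ (σ₀ * x)) (TF.rat ρ (η * (σ₀ * x) * η⁻¹)) ≠ 0} ∩
      (U1 ρ : Set Γ)) (hopen.inter (isOpen_U1 ρ hρ)) ⟨h11, (U1 ρ).one_mem⟩
  refine ⟨V.toSubgroup, σ₀, η, V.isNormal', V.isOpen', ?_, ?_⟩
  · intro u hu
    exact (U1 ρ).mul_mem (hV1 hσ₀) (hV hu).2
  · intro u hu γ hγ
    have hm : minor w e (TF.rat ρ (σ₀ * u)) (TF.rat ρ (η * (σ₀ * u) * η⁻¹)) ≠ 0 := (hV hu).1
    have h2 := le_finrank_of_minor _ _ w e hm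
    have h4 : Subalgebra.toSubmodule
        (Algebra.adjoin ℚ_[p] {TF.rat ρ (σ₀ * u), TF.rat ρ (η * (σ₀ * u) * η⁻¹)}) =
        Subalgebra.toSubmodule A :=
      Submodule.eq_of_le_of_finrank_le (hle _ ((U1 ρ).mul_mem (hV1 hσ₀) (hV hu).2)) h2
    rw [← Subalgebra.mem_toSubmodule, h4]
    exact Algebra.subset_adjoin ⟨γ, hγ, rfl⟩

variable [MeasurableSpace Γ] [BorelSpace Γ]

/-- **Density one version.** Outside a closed null set, an element and almost every conjugate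
generate the algebra, and the same for all powers. -/
theorem ConnOn.conj_ae (μ : Measure Γ) [μ.IsHaarMeasure] [TotallyDisconnectedSpace Γ]
    {ρ : Γ →* GL (Fin N) ℤ_[p]}
    (hρ : Continuous fun σ => (ρ σ : Matrix (Fin N) (Fin N) ℤ_[p])) {U : Subgroup Γ}
    (hU : IsOpen (U : Set Γ)) (h : ConnOn ρ U) (hss : CR (Set.range (TF.rat ρ))) :
    ∃ B : Set Γ, IsClosed B ∧ μ B = 0 ∧ ∀ σ ∈ U, σ ∉ B → ∀ᵐ y ∂μ, y ∈ U → ∀ k : ℕ, k ≠ 0 →
      ∀ u ∈ U, TF.rat ρ u ∈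
        Algebra.adjoin ℚ_[p] {TF.rat ρ (σ ^ k), TF.rat ρ (y * σ ^ k * y⁻¹)} := by
  classical
  have hfin1 : Finite (Γ ⧸ U1 ρ) := Subgroup.quotient_finite_of_isOpen _ (isOpen_U1 ρ hρ)
  have hfi1 : (U1 ρ).FiniteIndex := Subgroup.finiteIndex_of_finite_quotient
  set m := (U1 ρ).index with hm
  have hm0 : m ≠ 0 := hfi1.index_ne_zero
  have hpow : ∀ σ : Γ, σ ^ m ∈ U1 ρ := fun σ => Subgroup.pow_index_mem (U1 ρ) σ
  obtain ⟨V₀, hVn, hVo, hVU, hV1, σ₀, hσ₀, η, hη, hgen0⟩ := exists_conj hρ hU hss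
  have hgen : ∀ u ∈ U, TF.rat ρ u ∈
      Algebra.adjoin ℚ_[p] {TF.rat ρ (σ₀ ^ m), TF.rat ρ (η * σ₀ ^ m * η⁻¹)} := by
    intro u hu
    refine h.mem_adjoin hVo hu _ fun v hv => ?_
    have h1 : Algebra.adjoin ℚ_[p] {TF.rat ρ σ₀, TF.rat ρ (η * σ₀ * η⁻¹)} ≤
        Algebra.adjoin ℚ_[p] {TF.rat ρ (σ₀ ^ m), TF.rat ρ (η * σ₀ ^ m * η⁻¹)} := by
      have h4 := mem_adjoin_pow ρ (hV1 hσ₀) hm0
      have h5 := conj_mem_adjoin ρ (σ := σ₀) η (k := m) (m := 1) hm0 (by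
        rw [pow_one]
        exact hV1 hσ₀)
      rw [pow_one] at h5
      apply Algebra.adjoin_le
      intro Z hZ
      rcases hZ with rfl | hZ
      · exact Algebra.adjoin_mono (Set.singleton_subset_iff.2 (Set.mem_insert _ _)) h4
      · rw [Set.mem_singleton_iff] at hZ
        rw [hZ]
        exact Algebra.adjoin_mono (Set.singleton_subset_iff.2
          (Set.mem_insert_of_mem _ (Set.mem_singleton _))) h5
    exact h1 (hgen0 v hv)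
  have hle : ∀ σ ∈ U, ∀ y ∈ U, Algebra.adjoin ℚ_[p] {TF.rat ρ (σ ^ m), TF.rat ρ (y * σ ^ m * y⁻¹)} ≤
      Algebra.adjoin ℚ_[p] (TF.rat ρ '' (U : Set Γ)) := by
    intro σ hσ y hy
    apply Algebra.adjoin_mono
    intro X hX
    rcases hX with rfl | hX
    · exact ⟨_, U.pow_mem hσ m, rfl⟩
    · rw [Set.mem_singleton_iff] at hX
      rw [hX]
      exact ⟨_, U.mul_mem (U.mul_mem hy (U.pow_mem hσ m)) (U.inv_mem hy), rfl⟩
  have hA0 : Algebra.adjoin ℚ_[p] (TF.rat ρ '' (U : Set Γ)) =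
      Algebra.adjoin ℚ_[p] {TF.rat ρ (σ₀ ^ m), TF.rat ρ (η * σ₀ ^ m * η⁻¹)} := by
    apply le_antisymm
    · apply Algebra.adjoin_le
      rintro _ ⟨σ, hσ, rfl⟩
      exact hgen σ hσ
    · exact hle σ₀ (hVU hσ₀) η (hVU hη)
  obtain ⟨w, e, hwe⟩ := exists_minor (TF.rat ρ (σ₀ ^ m)) (TF.rat ρ (η * σ₀ ^ m * η⁻¹))
    (Module.finrank ℚ_[p] (Subalgebra.toSubmodule
      (Algebra.adjoin ℚ_[p] (TF.rat ρ '' (U : Set Γ))))) (by
    rw [← adjoin_pair_eq_span, ← hA0])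
  have hcr : Continuous fun σ : Γ => TF.rat ρ σ := continuous_toQ.comp hρ
  have hcont : ∀ y : Γ, Continuous fun σ : Γ => minor w e (TF.rat ρ (σ ^ m))
      (TF.rat ρ (y * σ ^ m * y⁻¹)) := fun y =>
    continuous_minor _ _ (hcr.comp (continuous_pow m))
      (hcr.comp ((continuous_const.mul (continuous_pow m)).mul continuous_const)) w e
  refine ⟨{σ | σ ∈ U ∧ ∀ y ∈ U, minor w e (TF.rat ρ (σ ^ m)) (TF.rat ρ (y * σ ^ m * y⁻¹)) = 0},
    ?_, ?_, ?_⟩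
  · have h1 : {σ | σ ∈ U ∧ ∀ y ∈ U, minor w e (TF.rat ρ (σ ^ m))
        (TF.rat ρ (y * σ ^ m * y⁻¹)) = 0} = (U : Set Γ) ∩ ⋂ y ∈ U, {σ | minor w e (TF.rat ρ (σ ^ m))
        (TF.rat ρ (y * σ ^ m * y⁻¹)) = 0} := by
      ext σ
      simp
    rw [h1]
    refine (Subgroup.isClosed_of_isOpen U hU).inter (isClosed_biInter fun y _ => ?_)
    exact isClosed_eq (hcont y) continuous_const
  · have hf1 : (fun σ => minor w e (TF.rat ρ (σ ^ m)) (TF.rat ρ (η * σ ^ m * η⁻¹))) ∈ Pol ρ :=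
      (PM.rat_pow ρ m).minor (PM.conj_right ρ η m) w e
    have hae := h.ae_ne μ hρ hU hf1 (hVU hσ₀) hwe
    refine measure_mono_null (fun σ hσ => ?_) (ae_iff.1 hae)
    simp only [Set.mem_ofPred_eq]
    intro h2
    exact h2 hσ.1 (hσ.2 η (hVU hη))
  · intro σ hσU hσB
    have h1 : ∃ y₁ ∈ U, minor w e (TF.rat ρ (σ ^ m)) (TF.rat ρ (y₁ * σ ^ m * y₁⁻¹)) ≠ 0 := by
      by_contra hcon
      push Not at hcon
      exact hσB ⟨hσU, hcon⟩
    obtain ⟨y₁, hy₁, hne⟩ := h1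
    have hf2 : (fun y => minor w e (TF.rat ρ (σ ^ m)) (TF.rat ρ (y * σ ^ m * y⁻¹))) ∈ Pol ρ :=
      (PM.const ρ _).minor (PM.conj_left ρ (σ ^ m)) w e
    have hae2 := h.ae_ne μ hρ hU hf2 hy₁ hne
    filter_upwards [hae2] with y hy hyU k hk u hu
    have h5 := le_finrank_of_minor _ _ w e (hy hyU)
    have h4 := Submodule.eq_of_le_of_finrank_le
      (show Subalgebra.toSubmodule (Algebra.adjoin ℚ_[p] {TF.rat ρ (σ ^ m),
        TF.rat ρ (y * σ ^ m * y⁻¹)}) ≤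
        Subalgebra.toSubmodule (Algebra.adjoin ℚ_[p] (TF.rat ρ '' (U : Set Γ))) from
          hle σ hσU y hyU) h5
    have h6 : TF.rat ρ u ∈ Algebra.adjoin ℚ_[p] {TF.rat ρ (σ ^ m),
        TF.rat ρ (y * σ ^ m * y⁻¹)} := by
      rw [← Subalgebra.mem_toSubmodule, h4]
      exact Algebra.subset_adjoin ⟨u, hu, rfl⟩
    have h7 := conj_mem_adjoin ρ (σ := σ) y (k := k) (m := m) hk (hpow σ)
    have h8 := conj_mem_adjoin ρ (σ := σ) 1 (k := k) (m := m) hk (hpow σ)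
    simp only [one_mul, inv_one, mul_one] at h8
    have h9 : Algebra.adjoin ℚ_[p] {TF.rat ρ (σ ^ m), TF.rat ρ (y * σ ^ m * y⁻¹)} ≤
        Algebra.adjoin ℚ_[p] {TF.rat ρ (σ ^ k), TF.rat ρ (y * σ ^ k * y⁻¹)} := by
      apply Algebra.adjoin_le
      intro Z hZ
      rcases hZ with rfl | hZ
      · exact Algebra.adjoin_mono (Set.singleton_subset_iff.2 (Set.mem_insert _ _)) h8
      · rw [Set.mem_singleton_iff] at hZ
        rw [hZ]
        exact Algebra.adjoin_mono (Set.singleton_subset_iff.2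
          (Set.mem_insert_of_mem _ (Set.mem_singleton _))) h7
    exact h9 h6

end Pool.Agent.H850.RG
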