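import Pool.Agent.H850.TF.Main2

/-!
# An element and a conjugate generate the algebra of a small semisimple `p`-adic group
-/

set_option autoImplicit false
set_option linter.unusedSectionVars false

namespace Pool.Agent.H850.TF

open LieAlgebra LieModule

section Red

variable (K : Type) (L : Type) (M : Type) [Field K] [IsAlgClosed K] [CharZero K]
  [LieRing L] [LieAlgebra K L]
  [Module.Finite K L] [AddCommGroup M] [Module K M] [Module.Finite K M] [LieRingModule L M]
  [LieModule K L M]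

/-- **Two generators**, the second one being the bracket of the first with some element. -/
theorem exists_two_generators_conj [ComplementedLattice (LieSubmodule K L M)] [IsFaithful K L M] :
    ∃ X W : L, ∀ Z : L, toEnd K L M Z ∈
      Algebra.adjoin K {toEnd K L M X, toEnd K L M ⁅W, X⁆} := by
  classical
  have := hasTrivialRadical_quotient K L M
  obtain ⟨ι, _, X₀, e, a, ha, ha0, he, hspan⟩ := exists_root_vectors K (L ⧸ radical K L)
  obtain ⟨z, hz, hzgen⟩ := exists_generic_radical K L M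
  set π := LieSubmodule.Quotient.mk' (radical K L) with hπ
  have hπlie : ∀ x y : L, π ⁅x, y⁆ = ⁅π x, π y⁆ := fun x y => rfl
  have hπ0 : ∀ x : L, π x = 0 → x ∈ radical K L := fun x hx =>
    (LieSubmodule.Quotient.mk_eq_zero (radical K L)).1 hx
  have hcen : ∀ r ∈ radical K L, ∀ x : L, ⁅x, r⁆ = 0 := fun r hr x =>
    lie_radical_eq_zero K L M ⟨r, hr⟩ x
  have hsurj : ∀ w : L ⧸ radical K L, ∃ x : L, π x = w := LieSubmodule.Quotient.surjective_mk' _
  obtain ⟨X₁, hX₁⟩ := hsurj X₀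
  choose e' he' using fun i => hsurj (e i)
  have hr : ∀ i, ⁅X₁, e' i⁆ - a i • e' i ∈ radical K L := by
    intro i
    apply hπ0
    rw [map_sub, map_smul, hπlie, hX₁, he', he, sub_self]
  set E : ι → L := fun i => e' i + (a i)⁻¹ • (⁅X₁, e' i⁆ - a i • e' i) with hE
  have hEX : ∀ i, ⁅X₁, E i⁆ = a i • E i := by
    intro i
    rw [hE]
    simp only
    rw [lie_add, lie_smul, hcen _ (hr i), smul_zero, add_zero, smul_add, smul_smul,
      mul_inv_cancel₀ (ha0 i), one_smul]
    abel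
  have hEπ : ∀ i, π (E i) = e i := by
    intro i
    rw [hE]
    simp only
    rw [map_add, map_smul, he']
    have : π (⁅X₁, e' i⁆ - a i • e' i) = 0 :=
      (LieSubmodule.Quotient.mk_eq_zero (radical K L)).2 (hr i)
    rw [this, smul_zero, add_zero]
  set T := LieSubalgebra.lieSpan K L (Set.range E) with hT
  have hlift : ∀ w : L ⧸ radical K L, ∃ t ∈ T, π t = w := by
    intro w
    have hw : w ∈ LieSubalgebra.lieSpan K (L ⧸ radical K L) (Set.range e) := by
      rw [hspan]; trivial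
    induction hw using LieSubalgebra.lieSpan_induction with
    | mem w hw =>
      obtain ⟨i, rfl⟩ := hw
      exact ⟨E i, LieSubalgebra.subset_lieSpan ⟨i, rfl⟩, hEπ i⟩
    | zero => exact ⟨0, T.zero_mem, map_zero _⟩
    | add x y _ _ hx hy =>
      obtain ⟨t, ht, rfl⟩ := hx
      obtain ⟨t', ht', rfl⟩ := hy
      exact ⟨t + t', T.add_mem ht ht', map_add _ _ _⟩
    | smul c x _ hx =>
      obtain ⟨t, ht, rfl⟩ := hx
      exact ⟨c • t, T.smul_mem c ht, map_smul _ _ _⟩
    | lie x y _ _ hx hy =>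
      obtain ⟨t, ht, rfl⟩ := hx
      obtain ⟨t', ht', rfl⟩ := hy
      exact ⟨⁅t, t'⁆, T.lie_mem ht ht', hπlie _ _⟩
  have hdec : ∀ Z : L, ∃ t ∈ T, Z - t ∈ radical K L := by
    intro Z
    obtain ⟨t, ht, hπt⟩ := hlift (π Z)
    exact ⟨t, ht, hπ0 _ (by rw [map_sub, hπt, sub_self])⟩
  obtain ⟨t₁, ht₁, hr₁⟩ := hdec X₁
  have hbr : ∀ i, ⁅t₁ + z, E i⁆ = a i • E i := by
    intro i
    have h1 : t₁ + z = X₁ - (X₁ - t₁) + z := by abel
    have h2 : ⁅(X₁ - t₁), E i⁆ = 0 := by rw [← lie_skew, hcen _ hr₁, neg_zero]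
    have h3 : ⁅z, E i⁆ = 0 := by rw [← lie_skew, hcen _ hz, neg_zero]
    rw [h1, add_lie, sub_lie, h2, h3, sub_zero, add_zero, hEX]
  refine ⟨t₁ + z, -∑ i, (a i)⁻¹ • E i, ?_⟩
  have hWX : ⁅-∑ i, (a i)⁻¹ • E i, t₁ + z⁆ = ∑ i, E i := by
    rw [← lie_skew, lie_neg, neg_neg, lie_sum]
    refine Finset.sum_congr rfl fun i _ => ?_
    rw [lie_smul, hbr, smul_smul, inv_mul_cancel₀ (ha0 i), one_smul]
  rw [hWX]
  set A := Algebra.adjoin K {toEnd K L M (t₁ + z), toEnd K L M (∑ i, E i)} with hA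
  have hXA : toEnd K L M (t₁ + z) ∈ A := Algebra.subset_adjoin (Set.mem_insert _ _)
  have hYA : toEnd K L M (∑ i, E i) ∈ A :=
    Algebra.subset_adjoin (Set.mem_insert_of_mem _ rfl)
  have hEA : ∀ i, toEnd K L M (E i) ∈ A := by
    apply mem_of_sum_mem A (toEnd K L M (t₁ + z)) hXA (fun i => toEnd K L M (E i)) a ha
    · intro i
      have h1 := congrArg (toEnd K L M) (hbr i)
      rw [toEnd_lie_eq, map_smul] at h1
      exact h1
    · rw [← map_sum]
      exact hYA
  have hTA : ∀ t ∈ T, toEnd K L M t ∈ A := by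
    intro t ht
    induction ht using LieSubalgebra.lieSpan_induction with
    | mem w hw =>
      obtain ⟨i, rfl⟩ := hw
      exact hEA i
    | zero => rw [map_zero]; exact A.zero_mem
    | add x y _ _ hx hy => rw [map_add]; exact A.add_mem hx hy
    | smul c x _ hx => rw [map_smul]; exact A.smul_mem hx c
    | lie x y _ _ hx hy =>
      rw [toEnd_lie_eq]
      exact A.sub_mem (A.mul_mem hx hy) (A.mul_mem hy hx)
  have hzA : toEnd K L M z ∈ A := by
    have h1 : toEnd K L M z = toEnd K L M (t₁ + z) - toEnd K L M t₁ := by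
      rw [map_add]; abel
    rw [h1]
    exact A.sub_mem hXA (hTA t₁ ht₁)
  have hRA : ∀ r ∈ radical K L, toEnd K L M r ∈ A := by
    intro r hr
    have h1 := hzgen r hr
    have h2 : Algebra.adjoin K {toEnd K L M z} ≤ A := by
      apply Algebra.adjoin_le
      intro w hw
      rw [Set.mem_singleton_iff] at hw
      rw [hw]
      exact hzA
    exact h2 h1
  intro Z
  obtain ⟨t, ht, hr⟩ := hdec Z
  have h1 : toEnd K L M Z = toEnd K L M t + toEnd K L M (Z - t) := by
    rw [map_sub]; abel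
  rw [h1]
  exact A.add_mem (hTA t ht) (hRA _ hr)

end Red

attribute [local instance 100] LieRing.ofAssociativeRing

variable {N : ℕ}

/-- a pair consisting of an element and a bracket with it -/
theorem exists_lie_pair_conj {F : Type} [Field F] [IsAlgClosed F] [CharZero F]
    (𝔥 : Submodule F (Matrix (Fin N) (Fin N) F)) (hbr : ∀ X ∈ 𝔥, ∀ Y ∈ 𝔥, X * Y - Y * X ∈ 𝔥)
    (hCR : CR (𝔥 : Set (Matrix (Fin N) (Fin N) F))) :
    ∃ X ∈ 𝔥, ∃ W ∈ 𝔥, ∀ Z ∈ 𝔥, Z ∈ Algebra.adjoin F {X, W * X - X * W} := by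
  let L : LieSubalgebra F (Module.End F (Fin N → F)) :=
    { carrier := {φ | LinearMap.toMatrix' φ ∈ 𝔥}
      add_mem' := by
        intro φ ψ h h'
        change LinearMap.toMatrix' (φ + ψ) ∈ 𝔥
        rw [map_add]
        exact 𝔥.add_mem h h'
      zero_mem' := by
        change LinearMap.toMatrix' 0 ∈ 𝔥
        rw [map_zero]
        exact 𝔥.zero_mem
      smul_mem' := by
        intro c φ h
        change LinearMap.toMatrix' (c • φ) ∈ 𝔥
        rw [map_smul]
        exact 𝔥.smul_mem c h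
      lie_mem' := by
        intro φ ψ h h'
        change LinearMap.toMatrix' (φ * ψ - ψ * φ) ∈ 𝔥
        rw [map_sub, Module.End.mul_eq_comp, Module.End.mul_eq_comp, LinearMap.toMatrix'_comp,
          LinearMap.toMatrix'_comp]
        exact hbr _ h _ h' }
  have hL : ∀ X ∈ 𝔥, Matrix.toLin' X ∈ L := by
    intro X hX
    change LinearMap.toMatrix' (Matrix.toLin' X) ∈ 𝔥
    rwa [LinearMap.toMatrix'_toLin']
  have hcomp : ComplementedLattice (LieSubmodule F L (Fin N → F)) := by
    refine ⟨fun W => ?_⟩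
    obtain ⟨W', hW', hc⟩ := hCR W.toSubmodule (by
      intro X hX x hx
      exact W.lie_mem (x := (⟨Matrix.toLin' X, hL X hX⟩ : L)) hx)
    refine ⟨{ toSubmodule := W'
              lie_mem := fun {φ x} hx => by
                have h1 : ⁅φ, x⁆ = (LinearMap.toMatrix' (φ : Module.End F (Fin N → F))).mulVec x := by
                  rw [← Matrix.toLin'_apply, Matrix.toLin'_toMatrix']
                  rfl
                change ⁅φ, x⁆ ∈ W'
                rw [h1]
                exact hW' _ φ.2 x hx }, ?_⟩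
    rw [← LieSubmodule.isCompl_toSubmodule]
    exact hc
  have hfaith : IsFaithful F L (Fin N → F) := by
    rw [isFaithful_iff]
    intro φ ψ h
    apply Subtype.ext
    exact h
  obtain ⟨X, Y, hXY⟩ := exists_two_generators_conj F L (Fin N → F)
  refine ⟨LinearMap.toMatrix' X.1, X.2, LinearMap.toMatrix' Y.1, Y.2, ?_⟩
  have hbrk : LinearMap.toMatrix' Y.1 * LinearMap.toMatrix' X.1 -
      LinearMap.toMatrix' X.1 * LinearMap.toMatrix' Y.1 = LinearMap.toMatrix' (⁅Y, X⁆ : L).1 := by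
    have h0 : (⁅Y, X⁆ : L).1 = Y.1 * X.1 - X.1 * Y.1 := rfl
    rw [h0, map_sub, Module.End.mul_eq_comp, Module.End.mul_eq_comp, LinearMap.toMatrix'_comp,
      LinearMap.toMatrix'_comp]
  rw [hbrk]
  intro Z hZ
  have h1 := hXY ⟨Matrix.toLin' Z, hL Z hZ⟩
  have h2 : (Matrix.toLin' Z : Module.End F (Fin N → F)) ∈
      Algebra.adjoin F {(X : Module.End F (Fin N → F)),
        ((⁅Y, X⁆ : L) : Module.End F (Fin N → F))} := h1
  have h3 : LinearMap.toMatrixAlgEquiv' (Matrix.toLin' Z : Module.End F (Fin N → F)) ∈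
      (Algebra.adjoin F {(X : Module.End F (Fin N → F)),
        ((⁅Y, X⁆ : L) : Module.End F (Fin N → F))}).map
        (LinearMap.toMatrixAlgEquiv' (R := F) (n := Fin N)).toAlgHom := ⟨_, h2, rfl⟩
  rw [AlgHom.map_adjoin] at h3
  have h4 : LinearMap.toMatrixAlgEquiv' (Matrix.toLin' Z : Module.End F (Fin N → F)) = Z :=
    LinearMap.toMatrix'_toLin' Z
  rw [h4] at h3
  have h5 : (LinearMap.toMatrixAlgEquiv' (R := F) (n := Fin N)).toAlgHom ''
      {(X : Module.End F (Fin N → F)), ((⁅Y, X⁆ : L) : Module.End F (Fin N → F))} =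
      {LinearMap.toMatrix' X.1, LinearMap.toMatrix' (⁅Y, X⁆ : L).1} := by
    rw [Set.image_pair]
    rfl
  rw [h5] at h3
  exact h3

open Filter Topology

section Cont

variable {p : ℕ} [Fact p.Prime]

theorem continuous_wd' {X : Type*} [TopologicalSpace X] (f g : X → Matrix (Fin N) (Fin N) ℚ_[p])
    (hf : Continuous f) (hg : Continuous g) (l : List (Fin 2)) :
    Continuous fun x => wd (f x) (g x) l := by
  induction l with
  | nil =>
    have : (fun x => wd (f x) (g x) []) = fun _ => 1 := by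
      funext x
      simp [wd]
    rw [this]
    exact continuous_const
  | cons a l ih =>
    have : (fun x => wd (f x) (g x) (a :: l)) =
        fun x => (if a = 0 then f x else g x) * wd (f x) (g x) l := by
      funext x
      simp [wd]
    rw [this]
    refine Continuous.mul ?_ ih
    split_ifs
    · exact hf
    · exact hg

theorem continuous_minor' {X : Type*} [TopologicalSpace X]
    (f g : X → Matrix (Fin N) (Fin N) ℚ_[p])
    (hf : Continuous f) (hg : Continuous g) {D : ℕ} (w : Fin D → List (Fin 2))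
    (e : Fin D → Fin N × Fin N) : Continuous fun x => minor w e (f x) (g x) := by
  unfold minor
  refine Continuous.matrix_det (continuous_matrix fun i j => ?_)
  exact (continuous_wd' f g hf hg (w i)).matrix_elem _ _

end Cont

variable {p : ℕ} [Fact p.Prime]

/-- **An element and one of its conjugates generate.** -/
theorem two_elements_conj {G : Set (Matrix (Fin N) (Fin N) ℤ_[p])} (hG : Small G)
    (hCR : CR (toQ '' G)) :
    ∃ g ∈ G, ∃ h ∈ G, ∃ h' ∈ G, h * h' = 1 ∧
      ∀ γ ∈ G, toQ γ ∈ Algebra.adjoin ℚ_[p] {toQ g, toQ (h * g * h')} := by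
  classical
  let F := AlgebraicClosure ℚ_[p]
  have hchar : CharZero F := charZero_of_injective_algebraMap (algebraMap ℚ_[p] F).injective
  set 𝔤 := lieSpan G with h𝔤
  have hCR𝔤 := hG.CR_lieSpan hCR
  set A := Algebra.adjoin ℚ_[p] (𝔤 : Set (Matrix (Fin N) (Fin N) ℚ_[p])) with hA
  have hss := semisimple_of_nondeg _ (nondeg_bc (F := F) A (nondeg_of_CR hCR𝔤))
  have hCRF := CR_of_semisimple _ hss
  -- the Lie algebra over the algebraic closure
  set S : Set (Matrix (Fin N) (Fin N) F) := img F (toQ '' LogSet G) with hS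
  set 𝔥 := Submodule.span F S with h𝔥
  have hS𝔤 : S ⊆ img F (𝔤 : Set (Matrix (Fin N) (Fin N) ℚ_[p])) := by
    rintro _ ⟨X, hX, rfl⟩
    exact ⟨X, Submodule.subset_span hX, rfl⟩
  have h𝔤𝔥 : ∀ X ∈ 𝔤, (bc X : Matrix (Fin N) (Fin N) F) ∈ 𝔥 := by
    intro X hX
    induction hX using Submodule.span_induction with
    | mem X hX => exact Submodule.subset_span ⟨X, hX, rfl⟩
    | zero => rw [map_zero]; exact 𝔥.zero_mem
    | add X Y _ _ hX hY => rw [map_add]; exact 𝔥.add_mem hX hY
    | smul c X _ hX => rw [bc_smul]; exact 𝔥.smul_mem _ hX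
  have hbr : ∀ X ∈ 𝔥, ∀ Y ∈ 𝔥, X * Y - Y * X ∈ 𝔥 := by
    intro X hX Y hY
    induction hX using Submodule.span_induction with
    | mem X hX =>
      induction hY using Submodule.span_induction with
      | mem Y hY =>
        obtain ⟨_, ⟨X', hX', rfl⟩, rfl⟩ := hX
        obtain ⟨_, ⟨Y', hY', rfl⟩, rfl⟩ := hY
        have h7 := h𝔤𝔥 _ (hG.bracket_log hX' hY')
        rw [map_sub, map_mul (bc (K := ℚ_[p]) (F := F)), map_mul (bc (K := ℚ_[p]) (F := F))] at h7
        exact h7
      | zero => simp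
      | add Y Y' _ _ h h' =>
        have : X * (Y + Y') - (Y + Y') * X = (X * Y - Y * X) + (X * Y' - Y' * X) := by
          rw [mul_add, add_mul]; abel
        rw [this]
        exact 𝔥.add_mem h h'
      | smul c Y _ h =>
        have : X * (c • Y) - (c • Y) * X = c • (X * Y - Y * X) := by
          rw [mul_smul_comm, smul_mul_assoc, smul_sub]
        rw [this]
        exact 𝔥.smul_mem _ h
    | zero => simp
    | add X X' _ _ h h' =>
      have : (X + X') * Y - Y * (X + X') = (X * Y - Y * X) + (X' * Y - Y * X') := by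
        rw [mul_add, add_mul]; abel
      rw [this]
      exact 𝔥.add_mem h h'
    | smul c X _ h =>
      have : (c • X) * Y - Y * (c • X) = c • (X * Y - Y * X) := by
        rw [mul_smul_comm, smul_mul_assoc, smul_sub]
      rw [this]
      exact 𝔥.smul_mem _ h
  have hAimg : img F (A : Set (Matrix (Fin N) (Fin N) ℚ_[p])) ⊆
      (Algebra.adjoin F (img F (𝔤 : Set (Matrix (Fin N) (Fin N) ℚ_[p]))) : Set _) := by
    rintro _ ⟨x, hx, rfl⟩
    exact bc_mem_adjoin hx
  have h𝔤img : (img F (𝔤 : Set (Matrix (Fin N) (Fin N) ℚ_[p]))) ⊆ (𝔥 : Set _) := by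
    rintro _ ⟨x, hx, rfl⟩
    exact h𝔤𝔥 x hx
  have hCR𝔥 : CR (𝔥 : Set (Matrix (Fin N) (Fin N) F)) := by
    intro W hW
    obtain ⟨W', hW', hc⟩ := hCRF W (by
      refine stable_adjoin ?_
      intro X hX
      exact stable_adjoin (fun Y hY => hW Y (h𝔤img hY)) X (hAimg hX))
    refine ⟨W', ?_, hc⟩
    refine stable_span ?_
    intro X hX
    obtain ⟨Y, hY, rfl⟩ := hS𝔤 hX
    exact hW' _ (Algebra.subset_adjoin ⟨Y, Algebra.subset_adjoin hY, rfl⟩)
  obtain ⟨X, hX, W, hW, hXY⟩ := exists_lie_pair_conj 𝔥 hbr hCR𝔥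
  set Y := W * X - X * W with hYdef
  -- dimensions
  set D := Module.finrank ℚ_[p] A with hD
  have hDle : D ≤ Module.finrank F (Submodule.span F (Set.range (wd X Y))) := by
    rw [← adjoin_pair_eq_span]
    set b := Module.finBasis ℚ_[p] A
    have h1 : LinearIndependent ℚ_[p] fun i => (b i : Matrix (Fin N) (Fin N) ℚ_[p]) :=
      b.linearIndependent.map' A.val.toLinearMap (LinearMap.ker_eq_bot.2 Subtype.val_injective)
    have h2 := bc_linearIndependent (F := F) _ h1
    have h3 : ∀ i, (bc (b i : Matrix (Fin N) (Fin N) ℚ_[p]) : Matrix (Fin N) (Fin N) F) ∈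
        Algebra.adjoin F {X, Y} := by
      intro i
      have h4 := bc_mem_adjoin (F := F) (b i).2
      have h5 : Algebra.adjoin F (img F (𝔤 : Set (Matrix (Fin N) (Fin N) ℚ_[p]))) ≤
          Algebra.adjoin F {X, Y} := by
        apply Algebra.adjoin_le
        intro Z hZ
        exact hXY Z (h𝔤img hZ)
      exact h5 h4
    have h6 : LinearIndependent F fun i =>
        (⟨bc (b i : Matrix (Fin N) (Fin N) ℚ_[p]), h3 i⟩ :
          Subalgebra.toSubmodule (Algebra.adjoin F {X, Y})) :=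
      LinearIndependent.of_comp (Submodule.subtype _) h2
    have := h6.fintype_card_le_finrank
    simpa using this
  obtain ⟨w, e, hwe⟩ := exists_minor X Y D hDle
  -- descend to logarithms
  set brk : Fin 2 × Fin N × Fin N → MvPolynomial (Fin 2 × Fin N × Fin N) ℚ_[p] := fun q =>
    if q.1 = 0 then MvPolynomial.X (0, q.2.1, q.2.2) else
      (∑ k, MvPolynomial.X (1, q.2.1, k) * MvPolynomial.X (0, k, q.2.2)) -
        ∑ k, MvPolynomial.X (0, q.2.1, k) * MvPolynomial.X (1, k, q.2.2) with hbrk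
  have hcomp : ∀ (R : Type) [Field R] [Algebra ℚ_[p] R] (X W : Matrix (Fin N) (Fin N) R),
      MvPolynomial.aeval (coords X W) (MvPolynomial.aeval brk (genMinor ℚ_[p] w e)) =
        minor w e X (W * X - X * W) := by
    intro R _ _ X W
    rw [← aeval_genMinor (K := ℚ_[p]) w e X (W * X - X * W)]
    rw [← AlgHom.comp_apply, MvPolynomial.comp_aeval]
    congr 2
    funext q
    rw [hbrk]
    by_cases hq : q.1 = 0
    · simp only [hq, if_true, MvPolynomial.aeval_X, coords]
    · simp only [hq, if_false, map_sub, map_sum, map_mul, MvPolynomial.aeval_X, coords,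
        Matrix.sub_apply, Matrix.mul_apply]
      simp
  obtain ⟨Xl, hXl, Wl, hWl, hminor0⟩ : ∃ Xl ∈ LogSet G, ∃ Wl ∈ LogSet G,
      minor w e (toQ Xl) (toQ Wl * toQ Xl - toQ Xl * toQ Wl) ≠ 0 := by
    by_contra hc
    push Not at hc
    apply hwe
    have h1 := vanish_span hG.approx hG.zero_mem_pairSet
      (MvPolynomial.aeval brk (genMinor ℚ_[p] w e)) (by
      rintro _ ⟨Xl, hXl, Yl, hYl, rfl⟩
      have h2 := hcomp ℚ_[p] (toQ Xl) (toQ Yl)
      rw [hc Xl hXl Yl hYl] at h2
      exact h2) (coords X W) (coords_mem_span hG hX hW)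
    exact (hcomp F X W).symm.trans h1
  obtain ⟨g, hg, hgl⟩ := hXl
  obtain ⟨h, hh, hhl⟩ := hWl
  obtain ⟨h', hh', hhh'⟩ := hG.inv h hh
  obtain ⟨y, b, hy, hb, hlim⟩ := hhl.tendsto_bracket (h := g) (Y := Xl) ⟨h', hhh'⟩
  have hp0 : (p : ℚ_[p]) ≠ 0 := by exact_mod_cast (Fact.out : p.Prime).ne_zero
  obtain ⟨n, hn⟩ : ∃ n, minor w e (toQ Xl) (toQ (b n)) ≠ 0 := by
    have hc1 : Continuous fun Z : Matrix (Fin N) (Fin N) ℤ_[p] => minor w e (toQ Xl) (toQ Z) :=
      continuous_minor' _ _ continuous_const continuous_toQ w e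
    have h1 : minor w e (toQ Xl) (toQ (Wl * Xl - Xl * Wl)) ≠ 0 := by
      rw [map_sub, map_mul, map_mul]
      exact hminor0
    have h2 := (hc1.tendsto _).comp hlim
    have h3 := h2.eventually_ne h1
    exact h3.exists
  obtain ⟨k, hk, hyn⟩ := hy n
  have hkG : k ∈ G := by
    obtain ⟨k', hk', hkk'⟩ := hG.inv _ (hG.pow hh (p ^ n))
    have hkeq : k = k' := by
      have h3 : k * h ^ p ^ n = 1 := mul_eq_one_comm.1 hk
      calc k = k * (h ^ p ^ n * k') := by rw [hkk', mul_one]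
        _ = k' := by rw [← mul_assoc, h3, one_mul]
    rw [hkeq]
    exact hk'
  set h₁ := h ^ p ^ n with hh₁
  have hh₁G : h₁ ∈ G := hG.pow hh _
  have hgk : h₁ * g * k ∈ G := hG.mul _ (hG.mul _ hh₁G _ hg) _ hkG
  have hYlog : IsLog (h₁ * g * k) (y n) := by
    rw [hyn]
    exact hgl.conj hk
  have hbq : toQ (b n) = ((p : ℚ_[p]) ^ n)⁻¹ • (toQ (y n) - toQ Xl) := by
    rw [← map_sub, hb n, toQ_smul, smul_smul]
    have : algebraMap ℤ_[p] ℚ_[p] ((p : ℤ_[p]) ^ n) = (p : ℚ_[p]) ^ n := by simp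
    rw [this, inv_mul_cancel₀ (pow_ne_zero _ hp0), one_smul]
  have hXA : toQ Xl ∈ A := Algebra.subset_adjoin (Submodule.subset_span ⟨Xl, ⟨g, hg, hgl⟩, rfl⟩)
  have hYA : toQ (y n) ∈ A :=
    Algebra.subset_adjoin (Submodule.subset_span ⟨y n, ⟨_, hgk, hYlog⟩, rfl⟩)
  have hle : Algebra.adjoin ℚ_[p] {toQ Xl, toQ (b n)} ≤ A := by
    apply Algebra.adjoin_le
    intro Z hZ
    rcases hZ with rfl | hZ
    · exact hXA
    · rw [Set.mem_singleton_iff] at hZ
      rw [hZ, hbq]
      exact Subalgebra.smul_mem _ (Subalgebra.sub_mem _ hYA hXA) _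
  have hfr := le_finrank_of_minor _ _ w e hn
  have heq : Subalgebra.toSubmodule (Algebra.adjoin ℚ_[p] {toQ Xl, toQ (b n)}) =
      Subalgebra.toSubmodule A := by
    apply Submodule.eq_of_le_of_finrank_le hle
    exact hfr
  refine ⟨g, hg, h₁, hh₁G, k, hkG, hk, ?_⟩
  have hX2 : toQ Xl ∈ Algebra.adjoin ℚ_[p] {toQ g, toQ (h₁ * g * k)} :=
    Algebra.adjoin_mono (by simp) (hG.log_adjoin hg hgl).1
  have hY2 : toQ (y n) ∈ Algebra.adjoin ℚ_[p] {toQ g, toQ (h₁ * g * k)} :=
    Algebra.adjoin_mono (by simp) (hG.log_adjoin hgk hYlog).1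
  have hA2 : A ≤ Algebra.adjoin ℚ_[p] {toQ g, toQ (h₁ * g * k)} := by
    intro Z hZ
    have h1 : Z ∈ Algebra.adjoin ℚ_[p] {toQ Xl, toQ (b n)} := by
      rw [← Subalgebra.mem_toSubmodule, heq]
      exact hZ
    have h2 : Algebra.adjoin ℚ_[p] {toQ Xl, toQ (b n)} ≤
        Algebra.adjoin ℚ_[p] {toQ g, toQ (h₁ * g * k)} := by
      apply Algebra.adjoin_le
      intro Z hZ
      rcases hZ with rfl | hZ
      · exact hX2
      · rw [Set.mem_singleton_iff] at hZ
        rw [hZ, hbq]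
        exact Subalgebra.smul_mem _ (Subalgebra.sub_mem _ hY2 hX2) _
    exact h2 h1
  intro γ hγ
  apply hA2
  obtain ⟨Z, hZ, -, h2⟩ := hG.exists_log hγ
  have h3 : Algebra.adjoin ℚ_[p] {toQ Z} ≤ A := by
    apply Algebra.adjoin_le
    intro W hW
    rw [Set.mem_singleton_iff] at hW
    rw [hW]
    exact Algebra.subset_adjoin (Submodule.subset_span ⟨Z, ⟨γ, hγ, hZ⟩, rfl⟩)
  exact h3 h2

end Pool.Agent.H850.TF
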