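import Pool.Agent.H850.OL.Red
import Pool.Agent.H850.TF.Avg

/-!
# Regular semisimple elements: every one of them generates together with a bracket
-/

set_option autoImplicit false
set_option linter.unusedSectionVars false

namespace Pool.Agent.H850.TF

open LieAlgebra LieModule

section Lin

variable {K W : Type} [Field K] [AddCommGroup W] [Module K W] [FiniteDimensional K W]

/-- an operator commuting with a semisimple operator of maximal rank in the pencil kills its
kernel -/
theorem comm_kill [Infinite K] (B H : Module.End K W) (hBH : Commute B H)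
    (hB : ∀ x, B (B x) = 0 → B x = 0)
    (hmax : ∀ t : K, Module.finrank K (LinearMap.range (B + t • H)) ≤
      Module.finrank K (LinearMap.range B)) : ∀ x, B x = 0 → H x = 0 := by
  classical
  have hcomm : ∀ x, B (H x) = H (B x) := fun x => LinearMap.congr_fun hBH.eq x
  set R := LinearMap.range B with hR
  have hBR : ∀ x ∈ R, B x ∈ R := fun x _ => ⟨x, rfl⟩
  have hHR : ∀ x ∈ R, H x ∈ R := by
    rintro _ ⟨y, rfl⟩
    exact ⟨H y, hcomm y⟩
  set B' := B.restrict hBR with hB'
  set H' := H.restrict hHR with hH'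
  have hinj : Function.Injective B' := by
    rw [injective_iff_map_eq_zero]
    rintro ⟨_, ⟨y, rfl⟩⟩ h
    apply Subtype.ext
    have h1 : B (B y) = 0 := congrArg Subtype.val h
    exact hB y h1
  set e := LinearEquiv.ofInjectiveEndo B' hinj with he
  set G : Module.End K R := e.symm.toLinearMap ∘ₗ H' with hG
  obtain ⟨s, hs⟩ := ((G.finite_hasEigenvalue).union (Set.finite_singleton (0 : K))).infinite_compl.nonempty
  have hs0 : s ≠ 0 := fun h => hs (Or.inr h)
  have hse : ¬ G.HasEigenvalue s := fun h => hs (Or.inl h)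
  set t : K := -s⁻¹ with ht
  have ht0 : t ≠ 0 := by
    rw [ht]
    exact neg_ne_zero.2 (inv_ne_zero hs0)
  have hinj2 : ∀ r ∈ R, (B + t • H) r = 0 → r = 0 := by
    intro r hr h0
    by_contra hr0
    apply hse
    refine Module.End.hasEigenvalue_of_hasEigenvector (x := (⟨r, hr⟩ : R)) ⟨?_, ?_⟩
    · rw [Module.End.mem_eigenspace_iff]
      apply e.injective
      have h1 : e (G ⟨r, hr⟩) = H' ⟨r, hr⟩ := by
        change e (e.symm (H' ⟨r, hr⟩)) = _
        rw [LinearEquiv.apply_symm_apply]
      rw [h1, map_smul]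
      apply Subtype.ext
      change H r = s • B r
      have h2 : B r + t • H r = 0 := h0
      have h3 : B r = s⁻¹ • H r := by
        rw [ht, neg_smul, ← sub_eq_add_neg, sub_eq_zero] at h2
        exact h2
      rw [h3, smul_smul, mul_inv_cancel₀ hs0, one_smul]
    · intro h
      exact hr0 (congrArg Subtype.val h)
  -- the image of `R`
  have hRle : R ≤ LinearMap.range (B + t • H) := by
    have h1 : R.map (B + t • H) ≤ R := by
      rintro _ ⟨r, hr, rfl⟩
      exact R.add_mem (hBR r hr) (R.smul_mem t (hHR r hr))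
    have h2 : Module.finrank K (R.map (B + t • H)) = Module.finrank K R := by
      have h3 : Function.Injective ((B + t • H).domRestrict R) := by
        rw [injective_iff_map_eq_zero]
        rintro ⟨r, hr⟩ h
        apply Subtype.ext
        exact hinj2 r hr h
      have h4 := LinearMap.finrank_range_of_inj h3
      rw [LinearMap.range_domRestrict] at h4
      exact h4
    have h3 := Submodule.eq_of_le_of_finrank_eq h1 h2
    rw [← h3]
    exact LinearMap.map_le_range
  intro x hx
  by_contra hHx
  have hk : B (H x) = 0 := by rw [hcomm, hx, map_zero]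
  have hnR : H x ∉ R := by
    rintro ⟨y, hy⟩
    apply hHx
    rw [← hy]
    apply hB
    rw [hy]
    exact hk
  have hmem : H x ∈ LinearMap.range (B + t • H) := by
    refine ⟨t⁻¹ • x, ?_⟩
    change B (t⁻¹ • x) + t • H (t⁻¹ • x) = H x
    rw [map_smul, hx, smul_zero, zero_add, map_smul, smul_smul, mul_inv_cancel₀ ht0, one_smul]
  have hlt : R < LinearMap.range (B + t • H) :=
    lt_of_le_of_ne hRle fun h => hnR (by rw [h]; exact hmem)
  exact absurd (Submodule.finrank_lt_finrank_of_lt hlt) (not_lt.2 (hmax t))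

theorem ker_sq_of_semisimple {B : Module.End K W} (hB : B.IsSemisimple) {x : W}
    (h : B (B x) = 0) : B x = 0 := by
  have h1 := (Module.End.isFinitelySemisimple_iff_isSemisimple.2 hB).genEigenspace_eq_eigenspace 0
    (k := 2) (by norm_num)
  have h2 : x ∈ B.genEigenspace 0 2 := by
    rw [show ((2 : ℕ∞)) = ((2 : ℕ) : ℕ∞) from rfl, Module.End.mem_genEigenspace_nat, zero_smul,
      sub_zero]
    change (B ^ 2) x = 0
    rw [pow_two]
    exact h
  rw [h1, Module.End.mem_eigenspace_iff, zero_smul] at h2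
  exact h2

end Lin

section Alg

variable (K : Type) {B : Type} [Field K] [Ring B] [Algebra K B] [FiniteDimensional K B]

/-- `ad f` -/
noncomputable def adE (f : B) : Module.End K B :=
  LinearMap.mulLeft K f - LinearMap.mulRight K f

theorem adE_apply (f g : B) : adE K f g = f * g - g * f := rfl

theorem aeval_mulLeft (f : B) (q : Polynomial K) :
    Polynomial.aeval (LinearMap.mulLeft K f : Module.End K B) q =
      LinearMap.mulLeft K (Polynomial.aeval f q) := by
  induction q using Polynomial.induction_on' with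
  | add p q hp hq =>
    rw [map_add, map_add, hp, hq]
    apply LinearMap.ext
    intro g
    simp [add_mul]
  | monomial n c =>
    rw [Polynomial.aeval_monomial, Polynomial.aeval_monomial, LinearMap.pow_mulLeft]
    apply LinearMap.ext
    intro g
    simp [Algebra.algebraMap_eq_smul_one]

theorem aeval_mulRight (f : B) (q : Polynomial K) :
    Polynomial.aeval (LinearMap.mulRight K f : Module.End K B) q =
      LinearMap.mulRight K (Polynomial.aeval f q) := by
  induction q using Polynomial.induction_on' with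
  | add p q hp hq =>
    rw [map_add, map_add, hp, hq]
    apply LinearMap.ext
    intro g
    simp [mul_add]
  | monomial n c =>
    rw [Polynomial.aeval_monomial, Polynomial.aeval_monomial, LinearMap.pow_mulRight]
    apply LinearMap.ext
    intro g
    simp [Algebra.algebraMap_eq_smul_one]

theorem semisimple_adE [CharZero K] {f : B} {q : Polynomial K} (hq : Squarefree q)
    (hf : Polynomial.aeval f q = 0) : (adE K f).IsSemisimple := by
  have h1 : Module.End.IsSemisimple (LinearMap.mulLeft K f) := by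
    refine Module.End.isSemisimple_of_squarefree_aeval_eq_zero hq ?_
    rw [aeval_mulLeft, hf]
    apply LinearMap.ext
    intro g
    simp
  have h2 : Module.End.IsSemisimple (LinearMap.mulRight K f) := by
    refine Module.End.isSemisimple_of_squarefree_aeval_eq_zero hq ?_
    rw [aeval_mulRight, hf]
    apply LinearMap.ext
    intro g
    simp
  have h3 : Commute (LinearMap.mulLeft K f : Module.End K B)
      (LinearMap.mulRight K f) := by
    apply LinearMap.ext
    intro g
    simp [mul_assoc]
  exact Module.End.IsSemisimple.sub_of_commute h3 h1 h2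

/-- a semisimple element whose `ad` has maximal rank in a space of operators: what commutes with it
commutes with the elements of the space that commute with it -/
theorem comm_of_max [CharZero K] (L : Submodule K B)
    {z h : B} (hz : z ∈ L) {q : Polynomial K} (hq : Squarefree q) (hzq : Polynomial.aeval z q = 0)
    (hmax : ∀ z' ∈ L, Module.finrank K (LinearMap.range (adE K z')) ≤
      Module.finrank K (LinearMap.range (adE K z))) (hh : h ∈ L) (hzh : Commute z h)
    {X : B} (hX : Commute z X) : Commute h X := by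
  have hinf : Infinite K := inferInstance
  have h1 : Commute (adE K z) (adE K h) := by
    apply LinearMap.ext
    intro g
    change adE K z (adE K h g) = adE K h (adE K z g)
    simp only [adE_apply]
    have h2 := hzh.eq
    simp only [mul_sub, sub_mul, ← mul_assoc]
    rw [h2]
    simp only [mul_assoc]
    rw [h2]
    abel
  have h3 := comm_kill (adE K z) (adE K h) h1
    (fun x hx => ker_sq_of_semisimple (semisimple_adE K hq hzq) hx)
    (fun t => by
      have h4 : adE K z + t • adE K h = adE K (z + t • h) := by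
        apply LinearMap.ext
        intro g
        simp only [LinearMap.add_apply, LinearMap.smul_apply, adE_apply, add_mul, mul_add,
          smul_mul_assoc, mul_smul_comm, smul_sub]
        abel
      rw [h4]
      exact hmax _ (L.add_mem hz (L.smul_mem t hh))) X (by
    rw [adE_apply, hX.eq, sub_self])
  rw [adE_apply, sub_eq_zero] at h3
  exact h3

end Alg

section Cartan

variable (K S : Type) [Field K] [IsAlgClosed K] [CharZero K] [LieRing S] [LieAlgebra K S]
  [Module.Finite K S] [IsKilling K S]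

/-- the root vectors for a given Cartan subalgebra -/
theorem root_vectors_of_cartan (H : LieSubalgebra K S) [H.IsCartanSubalgebra] :
    ∃ (ι : Type) (_ : Fintype ι) (X₀ : H) (e : ι → S) (a : ι → Module.Dual K H),
      (∀ i, e i ≠ 0) ∧ Function.Injective (fun i => a i X₀) ∧ (∀ i, a i X₀ ≠ 0) ∧
      (∀ i (h : H), ⁅(h : S), e i⁆ = a i h • e i) ∧
      LieSubalgebra.lieSpan K S (Set.range e) = ⊤ := by
  classical
  let ι := {α : LieModule.Weight K H S // α.IsNonZero}
  have : Finite ι := inferInstance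
  have : Fintype ι := Fintype.ofFinite ι
  -- a regular element
  obtain ⟨X₀, hX₀⟩ := Module.Dual.exists_forall_ne_zero_of_forall_exists (K := K) (M := H)
    (ι := {q : LieModule.Weight K H S × LieModule.Weight K H S // q.1 ≠ q.2} ⊕ ι)
    (fun q => Sum.elim (fun q => q.1.1.toLinear - q.1.2.toLinear) (fun α => α.1.toLinear) q)
    (by
      rintro (⟨⟨α, β⟩, hne⟩ | ⟨α, hα⟩)
      · by_contra hc
        push Not at hc
        apply hne
        ext h
        have := hc h
        simpa [sub_eq_zero] using this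
      · by_contra hc
        push Not at hc
        apply hα
        ext h
        have := hc h
        simpa using this)
  have hvec : ∀ α : ι, ∃ e : S, e ∈ rootSpace H α.1 ∧ e ≠ 0 := by
    intro α
    have h1 : (rootSpace H α.1).toSubmodule ≠ ⊥ := by
      rw [ne_eq, LieSubmodule.toSubmodule_eq_bot]
      exact α.1.genWeightSpace_ne_bot
    exact (Submodule.ne_bot_iff _).1 h1
  choose e he he0 using hvec
  have hspan : ∀ (α : ι) (y : S), y ∈ rootSpace H α.1 → ∃ c : K, c • e α = y := by
    intro α y hy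
    have h1 := IsKilling.finrank_rootSpace_eq_one (K := K) (L := S) (H := H) α.1 α.2
    have h2 : (⟨e α, he α⟩ : rootSpace H α.1) ≠ 0 := by
      intro h
      exact he0 α (congrArg Subtype.val h)
    obtain ⟨c, hc⟩ := (finrank_eq_one_iff_of_nonzero' _ h2).1 h1 ⟨y, hy⟩
    exact ⟨c, congrArg Subtype.val hc⟩
  refine ⟨ι, this, X₀, e, fun α => α.1.toLinear, he0, ?_, ?_, ?_, ?_⟩
  · intro α β h
    by_contra hne
    have h1 : α.1 ≠ β.1 := fun h => hne (Subtype.ext h)
    have h2 := hX₀ (Sum.inl ⟨(α.1, β.1), h1⟩)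
    apply h2
    change (α.1.toLinear - β.1.toLinear) X₀ = 0
    rw [LinearMap.sub_apply, sub_eq_zero]
    exact h
  · intro α
    exact hX₀ (Sum.inr α)
  · intro α h
    exact IsKilling.lie_eq_smul_of_mem_rootSpace (he α) h
  · set I := LieSubalgebra.lieSpan K S (Set.range e) with hI
    have heI : ∀ α, e α ∈ I := fun α => LieSubalgebra.subset_lieSpan ⟨α, rfl⟩
    -- stability under `H`
    have hHI : ∀ (h : H), ∀ y ∈ I, ⁅(h : S), y⁆ ∈ I := by
      intro h y hy
      induction hy using LieSubalgebra.lieSpan_induction with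
      | mem y hy =>
        obtain ⟨α, rfl⟩ := hy
        have h1 : ⁅(h : S), e α⁆ = α.1 h • e α := IsKilling.lie_eq_smul_of_mem_rootSpace (he α) h
        rw [h1]
        exact I.smul_mem _ (heI α)
      | zero => simp
      | add y z _ _ hy hz => rw [lie_add]; exact I.add_mem hy hz
      | smul c y _ hy => rw [lie_smul]; exact I.smul_mem _ hy
      | lie y z hyI hzI hy hz =>
        rw [leibniz_lie]
        exact I.add_mem (I.lie_mem hy hzI) (I.lie_mem hyI hz)
    have htop : ∀ y : S, ∃ h : H, ∃ i ∈ I, y = h + i := by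
      have h1 := cartan_sup_iSup_rootSpace_eq_top H
      have h2 : H.toLieSubmodule.toSubmodule ⊔ I.toSubmodule = ⊤ := by
        rw [eq_top_iff]
        have h3 : (H.toLieSubmodule ⊔ ⨆ α : Weight K H S, ⨆ (_ : α.IsNonZero),
            rootSpace H α).toSubmodule ≤ H.toLieSubmodule.toSubmodule ⊔ I.toSubmodule := by
          rw [LieSubmodule.sup_toSubmodule]
          refine sup_le_sup_left ?_ _
          rw [LieSubmodule.iSup_toSubmodule]
          refine iSup_le fun α => ?_
          rw [LieSubmodule.iSup_toSubmodule]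
          refine iSup_le fun hα => ?_
          intro y hy
          obtain ⟨c, rfl⟩ := hspan ⟨α, hα⟩ y hy
          exact I.smul_mem _ (heI _)
        rw [h1] at h3
        exact h3
      intro y
      have hy : y ∈ H.toLieSubmodule.toSubmodule ⊔ I.toSubmodule := by rw [h2]; trivial
      obtain ⟨h, hh, i, hi, rfl⟩ := Submodule.mem_sup.1 hy
      exact ⟨⟨h, by simpa using hh⟩, i, hi, rfl⟩
    have hD := perfect_of_isKilling K S I.toSubmodule (by
      intro y z
      obtain ⟨h, i, hi, rfl⟩ := htop y
      obtain ⟨h', i', hi', rfl⟩ := htop z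
      have hab : ⁅(h : S), (h' : S)⁆ = 0 := by
        have h3 : ⁅h, h'⁆ = 0 := trivial_lie_zero H H h h'
        have h4 := congrArg (fun w : H => (w : S)) h3
        simpa using h4
      rw [add_lie, lie_add, lie_add, hab, zero_add]
      refine I.add_mem (hHI h i' hi') (I.add_mem ?_ (I.lie_mem hi hi'))
      rw [← lie_skew]
      exact I.neg_mem (hHI h' i hi))
    rw [← LieSubalgebra.toSubmodule_inj, hD]
    rfl

end Cartan

section RegGen

variable (K : Type) (L : Type) (M : Type) [Field K] [IsAlgClosed K] [CharZero K]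
  [LieRing L] [LieAlgebra K L]
  [Module.Finite K L] [AddCommGroup M] [Module K M] [Module.Finite K M] [LieRingModule L M]
  [LieModule K L M]

/-- **A regular semisimple element and a bracket with it generate.** -/
theorem regular_generates [ComplementedLattice (LieSubmodule K L M)] [IsFaithful K L M] (z : L)
    (hC : ∀ h : L, ⁅z, h⁆ = 0 → toEnd K L M h ∈ Algebra.adjoin K {toEnd K L M z})
    (hss : ∀ x : L, ⁅z, ⁅z, x⁆⁆ = 0 → ⁅z, x⁆ = 0) :
    ∃ W : L, ∀ Z : L, toEnd K L M Z ∈
      Algebra.adjoin K {toEnd K L M z, toEnd K L M ⁅W, z⁆} := by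
  classical
  have := hasTrivialRadical_quotient K L M
  set π := LieSubmodule.Quotient.mk' (radical K L) with hπ
  have hπlie : ∀ x y : L, π ⁅x, y⁆ = ⁅π x, π y⁆ := fun x y => rfl
  have hπ0 : ∀ x : L, π x = 0 → x ∈ radical K L := fun x hx =>
    (LieSubmodule.Quotient.mk_eq_zero (radical K L)).1 hx
  have hπ0' : ∀ x : L, x ∈ radical K L → π x = 0 := fun x hx =>
    (LieSubmodule.Quotient.mk_eq_zero (radical K L)).2 hx
  have hcen : ∀ r ∈ radical K L, ∀ x : L, ⁅x, r⁆ = 0 := fun r hr x =>
    lie_radical_eq_zero K L M ⟨r, hr⟩ x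
  have hcen' : ∀ r ∈ radical K L, ∀ x : L, ⁅r, x⁆ = 0 := fun r hr x => by
    rw [← lie_skew, hcen r hr, neg_zero]
  have hsurj : ∀ w : L ⧸ radical K L, ∃ x : L, π x = w := LieSubmodule.Quotient.surjective_mk' _
  have hinj : ∀ x y : L, toEnd K L M x = toEnd K L M y → x = y := fun x y h =>
    (isFaithful_iff _ _ _).1 ‹IsFaithful K L M› h
  -- the centralizer of `z` is abelian
  have hab : ∀ h h' : L, ⁅z, h⁆ = 0 → ⁅z, h'⁆ = 0 → ⁅h, h'⁆ = 0 := by
    intro h h' hh hh'
    have h1 : Commute (toEnd K L M h) (toEnd K L M h') := by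
      have h3 : ∀ a ∈ Algebra.adjoin K {toEnd K L M z}, ∀ b ∈ Algebra.adjoin K {toEnd K L M z},
          a * b = b * a := by
        intro a ha b hb
        have h4 := (Algebra.isMulCommutative_adjoin K (s := {toEnd K L M z}) (by
          intro a ha b hb
          rw [Set.mem_singleton_iff] at ha hb
          rw [ha, hb])).is_comm.comm ⟨a, ha⟩ ⟨b, hb⟩
        exact congrArg Subtype.val h4
      exact h3 _ (hC h hh) _ (hC h' hh')
    apply hinj
    rw [toEnd_lie_eq, h1.eq, sub_self, map_zero]
  -- the image of the centralizer is a Cartan subalgebra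
  let H : LieSubalgebra K (L ⧸ radical K L) :=
    { carrier := {w | ∃ h : L, ⁅z, h⁆ = 0 ∧ π h = w}
      add_mem' := by
        rintro _ _ ⟨h, hh, rfl⟩ ⟨h', hh', rfl⟩
        exact ⟨h + h', by rw [lie_add, hh, hh', add_zero], map_add _ _ _⟩
      zero_mem' := ⟨0, by simp, map_zero _⟩
      smul_mem' := by
        rintro c _ ⟨h, hh, rfl⟩
        exact ⟨c • h, by rw [lie_smul, hh, smul_zero], map_smul _ _ _⟩
      lie_mem' := by
        rintro _ _ ⟨h, hh, rfl⟩ ⟨h', hh', rfl⟩
        exact ⟨⁅h, h'⁆, by rw [hab h h' hh hh', lie_zero], hπlie _ _⟩ }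
  have hHab : ∀ x y : H, ⁅x, y⁆ = 0 := by
    rintro ⟨_, h, hh, rfl⟩ ⟨_, h', hh', rfl⟩
    apply Subtype.ext
    change ⁅π h, π h'⁆ = 0
    rw [← hπlie, hab h h' hh hh', map_zero]
  have hHabel : IsLieAbelian H := ⟨hHab⟩
  have hmemH : ∀ x : L, π x ∈ H → ⁅z, x⁆ = 0 := by
    rintro x ⟨h, hh, hx⟩
    have h1 : x - h ∈ radical K L := hπ0 _ (by rw [map_sub, hx, sub_self])
    have h2 := hcen _ h1 z
    rw [lie_sub, hh, sub_zero] at h2
    exact h2
  have hzH : π z ∈ H := ⟨z, lie_self z, rfl⟩
  have hCartan : H.IsCartanSubalgebra := by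
    refine ⟨inferInstance, ?_⟩
    apply le_antisymm
    · intro w hw
      rw [LieSubalgebra.mem_normalizer_iff] at hw
      obtain ⟨x, rfl⟩ := hsurj w
      have h1 := hw _ hzH
      rw [← hπlie] at h1
      have h2 := hmemH _ h1
      have h3 : ⁅z, ⁅z, x⁆⁆ = 0 := by
        rw [← lie_skew x z, lie_neg, neg_eq_zero] at h2
        exact h2
      exact ⟨x, hss x h3, rfl⟩
    · exact LieSubalgebra.le_normalizer H
  obtain ⟨ι, _, X₀, e, a, he0, ha, ha0, he, hspan⟩ := root_vectors_of_cartan K (L ⧸ radical K L) H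
  obtain ⟨x₀, hx₀, hx₀π⟩ := X₀.2
  have haz : ∀ i, a i ⟨π z, hzH⟩ ≠ 0 := by
    intro i h0
    obtain ⟨x, hx⟩ := hsurj (e i)
    have h1 := he i ⟨π z, hzH⟩
    rw [h0, zero_smul] at h1
    have h2 : π ⁅z, x⁆ = 0 := by rw [hπlie, hx]; exact h1
    have h3 := hss x (hcen _ (hπ0 _ h2) z)
    have h4 : e i ∈ H := ⟨x, h3, hx⟩
    have h5 := hHab X₀ ⟨e i, h4⟩
    have h6 : ⁅(X₀ : L ⧸ radical K L), e i⁆ = 0 := congrArg Subtype.val h5
    rw [he i X₀] at h6
    rcases smul_eq_zero.1 h6 with h7 | h7
    · exact ha0 i h7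
    · exact he0 i h7
  choose e' he' using fun i => hsurj (e i)
  have hr : ∀ i, ⁅x₀, e' i⁆ - a i X₀ • e' i ∈ radical K L := by
    intro i
    apply hπ0
    rw [map_sub, map_smul, hπlie, hx₀π, he', he, sub_self]
  set E : ι → L := fun i => e' i + (a i X₀)⁻¹ • (⁅x₀, e' i⁆ - a i X₀ • e' i) with hE
  have hEX : ∀ i, ⁅x₀, E i⁆ = a i X₀ • E i := by
    intro i
    rw [hE]
    simp only
    rw [lie_add, lie_smul, hcen _ (hr i), smul_zero, add_zero, smul_add, smul_smul,
      mul_inv_cancel₀ (ha0 i), one_smul]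
    abel
  have hEπ : ∀ i, π (E i) = e i := by
    intro i
    rw [hE]
    simp only
    rw [map_add, map_smul, he', hπ0' _ (hr i), smul_zero, add_zero]
  have hEz : ∀ i, ⁅z, E i⁆ = a i ⟨π z, hzH⟩ • E i := by
    intro i
    have h1 : ⁅z, E i⁆ - a i ⟨π z, hzH⟩ • E i ∈ radical K L := by
      apply hπ0
      rw [map_sub, map_smul, hπlie, hEπ]
      have h2 : ⁅π z, e i⁆ = a i ⟨π z, hzH⟩ • e i := he i ⟨π z, hzH⟩
      rw [h2, sub_self]
    have h3 : ⁅x₀, ⁅z, E i⁆ - a i ⟨π z, hzH⟩ • E i⁆ = 0 := hcen _ h1 x₀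
    have h4 : ⁅x₀, z⁆ = 0 := by rw [← lie_skew, hx₀, neg_zero]
    rw [lie_sub, leibniz_lie, h4, zero_lie, zero_add, lie_smul, hEX, lie_smul, smul_comm,
      ← smul_sub] at h3
    rcases smul_eq_zero.1 h3 with h5 | h5
    · exact absurd h5 (ha0 i)
    · rwa [sub_eq_zero] at h5
  set T := LieSubalgebra.lieSpan K L (Set.range E) with hT
  have hlift : ∀ w : L ⧸ radical K L, ∃ t ∈ T, π t = w := by
    intro w
    have hw : w ∈ LieSubalgebra.lieSpan K (L ⧸ radical K L) (Set.range e) := by
      rw [hspan]; trivial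
    induction hw using LieSubalgebra.lieSpan_induction with
    | mem w hw =>
      obtain ⟨i, rfl⟩ := hw
      exact ⟨E i, LieSubalgebra.subset_lieSpan ⟨i, rfl⟩, hEπ i⟩
    | zero => exact ⟨0, T.zero_mem, map_zero _⟩
    | add x y _ _ hx hy =>
      obtain ⟨t, ht, rfl⟩ := hx
      obtain ⟨t', ht', rfl⟩ := hy
      exact ⟨t + t', T.add_mem ht ht', map_add _ _ _⟩
    | smul c x _ hx =>
      obtain ⟨t, ht, rfl⟩ := hx
      exact ⟨c • t, T.smul_mem c ht, map_smul _ _ _⟩
    | lie x y _ _ hx hy =>
      obtain ⟨t, ht, rfl⟩ := hx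
      obtain ⟨t', ht', rfl⟩ := hy
      exact ⟨⁅t, t'⁆, T.lie_mem ht ht', hπlie _ _⟩
  have hdec : ∀ Z : L, ∃ t ∈ T, Z - t ∈ radical K L := by
    intro Z
    obtain ⟨t, ht, hπt⟩ := hlift (π Z)
    exact ⟨t, ht, hπ0 _ (by rw [map_sub, hπt, sub_self])⟩
  refine ⟨-∑ i, (a i ⟨π z, hzH⟩)⁻¹ • E i, ?_⟩
  have hWX : ⁅-∑ i, (a i ⟨π z, hzH⟩)⁻¹ • E i, z⁆ = ∑ i, E i := by
    rw [← lie_skew, lie_neg, neg_neg, lie_sum]
    refine Finset.sum_congr rfl fun i _ => ?_
    rw [lie_smul, hEz, smul_smul, inv_mul_cancel₀ (haz i), one_smul]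
  rw [hWX]
  set A := Algebra.adjoin K {toEnd K L M z, toEnd K L M (∑ i, E i)} with hA
  have hzA : Algebra.adjoin K {toEnd K L M z} ≤ A :=
    Algebra.adjoin_mono (Set.singleton_subset_iff.2 (Set.mem_insert _ _))
  have hxA : toEnd K L M x₀ ∈ A := hzA (hC x₀ hx₀)
  have hYA : toEnd K L M (∑ i, E i) ∈ A :=
    Algebra.subset_adjoin (Set.mem_insert_of_mem _ rfl)
  have hEA : ∀ i, toEnd K L M (E i) ∈ A := by
    apply mem_of_sum_mem A (toEnd K L M x₀) hxA (fun i => toEnd K L M (E i)) (fun i => a i X₀) ha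
    · intro i
      have h1 := congrArg (toEnd K L M) (hEX i)
      rw [toEnd_lie_eq, map_smul] at h1
      exact h1
    · rw [← map_sum]
      exact hYA
  have hTA : ∀ t ∈ T, toEnd K L M t ∈ A := by
    intro t ht
    induction ht using LieSubalgebra.lieSpan_induction with
    | mem w hw =>
      obtain ⟨i, rfl⟩ := hw
      exact hEA i
    | zero => rw [map_zero]; exact A.zero_mem
    | add x y _ _ hx hy => rw [map_add]; exact A.add_mem hx hy
    | smul c x _ hx => rw [map_smul]; exact A.smul_mem hx c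
    | lie x y _ _ hx hy =>
      rw [toEnd_lie_eq]
      exact A.sub_mem (A.mul_mem hx hy) (A.mul_mem hy hx)
  intro Z
  obtain ⟨t, ht, hr⟩ := hdec Z
  have h1 : toEnd K L M Z = toEnd K L M t + toEnd K L M (Z - t) := by
    rw [map_sub]; abel
  rw [h1]
  exact A.add_mem (hTA t ht) (hzA (hC _ (hcen _ hr z)))

end RegGen

end Pool.Agent.H850.TF
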