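import Pool.Agent.H850.OL.Main
import Pool.Agent.H850.OL.Reg2

/-!
# Every regular semisimple element generates with almost every conjugate
-/

set_option autoImplicit false
set_option linter.unusedSectionVars false

namespace Pool.Agent.H850.RG

open Pool.Agent.H850.TF MeasureTheory Topology

section CRss

variable {N : ℕ}

theorem CR_of_isSemisimple {F : Type} [Field F] {z : Matrix (Fin N) (Fin N) F}
    (h : Module.End.IsSemisimple (Matrix.toLin' z)) :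
    CR ({z} : Set (Matrix (Fin N) (Fin N) F)) := by
  rw [Module.End.isSemisimple_iff] at h
  intro W hW
  obtain ⟨W', hW', hc⟩ := h W (by
    intro x hx
    rw [Submodule.mem_comap, Matrix.toLin'_apply]
    exact hW z rfl x hx)
  refine ⟨W', ?_, hc⟩
  rintro _ rfl x hx
  have h1 := hW' hx
  rw [Submodule.mem_comap, Matrix.toLin'_apply] at h1
  exact h1

theorem CR_pow {F : Type} [Field F] [CharZero F] {z : Matrix (Fin N) (Fin N) F}
    (h : CR ({z} : Set (Matrix (Fin N) (Fin N) F))) (m : ℕ) :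
    CR ({z ^ m} : Set (Matrix (Fin N) (Fin N) F)) := by
  apply CR_of_isSemisimple
  rw [Matrix.toLin'_pow]
  exact (isSemisimple_of_CR h).pow m

end CRss

variable {N : ℕ} {p : ℕ} [Fact p.Prime] {Γ : Type} [Group Γ] [TopologicalSpace Γ]
  [IsTopologicalGroup Γ] [CompactSpace Γ] [TotallyDisconnectedSpace Γ] [MeasurableSpace Γ]
  [BorelSpace Γ]

/-- **Every regular semisimple element generates with almost every conjugate.** -/
theorem ConnOn.conj_regular (μ : Measure Γ) [μ.IsHaarMeasure] {ρ : Γ →* GL (Fin N) ℤ_[p]}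
    (hρ : Continuous fun σ => (ρ σ : Matrix (Fin N) (Fin N) ℤ_[p])) {U : Subgroup Γ}
    (hU : IsOpen (U : Set Γ)) (h : ConnOn ρ U) (hss : CR (Set.range (TF.rat ρ))) {x : Γ}
    (hx : x ∈ U) (hxs : CR ({TF.rat ρ x} : Set (Matrix (Fin N) (Fin N) ℚ_[p])))
    (hmax : ∀ m : ℕ, m ≠ 0 → ∀ g ∈ U, rk (TF.rat ρ g) ≤ rk (TF.rat ρ (x ^ m))) :
    ∀ᵐ y ∂μ, y ∈ U → ∀ k : ℕ, k ≠ 0 → ∀ u ∈ U, TF.rat ρ u ∈
      Algebra.adjoin ℚ_[p] {TF.rat ρ (x ^ k), TF.rat ρ (y * x ^ k * y⁻¹)} := by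
  classical
  obtain ⟨V, hV⟩ := ProfiniteGrp.exist_openNormalSubgroup_sub_open_nhds_of_one
    (U := (U : Set Γ) ∩ (U1 ρ : Set Γ)) (hU.inter (isOpen_U1 ρ hρ)) ⟨U.one_mem, (U1 ρ).one_mem⟩
  have hn : V.toSubgroup.Normal := V.isNormal'
  have hVU : ∀ v ∈ V.toSubgroup, v ∈ U := fun v hv => (hV hv).1
  have hV1 : ∀ v ∈ V.toSubgroup, v ∈ U1 ρ := fun v hv => (hV hv).2
  have hfin1 : Finite (Γ ⧸ V.toSubgroup) := Subgroup.quotient_finite_of_isOpen _ V.isOpen'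
  have hfi1 : V.toSubgroup.FiniteIndex := Subgroup.finiteIndex_of_finite_quotient
  set m := V.toSubgroup.index with hm
  have hm0 : m ≠ 0 := hfi1.index_ne_zero
  have hpow : x ^ m ∈ V.toSubgroup := Subgroup.pow_index_mem V.toSubgroup x
  have hG := small_imag ρ V.toSubgroup hV1
  have hCR : CR (toQ '' imag ρ V.toSubgroup) := by
    rw [toQ_imag]
    exact clifford (TF.rat ρ) V.toSubgroup hss
  obtain ⟨_, ⟨η, hη, rfl⟩, h', -, hh', hgen⟩ := two_elements_regular hG hCR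
    (g := (ρ (x ^ m) : Matrix (Fin N) (Fin N) ℤ_[p])) ⟨x ^ m, hpow, rfl⟩ (by
      have h1 := CR_pow hxs m
      rw [← map_pow] at h1
      exact h1) (by
      rintro _ ⟨v, hv, rfl⟩
      exact hmax m hm0 v (hVU v hv))
  have hgenV : ∀ γ ∈ V.toSubgroup, TF.rat ρ γ ∈
      Algebra.adjoin ℚ_[p] {TF.rat ρ (x ^ m), TF.rat ρ (η * x ^ m * η⁻¹)} := by
    intro γ hγ
    have h1 : h' = ((ρ η⁻¹ : GL (Fin N) ℤ_[p]) : Matrix (Fin N) (Fin N) ℤ_[p]) := by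
      have h2 : ((ρ η⁻¹ : GL (Fin N) ℤ_[p]) : Matrix (Fin N) (Fin N) ℤ_[p]) *
          (ρ η : Matrix (Fin N) (Fin N) ℤ_[p]) = 1 := by
        rw [← Units.val_mul, ← map_mul, inv_mul_cancel, map_one, Units.val_one]
      calc h' = (((ρ η⁻¹ : GL (Fin N) ℤ_[p]) : Matrix (Fin N) (Fin N) ℤ_[p]) *
          (ρ η : Matrix (Fin N) (Fin N) ℤ_[p])) * h' := by rw [h2, one_mul]
        _ = _ := by rw [mul_assoc, hh', mul_one]
    have h3 := hgen _ ⟨γ, hγ, rfl⟩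
    have h4 : toQ ((ρ η : Matrix (Fin N) (Fin N) ℤ_[p]) *
        (ρ (x ^ m) : Matrix (Fin N) (Fin N) ℤ_[p]) * h') = TF.rat ρ (η * x ^ m * η⁻¹) := by
      rw [h1, map_mul, map_mul, map_mul, map_mul]
      rfl
    rw [h4] at h3
    exact h3
  have hgenU : ∀ u ∈ U, TF.rat ρ u ∈
      Algebra.adjoin ℚ_[p] {TF.rat ρ (x ^ m), TF.rat ρ (η * x ^ m * η⁻¹)} := fun u hu =>
    h.mem_adjoin V.isOpen' hu _ hgenV
  have hle : ∀ y ∈ U, Algebra.adjoin ℚ_[p] {TF.rat ρ (x ^ m), TF.rat ρ (y * x ^ m * y⁻¹)} ≤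
      Algebra.adjoin ℚ_[p] (TF.rat ρ '' (U : Set Γ)) := by
    intro y hy
    apply Algebra.adjoin_mono
    intro X hX
    rcases hX with rfl | hX
    · exact ⟨_, U.pow_mem hx m, rfl⟩
    · rw [Set.mem_singleton_iff] at hX
      rw [hX]
      exact ⟨_, U.mul_mem (U.mul_mem hy (U.pow_mem hx m)) (U.inv_mem hy), rfl⟩
  have hA0 : Algebra.adjoin ℚ_[p] (TF.rat ρ '' (U : Set Γ)) =
      Algebra.adjoin ℚ_[p] {TF.rat ρ (x ^ m), TF.rat ρ (η * x ^ m * η⁻¹)} := by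
    apply le_antisymm
    · apply Algebra.adjoin_le
      rintro _ ⟨σ, hσ, rfl⟩
      exact hgenU σ hσ
    · exact hle η (hVU η hη)
  obtain ⟨w, e, hwe⟩ := exists_minor (TF.rat ρ (x ^ m)) (TF.rat ρ (η * x ^ m * η⁻¹))
    (Module.finrank ℚ_[p] (Subalgebra.toSubmodule
      (Algebra.adjoin ℚ_[p] (TF.rat ρ '' (U : Set Γ))))) (by
    rw [← adjoin_pair_eq_span, ← hA0])
  have hf2 : (fun y => minor w e (TF.rat ρ (x ^ m)) (TF.rat ρ (y * x ^ m * y⁻¹))) ∈ Pol ρ :=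
    (PM.const ρ _).minor (PM.conj_left ρ (x ^ m)) w e
  have hae2 := h.ae_ne μ hρ hU hf2 (hVU η hη) hwe
  filter_upwards [hae2] with y hy hyU k hk u hu
  have h5 := le_finrank_of_minor _ _ w e (hy hyU)
  have h4 := Submodule.eq_of_le_of_finrank_le
    (show Subalgebra.toSubmodule (Algebra.adjoin ℚ_[p] {TF.rat ρ (x ^ m),
      TF.rat ρ (y * x ^ m * y⁻¹)}) ≤
      Subalgebra.toSubmodule (Algebra.adjoin ℚ_[p] (TF.rat ρ '' (U : Set Γ))) from
        hle y hyU) h5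
  have h6 : TF.rat ρ u ∈ Algebra.adjoin ℚ_[p] {TF.rat ρ (x ^ m),
      TF.rat ρ (y * x ^ m * y⁻¹)} := by
    rw [← Subalgebra.mem_toSubmodule, h4]
    exact Algebra.subset_adjoin ⟨u, hu, rfl⟩
  have h7 := conj_mem_adjoin ρ (σ := x) y (k := k) (m := m) hk (hV1 _ hpow)
  have h8 := conj_mem_adjoin ρ (σ := x) 1 (k := k) (m := m) hk (hV1 _ hpow)
  simp only [one_mul, inv_one, mul_one] at h8
  have h9 : Algebra.adjoin ℚ_[p] {TF.rat ρ (x ^ m), TF.rat ρ (y * x ^ m * y⁻¹)} ≤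
      Algebra.adjoin ℚ_[p] {TF.rat ρ (x ^ k), TF.rat ρ (y * x ^ k * y⁻¹)} := by
    apply Algebra.adjoin_le
    intro Z hZ
    rcases hZ with rfl | hZ
    · exact Algebra.adjoin_mono (Set.singleton_subset_iff.2 (Set.mem_insert _ _)) h8
    · rw [Set.mem_singleton_iff] at hZ
      rw [hZ]
      exact Algebra.adjoin_mono (Set.singleton_subset_iff.2
        (Set.mem_insert_of_mem _ (Set.mem_singleton _))) h7
  exact h9 h6

/-- **Pairs of representations**: the maps commuting with a power of a regular semisimple element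
and with the same power of almost every conjugate commute with the whole group. -/
theorem hom_conj_regular (μ : Measure Γ) [μ.IsHaarMeasure] {N' : ℕ} {ρ : Γ →* GL (Fin N) ℤ_[p]}
    {ρ' : Γ →* GL (Fin N') ℤ_[p]}
    (hρ : Continuous fun σ => (ρ σ : Matrix (Fin N) (Fin N) ℤ_[p]))
    (hρ' : Continuous fun σ => (ρ' σ : Matrix (Fin N') (Fin N') ℤ_[p]))
    (h : CR (Set.range (TF.rat ρ))) (h' : CR (Set.range (TF.rat ρ'))) {x : Γ}
    (hx : x ∈ conn (dsm ρ ρ'))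
    (hxs : CR ({TF.rat (dsm ρ ρ') x} : Set (Matrix (Fin (N + N')) (Fin (N + N')) ℚ_[p])))
    (hmax : ∀ m : ℕ, m ≠ 0 → ∀ g ∈ conn (dsm ρ ρ'),
      rk (TF.rat (dsm ρ ρ') g) ≤ rk (TF.rat (dsm ρ ρ') (x ^ m))) :
    ∀ᵐ y ∂μ, y ∈ conn (dsm ρ ρ') → ∀ k : ℕ, k ≠ 0 → ∀ φ : Matrix (Fin N') (Fin N) ℚ_[p],
        φ * TF.rat ρ (x ^ k) = TF.rat ρ' (x ^ k) * φ →
        φ * TF.rat ρ (y * x ^ k * y⁻¹) = TF.rat ρ' (y * x ^ k * y⁻¹) * φ →
          ∀ u ∈ conn (dsm ρ ρ'), φ * TF.rat ρ u = TF.rat ρ' u * φ := by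
  have hgen := (connOn_conn (dsm ρ ρ')).conj_regular μ (continuous_dsm hρ hρ')
    (isOpen_conn (dsm ρ ρ')) (CR_dsm h h') hx hxs hmax
  filter_upwards [hgen] with y hy hyU k hk φ h1 h2 u hu
  exact off_of_adjoin ρ ρ' φ (hy hyU k hk u hu) h1 h2

end Pool.Agent.H850.RG
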