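import Pool.Agent.H850.OL.Reg3

/-!
# The rank of `ad` of a power of a semisimple matrix depends on the characteristic polynomial only
-/

set_option autoImplicit false
set_option linter.unusedSectionVars false

namespace Pool.Agent.H850.TF

open Polynomial

variable {n : ℕ}

section Diag

variable {F : Type} [Field F]

/-- a semisimple matrix over an algebraically closed field is conjugate to a diagonal one -/
theorem exists_diag [IsAlgClosed F] {M : Matrix (Fin n) (Fin n) F}
    (h : CR ({M} : Set (Matrix (Fin n) (Fin n) F))) :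
    ∃ (Q Q' : Matrix (Fin n) (Fin n) F) (d : Fin n → F), Q * Q' = 1 ∧ Q' * Q = 1 ∧
      M = Q * Matrix.diagonal d * Q' := by
  classical
  have hss := isSemisimple_of_CR h
  set s : Module.End F (Fin n → F) := Matrix.toLin' M with hs
  let eigenDecomp := DirectSum.isInternal_submodule_of_iSupIndep_of_iSup_eq_top
    s.eigenspaces_iSupIndep hss.iSup_eigenspace_eq_top
  let I := (ν : F) × Fin (Module.finrank F (s.eigenspace ν))
  let v : Module.Basis I F (Fin n → F) :=
    eigenDecomp.collectedBasis fun μ ↦ Module.finBasis F (s.eigenspace μ)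
  have : Fintype I := FiniteDimensional.fintypeBasisIndex v
  have hsv (i : I) : s (v i) = i.1 • v i :=
    Module.End.mem_eigenspace_iff.mp (eigenDecomp.collectedBasis_mem _ i)
  have hcard : Fintype.card I = n := by
    rw [← Module.finrank_eq_card_basis v]
    simp
  let e : I ≃ Fin n := Fintype.equivFinOfCardEq hcard
  let v' := v.reindex e
  let d : Fin n → F := fun j => (e.symm j).1
  have hv' : ∀ j, M.mulVec (v' j) = d j • v' j := by
    intro j
    have h1 : Matrix.toLin' M (v (e.symm j)) = (e.symm j).1 • v (e.symm j) := hsv (e.symm j)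
    rw [Matrix.toLin'_apply] at h1
    have h2 : v' j = v (e.symm j) := v.reindex_apply e j
    rw [h2]
    exact h1
  set Q : Matrix (Fin n) (Fin n) F := Matrix.of fun i j => v' j i with hQ
  have hQu : IsUnit Q := by
    rw [← Matrix.linearIndependent_cols_iff_isUnit]
    exact v'.linearIndependent
  have hQd : IsUnit Q.det := (Matrix.isUnit_iff_isUnit_det _).1 hQu
  have hMQ : M * Q = Q * Matrix.diagonal d := by
    ext i j
    rw [Matrix.mul_diagonal, Matrix.mul_apply]
    have h1 := congrFun (hv' j) i
    simp only [Matrix.mulVec, dotProduct, Pi.smul_apply, smul_eq_mul] at h1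
    simp only [hQ, Matrix.of_apply]
    rw [h1, mul_comm]
  refine ⟨Q, Q⁻¹, d, Matrix.mul_nonsing_inv Q hQd, Matrix.nonsing_inv_mul Q hQd, ?_⟩
  rw [← hMQ, mul_assoc, Matrix.mul_nonsing_inv Q hQd, mul_one]

theorem rk_conj {Q Q' : Matrix (Fin n) (Fin n) F} (h1 : Q * Q' = 1) (h2 : Q' * Q = 1)
    (X : Matrix (Fin n) (Fin n) F) : rk (Q * X * Q') = rk X := by
  let c : Matrix (Fin n) (Fin n) F ≃ₗ[F] Matrix (Fin n) (Fin n) F :=
    { toFun := fun Z => Q * Z * Q'
      map_add' := fun Z Z' => by rw [mul_add, add_mul]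
      map_smul' := fun a Z => by
        rw [RingHom.id_apply, mul_smul_comm, smul_mul_assoc]
      invFun := fun Z => Q' * Z * Q
      left_inv := fun Z => by
        change Q' * (Q * Z * Q') * Q = Z
        calc Q' * (Q * Z * Q') * Q = (Q' * Q) * Z * (Q' * Q) := by simp only [mul_assoc]
          _ = Z := by rw [h2, one_mul, mul_one]
      right_inv := fun Z => by
        change Q * (Q' * Z * Q) * Q' = Z
        calc Q * (Q' * Z * Q) * Q' = (Q * Q') * Z * (Q * Q') := by simp only [mul_assoc]
          _ = Z := by rw [h1, one_mul, mul_one] }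
  have hc : ∀ Z, c Z = Q * Z * Q' := fun Z => rfl
  have hcomm : ∀ Z, adE F (Q * X * Q') (c Z) = c (adE F X Z) := by
    intro Z
    rw [adE_apply, adE_apply, hc, hc]
    have h3 : Q * X * Q' * (Q * Z * Q') = Q * (X * Z) * Q' := by
      calc Q * X * Q' * (Q * Z * Q') = Q * X * (Q' * Q) * Z * Q' := by simp only [mul_assoc]
        _ = _ := by rw [h2, mul_one]; simp only [mul_assoc]
    have h4 : Q * Z * Q' * (Q * X * Q') = Q * (Z * X) * Q' := by
      calc Q * Z * Q' * (Q * X * Q') = Q * Z * (Q' * Q) * X * Q' := by simp only [mul_assoc]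
        _ = _ := by rw [h2, mul_one]; simp only [mul_assoc]
    rw [h3, h4, mul_sub, sub_mul]
  have hr : LinearMap.range (adE F (Q * X * Q')) = (LinearMap.range (adE F X)).map c.toLinearMap := by
    apply le_antisymm
    · rintro _ ⟨Z, rfl⟩
      refine ⟨adE F X (c.symm Z), ⟨_, rfl⟩, ?_⟩
      have h3 := hcomm (c.symm Z)
      rw [LinearEquiv.apply_symm_apply] at h3
      exact h3.symm
    · rintro _ ⟨_, ⟨Z, rfl⟩, rfl⟩
      exact ⟨c Z, hcomm Z⟩
  unfold rk
  rw [hr]
  exact LinearEquiv.finrank_map_eq c _

theorem conj_pow' {Q Q' : Matrix (Fin n) (Fin n) F} (h1 : Q * Q' = 1) (h2 : Q' * Q = 1)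
    (X : Matrix (Fin n) (Fin n) F) (m : ℕ) : (Q * X * Q') ^ m = Q * X ^ m * Q' := by
  induction m with
  | zero => rw [pow_zero, pow_zero, mul_one, h1]
  | succ m ih =>
    rw [pow_succ, ih, pow_succ]
    calc Q * X ^ m * Q' * (Q * X * Q') = Q * X ^ m * (Q' * Q) * X * Q' := by simp only [mul_assoc]
      _ = _ := by rw [h2, mul_one]; simp only [mul_assoc]

/-- the entries as a linear equivalence -/
def entE (F : Type) [Field F] : Matrix (Fin n) (Fin n) F ≃ₗ[F] (Fin n × Fin n → F) :=
  { entL F with
    invFun := fun f => Matrix.of fun i j => f (i, j)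
    left_inv := fun _ => rfl
    right_inv := fun _ => rfl }

theorem rk_diagonal [DecidableEq F] (d : Fin n → F) :
    rk (Matrix.diagonal d) = ∑ i, (Finset.univ.filter fun j => d i ≠ d j).card := by
  classical
  set w : Fin n × Fin n → F := fun q => d q.1 - d q.2 with hw
  have hcomm : ∀ Z : Matrix (Fin n) (Fin n) F,
      (Matrix.diagonal w).mulVecLin (entE F Z) = entE F (adE F (Matrix.diagonal d) Z) := by
    intro Z
    funext q
    rw [Matrix.mulVecLin_apply, Matrix.mulVec_diagonal]
    change (d q.1 - d q.2) * Z q.1 q.2 = (Matrix.diagonal d * Z - Z * Matrix.diagonal d) q.1 q.2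
    rw [Matrix.sub_apply, Matrix.diagonal_mul, Matrix.mul_diagonal]
    ring
  have hr : LinearMap.range (Matrix.diagonal w).mulVecLin =
      (LinearMap.range (adE F (Matrix.diagonal d))).map (entE F).toLinearMap := by
    apply le_antisymm
    · rintro _ ⟨Z, rfl⟩
      refine ⟨adE F (Matrix.diagonal d) ((entE F).symm Z), ⟨_, rfl⟩, ?_⟩
      have h3 := hcomm ((entE F).symm Z)
      rw [LinearEquiv.apply_symm_apply] at h3
      exact h3.symm
    · rintro _ ⟨_, ⟨Z, rfl⟩, rfl⟩
      exact ⟨entE F Z, hcomm Z⟩
  have h1 : rk (Matrix.diagonal d) = (Matrix.diagonal w).rank := by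
    unfold rk Matrix.rank
    rw [hr]
    exact (LinearEquiv.finrank_map_eq (entE F) _).symm
  rw [h1, Matrix.rank_diagonal]
  have h2 : Fintype.card {q : Fin n × Fin n // w q ≠ 0} =
      ((Finset.univ : Finset (Fin n × Fin n)).filter fun q => d q.1 ≠ d q.2).card := by
    rw [Fintype.card_subtype]
    congr 1
    ext q
    simp [hw, sub_eq_zero]
  rw [h2, Finset.card_filter, Fintype.sum_prod_type]
  refine Finset.sum_congr rfl fun i _ => ?_
  rw [Finset.card_filter]

end Diag

section Count

/-- the number of pairs in a multiset with distinct `m`-th powers -/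
def npairs {F : Type} [Field F] [DecidableEq F] (s : Multiset F) (m : ℕ) : ℕ :=
  (s.map fun a => s.countP fun b => a ^ m ≠ b ^ m).sum

theorem npairs_map {F F' : Type} [Field F] [DecidableEq F] [Field F'] [DecidableEq F']
    (f : F →+* F') (s : Multiset F) (m : ℕ) : npairs (s.map f) m = npairs s m := by
  unfold npairs
  rw [Multiset.map_map]
  congr 1
  refine Multiset.map_congr rfl fun a _ => ?_
  simp only [Function.comp]
  rw [Multiset.countP_map, ← Multiset.countP_eq_card_filter]
  congr 1
  funext b
  rw [← map_pow, ← map_pow, f.injective.ne_iff]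

theorem npairs_univ {F : Type} [Field F] [DecidableEq F] (d : Fin n → F) (m : ℕ) :
    npairs (Finset.univ.val.map d) m =
      ∑ i, (Finset.univ.filter fun j => d i ^ m ≠ d j ^ m).card := by
  unfold npairs
  rw [Multiset.map_map, Finset.sum]
  congr 1
  refine Multiset.map_congr rfl fun i _ => ?_
  simp only [Function.comp]
  rw [Multiset.countP_map]
  rfl

/-- **The rank of `ad` of a power is determined by the characteristic polynomial.** -/
theorem rk_pow_eq_npairs {K : Type} [Field K] [CharZero K] {M : Matrix (Fin n) (Fin n) K}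
    (h : CR ({M} : Set (Matrix (Fin n) (Fin n) K))) (P : ℤ[X])
    (hP : M.charpoly = P.map (algebraMap ℤ K)) (m : ℕ) [DecidableEq (AlgebraicClosure ℚ)] :
    rk (M ^ m) = npairs (P.map (algebraMap ℤ (AlgebraicClosure ℚ))).roots m := by
  classical
  let F := AlgebraicClosure K
  have hchar : CharZero F := charZero_of_injective_algebraMap (algebraMap K F).injective
  obtain ⟨Q, Q', d, h1, h2, hM⟩ := exists_diag (CR_bc (F := F) h)
  have h3 : rk (M ^ m) = rk (Matrix.diagonal fun i => d i ^ m) := by
    rw [← rk_bc (F := F), map_pow, hM, conj_pow' h1 h2, rk_conj h1 h2, Matrix.diagonal_pow]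
    rfl
  rw [h3, rk_diagonal, ← npairs_univ]
  -- the roots
  have h4 : (bc M : Matrix (Fin n) (Fin n) F).charpoly = P.map (algebraMap ℤ F) := by
    have h5 : (bc M : Matrix (Fin n) (Fin n) F) = M.map (algebraMap K F) := rfl
    rw [h5, Matrix.charpoly_map, hP, Polynomial.map_map]
    congr 1
  have h5 : (bc M : Matrix (Fin n) (Fin n) F).charpoly = ∏ i, (X - C (d i)) := by
    rw [hM, mul_assoc, Matrix.charpoly_mul_comm, mul_assoc, h2, mul_one,
      Matrix.charpoly_diagonal]
  have h6 : (P.map (algebraMap ℤ F)).roots = Finset.univ.val.map d := by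
    rw [← h4, h5]
    have h7 : ∏ i, (X - C (d i)) = ((Finset.univ.val.map d).map fun a => X - C a).prod := by
      rw [Multiset.map_map]
      rfl
    rw [h7, Polynomial.roots_multiset_prod_X_sub_C]
  rw [← h6]
  have : Algebra.IsAlgebraic ℚ (AlgebraicClosure ℚ) := by
    have h1 := AlgebraicClosure.isAlgebraic ℚ
    have e : (AlgebraicClosure.instAlgebra ℚ : Algebra ℚ (AlgebraicClosure ℚ)) = DivisionRing.toRatAlgebra :=
      Subsingleton.elim _ _
    rw [← e]
    exact h1
  let f : AlgebraicClosure ℚ →+* F :=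
    (IsAlgClosed.lift (R := ℚ) (M := F) (S := AlgebraicClosure ℚ)).toRingHom
  have h8 : (P.map (algebraMap ℤ F)).roots =
      ((P.map (algebraMap ℤ (AlgebraicClosure ℚ))).roots).map f := by
    have e : algebraMap ℤ F = f.comp (algebraMap ℤ (AlgebraicClosure ℚ)) := RingHom.ext_int _ _
    rw [e, ← Polynomial.map_map, (IsAlgClosed.splits _).roots_map]
  rw [h8, npairs_map]

end Count

end Pool.Agent.H850.TF
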